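import Pool.Agent.P.MP_7c5a52_nt.G.Main

/-! Height one localisations: transfer between rings, factorial rings, Newton polygons. -/

namespace Pool.Agent.P.MP_7c5a52_nt.X

open G

variable {Ω : Type} [Field Ω] {R U V S : Subring Ω} {L : Subfield Ω}

theorem un_one : Un V 1 := ⟨one_mem _, by simp, one_ne_zero⟩

theorem un_div {a b : Ω} (ha : Un V a) (hb : Un V b) : Un V (a / b) := by
  rw [div_eq_mul_inv]; exact ha.mul hb.inv

theorem un_mono {a : Ω} (ha : Un V a) (h : V ≤ U) : Un U a := ⟨h ha.1, h ha.2.1, ha.2.2⟩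

theorem un_prod {ι : Type} {t : Finset ι} {f : ι → Ω} (h : ∀ i ∈ t, Un V (f i)) :
    Un V (∏ i ∈ t, f i) := Finset.prod_induction _ _ (fun _ _ => Un.mul) un_one h

theorem un_of_mul {a b : Ω} (ha : a ∈ V) (hb : b ∈ V) (h : Un V (a * b)) : Un V a := by
  refine ⟨ha, ?_, left_ne_zero_of_mul h.2.2⟩
  rw [show a⁻¹ = b * (a * b)⁻¹ by
    rw [mul_inv, mul_left_comm, mul_inv_cancel₀ (right_ne_zero_of_mul h.2.2), mul_one]]
  exact mul_mem hb h.2.1

theorem un_of_pow {a : Ω} (ha : a ∈ V) {n : ℕ} (hn : n ≠ 0) (h : Un V (a ^ n)) : Un V a := by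
  obtain ⟨n, rfl⟩ := Nat.exists_eq_succ_of_ne_zero hn
  exact un_of_mul ha (pow_mem ha n) (pow_succ' a n ▸ h)

theorem un_map {a : Ω} (ha : Un V a) (σ : Ω →+* Ω) : Un (V.map σ) (σ a) :=
  ⟨⟨a, ha.1, rfl⟩, ⟨_, ha.2.1, map_inv₀ σ a⟩, (map_ne_zero σ).2 ha.2.2⟩

theorem val_un {W : ValuationSubring Ω} (h : V ≤ W.toSubring) {a : Ω} (ha : Un V a) :
    W.valuation a = 1 := by
  refine le_antisymm ((W.valuation_le_one_iff _).2 (h ha.1)) ?_
  have := (W.valuation_le_one_iff _).2 (h ha.2.1)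
  rwa [map_inv₀, inv_le_one₀ (zero_lt_iff.2 ((map_ne_zero _).2 ha.2.2))] at this

theorem ord_mem_iff [IsDiscreteValuationRing V] {f : Ω} {n : ℤ} (h : IsOrd V f n) :
    f ∈ V ↔ 0 ≤ n := by
  constructor
  · intro hf
    obtain ⟨π, hπ⟩ := IsDiscreteValuationRing.exists_irreducible V
    have h0 : (⟨f, hf⟩ : V) ≠ 0 := fun e =>
      ((isOrd_iff hπ).1 h).2.2 (by rw [show f = 0 from congrArg Subtype.val e, zero_div])
    obtain ⟨m, u, e⟩ := IsDiscreteValuationRing.eq_unit_mul_pow_irreducible h0 hπ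
    rw [h.unique (m := m) ⟨π, hπ, u, by simpa using congrArg Subtype.val e⟩]
    exact Int.natCast_nonneg m
  · intro hn
    obtain ⟨m, rfl⟩ := Int.eq_ofNat_of_zero_le hn
    obtain ⟨π, _, u, rfl⟩ := h
    rw [zpow_natCast]
    exact V.mul_mem (u : V).2 (V.pow_mem π.2 m)

theorem ord_ne {f : Ω} {n : ℤ} (h : IsOrd V f n) : f ≠ 0 := by
  obtain ⟨π, hπ, u, rfl⟩ := h
  exact mul_ne_zero (un_unit u).2.2 (zpow_ne_zero _ (irr_ne_zero hπ))

theorem ord_irr {π : V} (h : Irreducible π) : IsOrd V (π : Ω) 1 := ⟨π, h, 1, by simp⟩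

theorem ord_un [IsDiscreteValuationRing V] {f f' : Ω} {n : ℤ} (h : IsOrd V f n)
    (hu : Un V (f' / f)) : IsOrd V f' n := by
  have := (isOrd_zero_iff.2 hu).mul h
  rwa [zero_add, div_mul_cancel₀ _ (ord_ne h)] at this

theorem un_ord [IsDiscreteValuationRing V] {f f' : Ω} {n : ℤ} (h : IsOrd V f n)
    (h' : IsOrd V f' n) : Un V (f' / f) := by
  have := h'.mul h.inv
  rwa [add_neg_cancel, isOrd_zero_iff, ← div_eq_mul_inv] at this

/-- `U` is integrally closed in `L`. -/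
def ICl (U : Subring Ω) (L : Subfield Ω) : Prop := ∀ z ∈ L, IsIntegral U z → z ∈ U

theorem ICl.of_int (h : ICl U L) (hS : S ≤ U) {z : Ω} (hz : z ∈ L) (hi : IsIntegral S z) :
    z ∈ U := h z hz (hi.map_of_comp_eq (Subring.inclusion hS) (RingHom.id Ω) rfl)

theorem ICl.of_pow (h : ICl U L) {z : Ω} (hz : z ∈ L) {n : ℕ} (hn : n ≠ 0) (h1 : z ^ n ∈ U) :
    z ∈ U :=
  h z hz (IsIntegral.of_pow (Nat.pos_of_ne_zero hn) (isIntegral_algebraMap (x := (⟨_, h1⟩ : U))))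

theorem val_icl (W : ValuationSubring Ω) (L : Subfield Ω) : ICl W.toSubring L := fun _ _ h =>
  have : IsIntegrallyClosedIn W.toSubring Ω := inferInstanceAs (IsIntegrallyClosedIn W Ω)
  Subring.isIntegrallyClosedIn_iff.1 this h

theorem int_of_val {z : Ω} (h : ∀ W : ValuationSubring Ω, U ≤ W.toSubring → z ∈ W) :
    IsIntegral U z := by
  have := iInf_valuationSubring_superset (s := (U : Set Ω))
  rw [Subring.closure_eq] at this
  exact (this.le (Subring.mem_iInf.2 fun W => h W.1 W.2) :)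

theorem loc_icl (h : Nrm R L) {P : Ideal R} (hP : P.IsPrime) (hV : IsLoc R P V) : ICl V L := by
  intro z hz hi
  let : Algebra R V := (Subring.inclusion (hV.le hP)).toAlgebra
  have : IsScalarTower R V Ω := .of_algebraMap_eq fun _ => rfl
  have : IsLocalization P.primeCompl V :=
    { map_units := fun y => by
        obtain ⟨u, hu⟩ := (hV.un hP y.2).exists_unit
        exact (Subtype.ext hu : (u : V) = algebraMap R V y) ▸ u.isUnit
      surj := fun z => by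
        obtain ⟨x, y, hy, e⟩ := (hV z).1 z.2
        refine ⟨(x, ⟨y, hy⟩), Subtype.ext ?_⟩
        change (z : Ω) * y = x
        rw [e, div_mul_cancel₀ _ (ne_zero_of_notMem hy)]
      exists_of_eq := fun {x y} e => ⟨1, by
        rw [(Subtype.ext (congrArg (fun z : V => (z : Ω)) e) : x = y)]⟩ }
  obtain ⟨m, hm⟩ := hi.exists_multiple_integral_of_isLocalization P.primeCompl z
  have e : (m • z : Ω) = (m.1 : Ω) * z := rfl
  exact (hV z).2 ⟨⟨_, h.int _ (e ▸ L.mul_mem (h.le _ m.1.2) hz) hm⟩, m.1, m.2,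
    (eq_div_iff (ne_zero_of_notMem m.2)).2 (mul_comm _ _)⟩

theorem loc_le (h : Nrm R L) {P : Ideal R} (hV : IsLoc R P V) : V ≤ L.toSubring := fun z hz => by
  obtain ⟨x, y, _, rfl⟩ := (hV z).1 hz
  exact L.div_mem (h.le _ x.2) (h.le _ y.2)

theorem loc_not_un {P : Ideal R} (hV : IsLoc R P V) {x : R} (hx : x ∈ P) : ¬ Un V x := fun h => by
  obtain ⟨a, b, hb, e⟩ := (hV _).1 h.2.1
  refine hb ((Subtype.ext ?_ : a * x = b) ▸ P.mul_mem_left a hx)
  have := h.2.2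
  have := ne_zero_of_notMem hb
  rw [Subring.coe_mul, ← mul_left_inj' (inv_ne_zero this), mul_right_comm, ← div_eq_mul_inv, ← e]
  field_simp

theorem exists_ctr (W : ValuationSubring Ω) (hR : R ≤ W.toSubring) :
    ∃ Q : Ideal R, Q.IsPrime ∧ ∀ a : R, W.valuation (a : Ω) < 1 ↔ a ∈ Q :=
  ⟨(IsLocalRing.maximalIdeal W).comap (R.subtype.codRestrict W fun x => hR x.2),
    Ideal.comap_isPrime _ _, fun a => (W.valuation_lt_one_iff ⟨a, hR a.2⟩).symm⟩

theorem loc_val {P : Ideal R} (hP : P.IsPrime) (hV : IsLoc R P V) {W : ValuationSubring Ω}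
    (hW : R ≤ W.toSubring) (hc : ∀ a : R, W.valuation (a : Ω) < 1 ↔ a ∈ P) :
    V ≤ W.toSubring ∧ ∀ z ∈ V, W.valuation z = 1 → Un V z := by
  have h1 : ∀ y : R, y ∉ P → W.valuation (y : Ω) = 1 := fun y hy =>
    le_antisymm ((W.valuation_le_one_iff _).2 (hW y.2)) (not_lt.1 ((hc y).not.2 hy))
  refine ⟨fun z hz => ?_, fun z hz hv => ?_⟩ <;> obtain ⟨x, y, hy, rfl⟩ := (hV z).1 hz
  · refine (W.valuation_le_one_iff _).1 ?_
    rw [map_div₀, h1 y hy, div_one]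
    exact (W.valuation_le_one_iff _).2 (hW x.2)
  · rw [map_div₀, h1 y hy, div_one] at hv
    exact un_div (hV.un hP ((hc x).not.1 (by rw [hv]; exact lt_irrefl _))) (hV.un hP hy)

theorem exists_ht (hN : IsNoetherianRing R) {Q : Ideal R} (hQ : Q.IsPrime) (hU : IsLoc R Q U)
    {n : Ω} (hn : n ∈ U) (h0 : n ≠ 0) (hu : ¬ Un U n) :
    ∃ W ∈ htOneLocs R, U ≤ W ∧ ¬ Un W n := by
  obtain ⟨x, y, hy, rfl⟩ := (hU n).1 hn
  have hx : x ∈ Q := by_contra fun hx => hu (un_div (hU.un hQ hx) (hU.un hQ hy))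
  have hx0 : x ≠ 0 := fun e => h0 (by simp [e])
  obtain ⟨P, hP, hPQ⟩ := Ideal.exists_minimalPrimes_le ((Ideal.span_singleton_le_iff_mem _).2 hx)
  have hxP : x ∈ P := hP.1.2 (Ideal.mem_span_singleton_self x)
  obtain ⟨W, hW⟩ := exists_isLoc P hP.1.1
  refine ⟨W, ⟨P, hP.1.1, le_antisymm
    (Ideal.height_le_one_of_isPrincipal_of_mem_minimalPrimes _ _ hP)
    (Order.one_le_iff_ne_zero.2 (Ideal.height_eq_zero_iff_eq_bot.not.2 fun e =>
      hx0 (Ideal.mem_bot.1 (e ▸ hxP)))), hW⟩, fun z hz => ?_, fun h => loc_not_un hW hxP ?_⟩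
  · obtain ⟨a, b, hb, e⟩ := (hU z).1 hz
    exact (hW z).2 ⟨a, b, fun h => hb (hPQ h), e⟩
  · have := h.mul (hW.un hP.1.1 fun h => hy (hPQ h))
    rwa [div_mul_cancel₀ _ (ne_zero_of_notMem hy)] at this

theorem dvr_max [IsDiscreteValuationRing V] (hord : ∀ f ∈ L, f ≠ 0 → ∃ n, IsOrd V f n)
    (hVL : V ≤ L.toSubring) (hVU : V ≤ U) {π : V} (hπ : Irreducible π) (hu : ¬ Un U π) :
    U ⊓ L.toSubring = V := by
  refine le_antisymm (fun z hz => by_contra fun hn => hu ⟨hVU π.2, ?_, irr_ne_zero hπ⟩)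
    (le_inf hVU hVL)
  obtain ⟨n, h⟩ := hord z hz.2 fun e => hn (e ▸ V.zero_mem)
  have h1 := (ord_mem_iff h).not.1 hn
  have h2 := (ord_mem_iff ((h.mul (ord_irr hπ)).inv)).2 (by omega)
  rw [show (π : Ω)⁻¹ = z * (z * π)⁻¹ by rw [mul_inv, mul_inv_cancel_left₀ (ord_ne h)]]
  exact mul_mem hz.1 (hVU h2)

/-- A height one localisation of `B` is cut out by a height one localisation of `R`. -/
theorem transfer {B : Subring Ω} {L₁ : Subfield Ω} (hB : Nrm B L) (hR : Nrm R L₁) {P : Ideal B}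
    (hP : P.IsPrime) (h1 : P.height = 1) (hV : IsLoc B P V) {W : ValuationSubring Ω}
    (hW : B ≤ W.toSubring) (hc : ∀ a : B, W.valuation (a : Ω) < 1 ↔ a ∈ P)
    (hRW : R ≤ W.toSubring)
    (h : ∀ U : Subring Ω, ICl U L₁ → R ≤ U → (∀ z ∈ U, W.valuation z = 1 → Un U z) → B ≤ U) :
    ∃ V' ∈ htOneLocs R, V' ⊓ L.toSubring = V := by
  obtain ⟨Q, hQ, hcQ⟩ := exists_ctr W hRW
  obtain ⟨U, hU⟩ := exists_isLoc Q hQ
  obtain ⟨u1, u2⟩ := loc_val hQ hU hRW hcQ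
  obtain ⟨v1, v2⟩ := loc_val hP hV hW hc
  have hBU := h U (loc_icl hR hQ hU) (hU.le hQ) u2
  have hVU : V ≤ U := fun z hz => by
    obtain ⟨x, y, hy, rfl⟩ := (hV z).1 hz
    rw [div_eq_mul_inv]
    exact mul_mem (hBU x.2) (u2 _ (hBU y.2) (val_un v1 (hV.un hP hy))).2.1
  have := hB.dvr hP h1 hV
  obtain ⟨π, hπ⟩ := IsDiscreteValuationRing.exists_irreducible V
  obtain ⟨V', hV', h2, h3⟩ := exists_ht hR.noeth hQ hU (hVU π.2) (irr_ne_zero hπ) fun hu =>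
    irr_not_un hπ (v2 _ π.2 (val_un u1 hu))
  exact ⟨V', hV', dvr_max (fun f => hB.exists_ord hP h1 hV) (loc_le hB hV) (hVU.trans h2) hπ h3⟩

theorem map_ht {E : Type} [Field E] [Algebra E Ω] (σ : Ω ≃ₐ[E] Ω) (h : ∀ z ∈ R, σ z ∈ R)
    (h' : ∀ z ∈ R, σ⁻¹ z ∈ R) (hV : V ∈ htOneLocs R) : V.map (σ : Ω →+* Ω) ∈ htOneLocs R := by
  obtain ⟨P, hP, h1, hV⟩ := hV
  let e : R ≃+* R :=
    { toFun := fun z => ⟨σ⁻¹ z, h' _ z.2⟩
      invFun := fun z => ⟨σ z, h _ z.2⟩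
      left_inv := fun z => Subtype.ext (σ.apply_symm_apply z)
      right_inv := fun z => Subtype.ext (σ.symm_apply_apply z)
      map_mul' := fun x y => Subtype.ext (map_mul σ⁻¹ _ _)
      map_add' := fun x y => Subtype.ext (map_add σ⁻¹ _ _) }
  refine ⟨P.comap e, hP.comap e, by rw [e.height_comap, h1], fun z => ⟨?_, ?_⟩⟩
  · rintro ⟨_, hz, rfl⟩
    obtain ⟨x, y, hy, rfl⟩ := (hV _).1 hz
    exact ⟨e.symm x, e.symm y, by rwa [Ideal.mem_comap, e.apply_symm_apply], map_div₀ σ _ _⟩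
  · rintro ⟨x, y, hy, rfl⟩
    refine ⟨_, (hV _).2 ⟨e x, e y, hy, rfl⟩, ?_⟩
    rw [map_div₀]
    exact congrArg₂ _ (σ.apply_symm_apply _) (σ.apply_symm_apply _)

theorem mem_map {E : Type} [Field E] [Algebra E Ω] (σ : Ω ≃ₐ[E] Ω) {z : Ω} :
    z ∈ V.map (σ : Ω →+* Ω) ↔ σ⁻¹ z ∈ V :=
  ⟨by rintro ⟨z, hz, rfl⟩; exact (σ.symm_apply_apply z).symm ▸ hz,
    fun h => ⟨_, h, σ.apply_symm_apply z⟩⟩

theorem ht_le (hV : V ∈ htOneLocs R) : R ≤ V := by
  obtain ⟨P, hP, _, hV⟩ := hV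
  exact IsLoc.le hP hV

theorem ht_uniq {π : R} (hπ : Prime π) (hV : V ∈ htOneLocs R) (hU : U ∈ htOneLocs R)
    (h : ¬ Un V π) (h' : ¬ Un U π) : V = U := by
  have key : ∀ V ∈ htOneLocs R, ¬ Un V π → IsLoc R (Ideal.span {π}) V := by
    rintro V ⟨P, hP, h1, hV⟩ h
    rwa [← P.eq_span_singleton_of_height_eq_one h1 (by_contra fun hn => h (IsLoc.un hP hV hn)) hπ]
  exact Subring.ext fun z => (key V hV h z).trans (key U hU h' z).symm

theorem ht_gen [UniqueFactorizationMonoid R] (hV : V ∈ htOneLocs R) :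
    ∃ π : R, Prime π ∧ ¬ Un V π := by
  obtain ⟨P, hP, h1, hV⟩ := hV
  obtain ⟨π, h, hπ⟩ := hP.exists_mem_prime_of_ne_bot (P.ne_bot_of_height_eq_one h1)
  exact ⟨π, hπ, loc_not_un hV h⟩

/-- In a factorial ring one can keep any part of the divisor of a function. -/
theorem ht_split [UniqueFactorizationMonoid R] (hR : Nrm R L) (T : Subring Ω → Prop) {f : Ω}
    (hf : f ∈ L) (h0 : f ≠ 0) : ∃ F ∈ L, F ≠ 0 ∧ ∀ W ∈ htOneLocs R,
      (T W → Un W (F / f)) ∧ (¬ T W → Un W F) := by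
  have key : ∀ x : R, x ≠ 0 → ∃ F ∈ L, F ≠ 0 ∧ ∀ W ∈ htOneLocs R,
      (T W → Un W (F / x)) ∧ (¬ T W → Un W F) := fun x => by
    induction x using UniqueFactorizationMonoid.induction_on_prime with
    | h₁ => exact fun h => absurd rfl h
    | h₂ x hx =>
      obtain ⟨u, rfl⟩ := hx
      exact fun _ => ⟨1, one_mem _, one_ne_zero, fun W hW =>
        ⟨fun _ => un_div un_one (un_mono (un_unit u) (ht_le hW)), fun _ => un_one⟩⟩
    | h₃ a π ha hπ ih =>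
      intro _
      obtain ⟨F, hF, hF0, h⟩ := ih ha
      have hπ0 : (π : Ω) ≠ 0 := irr_ne_zero hπ.irreducible
      by_cases hc : ∃ W ∈ htOneLocs R, T W ∧ ¬ Un W π
      · obtain ⟨W0, h1, h2, h3⟩ := hc
        refine ⟨π * F, mul_mem (hR.le _ π.2) hF, mul_ne_zero hπ0 hF0, fun W hW =>
          ⟨fun hT => ?_, fun hT => Un.mul (by_contra fun hn => hT ?_) ((h W hW).2 hT)⟩⟩
        · rw [Subring.coe_mul, mul_div_mul_left _ _ hπ0]
          exact (h W hW).1 hT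
        · rwa [ht_uniq hπ hW h1 hn h3]
      · push Not at hc
        refine ⟨F, hF, hF0, fun W hW => ⟨fun hT => ?_, (h W hW).2⟩⟩
        rw [Subring.coe_mul, mul_comm, ← div_div]
        exact un_div ((h W hW).1 hT) (hc W hW hT)
  obtain ⟨a, b, hb, rfl⟩ := hR.frac f hf
  obtain ⟨F, hF, hF0, h⟩ := key a fun e => h0 (by simp [e])
  obtain ⟨F', hF', hF0', h'⟩ := key b hb
  refine ⟨F / F', div_mem hF hF', div_ne_zero hF0 hF0', fun W hW =>
    ⟨fun hT => ?_, fun hT => un_div ((h W hW).2 hT) ((h' W hW).2 hT)⟩⟩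
  rw [div_div_div_comm]
  exact un_div ((h W hW).1 hT) ((h' W hW).1 hT)

theorem ht_un (hR : Nrm R L) {f : Ω} (hf : f ∈ L) (h0 : f ≠ 0)
    (h : ∀ W ∈ htOneLocs R, Un W f) : Un R f :=
  ⟨hR.hartogs hf fun P V a b c => (h V ⟨P, a, b, c⟩).1,
    hR.hartogs (inv_mem hf) fun P V a b c => (h V ⟨P, a, b, c⟩).2.1, h0⟩

theorem exists_pow_mul (hR : Nrm R L) {z f : Ω} (hz : z ∈ R) (hz0 : z ≠ 0) (hf : f ∈ L)
    (h0 : f ≠ 0) (h : ∀ W ∈ htOneLocs R, Un W z → f ∈ W) : ∃ n : ℕ, f * z ^ n ∈ R := by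
  classical
  have key : ∀ W ∈ htOneLocs R, ∀ᶠ n : ℕ in Filter.atTop, f * z ^ n ∈ W := fun W hW => by
    have hzW := ht_le hW hz
    by_cases hu : Un W z
    · exact .of_forall fun n => mul_mem (h W hW hu) (pow_mem hzW n)
    obtain ⟨P, hP, h1, hW⟩ := hW
    have := hR.dvr hP h1 hW
    obtain ⟨a, ha⟩ := hR.exists_ord hP h1 hW (hR.le z hz) hz0
    obtain ⟨b, hb⟩ := hR.exists_ord hP h1 hW hf h0
    have h2 := (ord_mem_iff ha).1 hzW
    have h3 : a ≠ 0 := fun e => hu (isOrd_zero_iff.1 (e ▸ ha))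
    filter_upwards [Filter.eventually_ge_atTop b.natAbs] with n hn
    refine (ord_mem_iff (hb.mul (ord_pow ha n))).2 ?_
    have : (n : ℤ) * 1 ≤ n * a := mul_le_mul_of_nonneg_left (by omega) (by omega)
    omega
  obtain ⟨n, hn⟩ := ((Filter.eventually_all_finite (hR.finite hf h0)).2 fun W hW =>
    key W hW.1).exists
  refine ⟨n, hR.hartogs (mul_mem hf (pow_mem (hR.le z hz) n)) fun P V a b c => ?_⟩
  by_cases hu : Un V f
  · exact mul_mem hu.1 (pow_mem (c.le a hz) n)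
  · exact hn V ⟨⟨P, a, b, c⟩, hu⟩

/-- The least order in a vanishing sum is attained twice. -/
theorem min_twice [IsDiscreteValuationRing V] {t : Finset ℕ} (ht : t.Nonempty) {f : ℕ → Ω}
    {o : ℕ → ℤ} (h : ∀ n ∈ t, IsOrd V (f n) (o n)) (h0 : ∑ n ∈ t, f n = 0) :
    ∃ n ∈ t, ∃ n' ∈ t, n < n' ∧ o n = o n' ∧ ∀ m ∈ t, o n ≤ o m := by
  obtain ⟨n, hn, hm⟩ := t.exists_min_image o ht
  obtain ⟨n', hn', hne, e⟩ : ∃ n' ∈ t, n' ≠ n ∧ o n' = o n := by
    by_contra! hc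
    obtain ⟨π, hπ⟩ := IsDiscreteValuationRing.exists_irreducible V
    have h1 := fun m hm => ord_mem_iff ((h m hm).mul ((ord_irr hπ).zpow (-(o n + 1))))
    have h2 : f n * (π : Ω) ^ (-(o n + 1)) ∈ V := by
      rw [eq_neg_of_add_eq_zero_left ((Finset.add_sum_erase t f hn).trans h0), neg_mul,
        Finset.sum_mul]
      refine neg_mem (sum_mem fun m hm' => ?_)
      obtain ⟨h3, h4⟩ := Finset.mem_erase.1 hm'
      have := hm m h4
      have := hc m h4 h3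
      exact (h1 m h4).2 (by omega)
    have := (h1 n hn).1 h2
    omega
  rcases lt_or_gt_of_ne hne with h1 | h1
  · exact ⟨n', hn', n, hn, h1, e, e ▸ hm⟩
  · exact ⟨n, hn, n', hn', h1, e.symm, hm⟩

end Pool.Agent.P.MP_7c5a52_nt.X
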