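import Pool.Agent.P.MP_7c5a52_nt.X.Loc

/-! The ring of `Y_1(p)` for `p` of degree at most `r` and the action of `(A/p)^*`. -/

open Polynomial

set_option linter.unusedSectionVars false

namespace Pool.Agent.P.MP_7c5a52_nt.X

open G

variable {k F E Ω : Type} [Field k] [Fintype k] [Field F] [Field E] [Field Ω] [Algebra k Ω]
  [Algebra F Ω] [Algebra E Ω] {T : F} {s : ℕ} {j : Fin s → E} [Algebra k F] [Algebra F E]
  [IsScalarTower F E Ω] [IsScalarTower k F Ω] [GenJ F j] [GenT k T] {p : k[X]} {c c' : Ω}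

theorem tower : IsScalarTower k (Fsep F Ω) Ω := .of_algebraMap_eq fun _ => rfl

attribute [local instance] tower

/-- Affine coordinates. -/
noncomputable def cw (d : ℕ) (ψ : k[X] →ₗ[k] Ω) (z : Fin (s + 1) → Ω) : Fin s → Ω :=
  fun i => if i.1 + 1 < d then ψ (X ^ (i.1 + 1)) else z i.succ

theorem aeval_lin {K : Type} [Field K] [Algebra k K] [Algebra K Ω] [IsScalarTower k K Ω]
    (hp : Irreducible p) (hd : p.natDegree ≤ s + 1) {ψ : k[X] →ₗ[k] Ω} (h1 : ψ 1 = 1)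
    (h : ∀ a, p ∣ a → ψ a = 0) (z : Fin (s + 1) → Ω) (a : k[X]) :
    MvPolynomial.aeval (cw p.natDegree ψ z) (lin s p K a) = ψ a := by
  have hr : (a % p).natDegree < p.natDegree := natDegree_mod_lt a hp.natDegree_pos.ne'
  conv_rhs => rw [← EuclideanDomain.mod_add_div a p, map_add, h _ (dvd_mul_right _ _), add_zero,
    (a % p).as_sum_range_C_mul_X_pow' (hr.trans_le hd), Finset.sum_range, map_sum]
  rw [lin, map_sum]
  refine Finset.sum_congr rfl fun i _ => ?_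
  rw [C_mul', map_smul, Algebra.smul_def, map_mul, MvPolynomial.aeval_C,
    ← IsScalarTower.algebraMap_apply]
  rcases lt_or_ge i.1 p.natDegree with hi | hi
  · congr 1
    revert hi
    refine Fin.cases (fun _ => ?_) (fun i hi => ?_) i
    · simp [hX, h1]
    · simpa [hX, cw] using fun h => absurd hi (not_lt.2 h)
  · rw [coeff_eq_zero_of_natDegree_lt (hr.trans_le hi), map_zero, zero_mul, zero_mul]

theorem deg_lin {K : Type} [Field K] [Algebra k K] (a : k[X]) :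
    (lin s p K a).totalDegree ≤ 1 := by
  refine MvPolynomial.totalDegree_finsetSum_le fun i _ => (MvPolynomial.totalDegree_mul _ _).trans ?_
  rw [MvPolynomial.totalDegree_C, zero_add]
  refine Fin.cases ?_ (fun i => ?_) i <;> simp [hX]

variable (T j) in
/-- Standing hypotheses. -/
structure Hy (p : k[X]) (c : Ω) : Prop where
  irr : Irreducible p
  deg : p.natDegree ≤ s + 1
  lev : IsLevel k T j (Ideal.span {p}) c

theorem Hy.ne (H : Hy T j p c) : c ≠ 0 := lev_ne H.lev H.irr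

theorem Hy.mul (H : Hy T j p c) {b : k[X]} (hb : ¬ p ∣ b) : Hy T j p (orb k T j c b) :=
  ⟨H.irr, H.deg, lev_mul H.lev H.irr hb⟩

theorem Hy.sol (H : Hy T j p c) : Sol p (TT Ω T) (psi k T j c) (resc k j c) where
  one := by simp [psi_apply, H.ne]
  ker := fun a => by rw [psi_apply, div_eq_zero_iff, or_iff_left H.ne, lev_iff H.lev]
  eq := fun a => by
    have := H.ne
    simp only [psi_apply, map_mul, aeval_X, Module.End.mul_apply, phiT_apply, add_div,
      Finset.sum_div, mul_div_assoc, add_sub_cancel_left]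
    refine Finset.sum_congr rfl fun l _ => ?_
    rw [resc, div_pow, ← wt_succ, pow_succ c]
    field_simp

theorem Hy.psi_ne (H : Hy T j p c) {a : k[X]} (ha : ¬ p ∣ a) : psi k T j c a ≠ 0 :=
  (H.sol.ker a).not.2 ha

theorem Hy.psi_congr (H : Hy T j p c) {a b : k[X]} (h : p ∣ a - b) :
    psi k T j c a = psi k T j c b := by
  rw [← sub_eq_zero, ← map_sub, H.sol.ker]; exact h

theorem Hy.psi_C (H : Hy T j p c) (β : k) : psi k T j c (C β) = algebraMap k Ω β := by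
  rw [← mul_one (C β), C_mul', map_smul, H.sol.one, Algebra.smul_def, mul_one]

variable (T j) in
/-- The coordinates of the generic point. -/
noncomputable abbrev ww (p : k[X]) (c : Ω) : Fin s → Ω :=
  cw p.natDegree (psi k T j c) (resc k j c)

variable (T j) in
/-- The function field of `X_1(p)`. -/
noncomputable abbrev L1 (p : k[X]) (c : Ω) : IntermediateField (Fsep F Ω) Ω :=
  IntermediateField.adjoin (Fsep F Ω) (Set.range (ww T j p c))

variable (T j) in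
/-- The ring of the open part of `X_1(p)` where the point stays finite. -/
noncomputable def R1 (p : k[X]) (c : Ω) : Subring Ω :=
  locM (ww T j p c) {x | ∃ a, ¬ p ∣ a ∧ lin s p (Fsep F Ω) a = x}

theorem Hy.lin (H : Hy T j p c) (a : k[X]) :
    MvPolynomial.aeval (ww T j p c) (lin s p (Fsep F Ω) a) = psi k T j c a :=
  aeval_lin H.irr H.deg H.sol.one (fun a => (H.sol.ker a).2) _ a

theorem K_R {y : Ω} (hy : y ∈ Fsep F Ω) : y ∈ R1 T j p c := by
  simpa [R1] using aeval_mem_locM (v := ww T j p c) (MvPolynomial.C (⟨y, hy⟩ : Fsep F Ω))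

theorem T_K : TT Ω T ∈ Fsep F Ω := IntermediateField.algebraMap_mem _ T

theorem k_K (a : k) : algebraMap k Ω a ∈ Fsep F Ω := (algebraMap k (Fsep F Ω) a).2

theorem un_K {U : Subring Ω} (hK : ∀ y ∈ Fsep F Ω, y ∈ U) {y : Ω} (hy : y ∈ Fsep F Ω)
    (h0 : y ≠ 0) : Un U y := ⟨hK _ hy, hK _ (inv_mem hy), h0⟩

theorem Hy.psi_R (H : Hy T j p c) (a : k[X]) :
    psi k T j c a ∈ R1 T j p c ∧ (psi k T j c a)⁻¹ ∈ R1 T j p c := by
  refine ⟨H.lin a ▸ aeval_mem_locM _, ?_⟩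
  by_cases h : p ∣ a
  · rw [(H.sol.ker a).2 h, inv_zero]; exact zero_mem _
  · rw [← H.lin]
    exact inv_mem_locM ⟨a, h, rfl⟩ (by rw [H.lin]; exact H.psi_ne h)

theorem Hy.psi_un (H : Hy T j p c) {a : k[X]} (ha : ¬ p ∣ a) : Un (R1 T j p c) (psi k T j c a) :=
  ⟨(H.psi_R a).1, (H.psi_R a).2, H.psi_ne ha⟩

theorem cw_high (hp : Irreducible p) {ψ : k[X] →ₗ[k] Ω} {l : Fin (s + 1)}
    (hl : p.natDegree ≤ l.1) : ∃ i, i.succ = l ∧ ∀ z, cw p.natDegree ψ z i = z l := by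
  obtain ⟨i, rfl⟩ := Fin.exists_succ_eq.2 (show l ≠ 0 from fun e => by
    have := hp.natDegree_pos
    rw [e, Fin.val_zero] at hl
    omega)
  exact ⟨i, rfl, fun z => if_neg (not_lt.2 hl)⟩

theorem Hy.resc_R (H : Hy T j p c) (l : Fin (s + 1)) : resc k j c l ∈ R1 T j p c :=
  sol_mem H.irr H.sol (K_R T_K) H.psi_R (fun l hl => by
    obtain ⟨i, _, h⟩ := cw_high (ψ := psi k T j c) H.irr hl
    simpa [h, R1] using aeval_mem_locM (K := Fsep F Ω) (v := ww T j p c) (MvPolynomial.X i)) l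

theorem Hy.R_le (H : Hy T j p c) {U : Subring Ω} (hK : ∀ y ∈ Fsep F Ω, y ∈ U)
    (hψ : ∀ a, ¬ p ∣ a → Un U (psi k T j c a)) (hG : ∀ l, resc k j c l ∈ U) : R1 T j p c ≤ U := by
  refine locM_le (fun a => hK _ a.2) (fun i => ?_) ?_
  · simp only [cw]
    split_ifs
    · by_cases h : p ∣ X ^ (i.1 + 1)
      · rw [(H.sol.ker _).2 h]; exact zero_mem _
      · exact (hψ _ h).1
    · exact hG _
  · rintro _ ⟨a, ha, rfl⟩
    rw [H.lin]
    exact hψ a ha

theorem Hy.R_L (H : Hy T j p c) {z : Ω} (hz : z ∈ R1 T j p c) : z ∈ L1 T j p c :=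
  locM_le (U := (L1 T j p c).toSubring) (fun a => (L1 T j p c).algebraMap_mem a)
    (fun i => IntermediateField.subset_adjoin _ _ ⟨i, rfl⟩) (by
      rintro _ ⟨a, ha, rfl⟩
      exact ⟨aeval_mem_adjoin _, (L1 T j p c).inv_mem (aeval_mem_adjoin _), H.lin a ▸ H.psi_ne ha⟩) hz

theorem Hy.g_L (H : Hy T j p c) (l : Fin (s + 1)) : g Ω j l ∈ L1 T j p c := by
  rw [g_eq (k := k) H.ne l]
  exact div_mem (H.R_L (H.resc_R _)) (pow_mem (H.R_L (H.resc_R _)) _)

variable (T j) in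
/-- `σ` acts on the point as `b`, up to a constant. -/
def Acts (c : Ω) (σ : Ω ≃ₐ[E] Ω) (b : k[X]) : Prop :=
  ∃ β : k, β ≠ 0 ∧ σ c = algebraMap k Ω β * orb k T j c b

theorem orb_smul (β : k) (x : Ω) (a : k[X]) :
    orb k T j (algebraMap k Ω β * x) a = algebraMap k Ω β * orb k T j x a := by
  rw [orb_apply, orb_apply, ← Algebra.smul_def, map_smul, Algebra.smul_def]

theorem orb_orb (a b : k[X]) : orb k T j (orb k T j c b) a = orb k T j c (a * b) := by
  simp only [orb_apply, map_mul, Module.End.mul_apply]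

theorem map_orb (σ : Ω ≃ₐ[E] Ω) (a : k[X]) : σ (orb k T j c a) = orb k T j (σ c) a :=
  comm_phi σ a c

theorem Hy.orb_eq (H : Hy T j p c) (a : k[X]) : orb k T j c a = psi k T j c a * c :=
  (div_mul_cancel₀ _ H.ne).symm.trans (by rw [psi_apply]; rfl)

theorem pow_wt {β : k} (h : β ≠ 0) (l : Fin (s + 1)) : algebraMap k Ω β ^ wt k l = 1 := by
  rw [wt_eq, pow_mul, ← map_pow, wt, Fin.val_zero, zero_add, pow_one,
    FiniteField.pow_card_sub_one_eq_one β h, map_one, one_pow]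

variable {σ τ : Ω ≃ₐ[E] Ω} {b b' : k[X]}

theorem Hy.acts_psi (H : Hy T j p c) (h : Acts T j c σ b) (a : k[X]) :
    σ (psi k T j c a) = psi k T j c (a * b) / psi k T j c b := by
  obtain ⟨β, hβ, e⟩ := h
  rw [psi_apply, map_div₀, ← orb_apply, map_orb, e, orb_smul, orb_orb,
    mul_div_mul_left _ _ ((_root_.map_ne_zero _).2 hβ), H.orb_eq, H.orb_eq,
    mul_div_mul_right _ _ H.ne]

theorem Hy.acts_resc (H : Hy T j p c) (h : Acts T j c σ b) (l : Fin (s + 1)) :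
    σ (resc k j c l) = resc k j c l * psi k T j c b ^ wt k l := by
  obtain ⟨β, hβ, e⟩ := h
  rw [resc, map_mul, fix_g, map_pow, e, mul_pow, pow_wt hβ, H.orb_eq]
  ring

theorem Hy.acts_gal (H : Hy T j p c) (h : Acts T j c σ b) (hb : ¬ p ∣ b) : σ ∈ gal k T j c := by
  obtain ⟨β, hβ, e⟩ := h
  refine gal_of H.lev H.irr (b := C β * b) (fun h => (H.irr.prime.dvd_or_dvd h).elim
    (not_dvd_C H.irr hβ) hb) ?_
  rw [e, C_mul', ← orb_apply, map_smul, Algebra.smul_def]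

theorem Hy.gal_acts (H : Hy T j p c) (h : σ ∈ gal k T j c) : ∃ b, ¬ p ∣ b ∧ Acts T j c σ b := by
  obtain ⟨b, e⟩ := (mem_gal.1 h).le ⟨c, ⟨1, by simp⟩, rfl⟩
  exact ⟨b, fun hb => H.ne ((_root_.map_eq_zero σ).1 (e.symm.trans ((lev_iff H.lev b).2 hb))),
    1, one_ne_zero, by rw [map_one, one_mul]; exact e.symm⟩

theorem Acts.mul (h : Acts T j c σ b) (h' : Acts T j c τ b') : Acts T j c (σ * τ) (b' * b) := by
  obtain ⟨β, hβ, e⟩ := h
  obtain ⟨β', hβ', e'⟩ := h'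
  refine ⟨β' * β, mul_ne_zero hβ' hβ, ?_⟩
  rw [AlgEquiv.mul_apply, e', map_mul, fix_k F, map_orb, e, orb_smul, orb_orb,
    map_mul (algebraMap k Ω), mul_assoc]

theorem acts_one {β : k} (h : β ≠ 0) : Acts T j c 1 (C β) :=
  ⟨β⁻¹, inv_ne_zero h, by simp [orb_apply, Algebra.smul_def, h]⟩

theorem Acts.pow (h : Acts T j c σ b) (i : ℕ) : Acts T j c (σ ^ i) (b ^ i) := by
  induction i with
  | zero => simpa using acts_one (T := T) (j := j) (c := c) (one_ne_zero (α := k))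
  | succ i ih => rw [pow_succ σ, pow_succ' b]; exact ih.mul h

theorem Hy.acts_congr (H : Hy T j p c) (h : Acts T j c σ b) (e : p ∣ b - b') :
    Acts T j c σ b' := by
  rw [Acts, H.orb_eq, ← H.psi_congr e, ← H.orb_eq]
  exact h

theorem Hy.acts_ext (H : Hy T j p c) (h : Acts T j c σ b) (h' : Acts T j c τ b)
    (hK : ∀ y ∈ Fsep F Ω, σ y = τ y) {z : Ω} (hz : z ∈ L1 T j p c) : σ z = τ z := by
  let M : IntermediateField (Fsep F Ω) Ω := ((σ : Ω →+* Ω).eqLocusField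
    (τ : Ω →+* Ω)).toIntermediateField fun y => hK y.1 y.2
  refine (IntermediateField.adjoin_le_iff (T := M)).2 ?_ hz
  rintro _ ⟨i, rfl⟩
  change σ _ = τ _
  simp only [cw]
  split_ifs
  · rw [H.acts_psi h, H.acts_psi h']
  · rw [H.acts_resc h, H.acts_resc h']

theorem Hy.acts_of_pow (H : Hy T j p c) (hb : ¬ p ∣ b)
    (e : σ (resc k j c (0 : Fin (s + 1))) = resc k j (orb k T j c b) 0) : Acts T j c σ b := by
  have h0 := (H.mul hb).ne
  simp only [resc, g_zero, one_mul, map_pow] at e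
  obtain ⟨β, hβ⟩ := mem_of_pow_q (k := k) (b := σ c / orb k T j c b) (by
    have := wt_succ (k := k) (0 : Fin (s + 1))
    rw [Fin.val_zero, zero_add, pow_one] at this
    rw [← this, pow_succ, div_pow, e, div_self (pow_ne_zero _ h0), one_mul])
  refine ⟨β, fun e => ?_, by rw [hβ, div_mul_cancel₀ _ h0]⟩
  rw [e, map_zero] at hβ
  exact div_ne_zero ((_root_.map_ne_zero σ).2 H.ne) h0 hβ.symm

theorem Hy.map_R (H : Hy T j p c) (h : σ ∈ gal k T j c) {z : Ω} (hz : z ∈ R1 T j p c) :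
    σ z ∈ R1 T j p c := by
  obtain ⟨b, hb, h⟩ := H.gal_acts h
  refine H.R_le (U := (R1 T j p c).comap (σ : Ω →+* Ω)) (fun y hy => K_R (map_Fsep σ hy))
    (fun a ha => ?_) (fun l => ?_) hz
  · have : Un (R1 T j p c) (σ (psi k T j c a)) := by
      rw [H.acts_psi h]
      exact un_div (H.psi_un fun h => (H.irr.prime.dvd_or_dvd h).elim ha hb) (H.psi_un hb)
    exact ⟨this.1, by simpa using this.2.1, H.psi_ne ha⟩
  · change σ _ ∈ R1 T j p c
    rw [H.acts_resc h]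
    exact mul_mem (H.resc_R l) (pow_mem (H.psi_R b).1 _)

theorem Hy.map_un (H : Hy T j p c) (h : σ ∈ gal k T j c) {z : Ω} (hz : Un (R1 T j p c) z) :
    Un (R1 T j p c) (σ z) :=
  ⟨H.map_R h hz.1, by simpa using H.map_R h hz.2.1, (_root_.map_ne_zero σ).2 hz.2.2⟩

variable [IsSepClosure E Ω]

theorem Hy.sep (H : Hy T j p c) : Algebra.IsSeparable (L1 T j p c) Ω :=
  sep_of_gen (E := E) (jj Ω j) E_mem' _ fun i =>
    isSeparable_algebraMap (⟨jj Ω j i, H.g_L i.succ⟩ : L1 T j p c)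

theorem Hy.indep (H : Hy T j p c) : AlgebraicIndependent (Fsep F Ω) (ww T j p c) :=
  indep_of_sep (jj_indep (j := j)) H.sep

theorem Hy.lin_ne (H : Hy T j p c) :
    ∀ x ∈ {x | ∃ a, ¬ p ∣ a ∧ G.lin s p (Fsep F Ω) a = x}, x ≠ 0 ∧ x.totalDegree ≤ 1 := by
  rintro _ ⟨a, ha, rfl⟩
  exact ⟨fun e => H.psi_ne ha (by rw [← H.lin, e, map_zero]), deg_lin a⟩

theorem Hy.nrm (H : Hy T j p c) : Nrm (R1 T j p c) (L1 T j p c).toSubfield :=
  (locM_nrm H.indep fun x hx => (H.lin_ne x hx).1).1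

theorem Hy.ufd (H : Hy T j p c) : UniqueFactorizationMonoid (R1 T j p c) :=
  (locM_nrm H.indep fun x hx => (H.lin_ne x hx).1).2

theorem Hy.map_L (H : Hy T j p c) (h : σ ∈ gal k T j c) {z : Ω} (hz : z ∈ L1 T j p c) :
    σ z ∈ L1 T j p c := by
  obtain ⟨a, b, _, rfl⟩ := H.nrm.frac z hz
  rw [map_div₀]
  exact div_mem (H.R_L (H.map_R h a.2)) (H.R_L (H.map_R h b.2))

theorem Hy.le (H : Hy T j p c) {z : Ω} (hz : z ∈ funField k T j c) : z ∈ L1 T j p c := by
  have hj : IntermediateField.adjoin (Fsep F Ω) (Set.range (jj Ω j)) ≤ L1 T j p c :=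
    IntermediateField.adjoin_le_iff.2 (by
      rintro _ ⟨i, rfl⟩
      exact H.g_L i.succ)
  let M : IntermediateField E Ω :=
    (L1 T j p c).toSubfield.toIntermediateField fun e => hj (E_mem' e)
  change z ∈ M
  rw [← InfiniteGalois.fixedField_fixingSubgroup M, IntermediateField.mem_fixedField_iff]
  intro σ hσ
  rw [IntermediateField.mem_fixingSubgroup_iff] at hσ
  refine mem_funField.1 hz σ (H.acts_gal (H.acts_of_pow H.irr.not_dvd_one ?_) H.irr.not_dvd_one)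
    fun y hy => hσ y (H.R_L (K_R hy))
  rw [hσ _ (H.R_L (H.resc_R 0)), H.orb_eq, H.sol.one, one_mul]

theorem Hy.exists_acts (H : Hy T j p c) (hb : ¬ p ∣ b) (ρ : Fsep F Ω ≃ₐ[F] Fsep F Ω) :
    ∃ σ : Ω ≃ₐ[E] Ω, (∀ y : Fsep F Ω, σ y = ρ y) ∧ Acts T j c σ b := by
  have := IsSepClosure.sep_closed E (K := Ω)
  have H' := H.mul hb
  obtain ⟨τ, hτ⟩ := exists_tau H.indep H'.indep (ρ : Fsep F Ω →+* Fsep F Ω) H.sep
  have hK : ∀ y : Fsep F Ω, τ y = ρ y := fun y => by simpa using hτ (MvPolynomial.C y)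
  have hF : ∀ a : F, τ (algebraMap F Ω a) = algebraMap F Ω a := fun a =>
    (hK (algebraMap F _ a)).trans (congrArg Subtype.val (ρ.commutes a))
  have hψ : ∀ a, τ (psi k T j c a) = psi k T j (orb k T j c b) a := fun a => by
    rw [← H.lin, hτ, ← H'.lin]
    congr 1
    simp only [G.lin, map_sum, map_mul, MvPolynomial.map_C]
    refine Finset.sum_congr rfl fun i _ => ?_
    rw [IsScalarTower.algebraMap_apply k F (Fsep F Ω), RingHom.coe_coe, ρ.commutes]
    congr 1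
    refine Fin.cases ?_ (fun i => ?_) i <;> simp [hX]
  have hG : (fun l => τ (resc k j c l)) = resc k j (orb k T j c b) :=
    sol_uniq H.irr ⟨H'.sol.one, H'.sol.ker, fun a => by
      simpa [hψ, hF] using congrArg τ (H.sol.eq a)⟩ H'.sol fun l hl => by
      obtain ⟨i, _, h⟩ := cw_high (ψ := psi k T j c) H.irr hl
      obtain ⟨i', e, h'⟩ := cw_high (ψ := psi k T j (orb k T j c b)) H.irr hl
      obtain rfl : i = i' := Fin.succ_injective _ (by simp [*])
      simpa [h, h'] using hτ (MvPolynomial.X i)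
  have hE : ∀ e : E, τ (algebraMap E Ω e) = algebraMap E Ω e := fun e => by
    refine (IntermediateField.adjoin_le_iff (T := (τ.eqLocusField
      (RingHom.id Ω)).toIntermediateField hF)).2 ?_ (E_mem (j := j) e)
    rintro _ ⟨i, rfl⟩
    change τ (g Ω j i.succ) = g Ω j i.succ
    conv_lhs => rw [g_eq (k := k) H.ne]
    rw [map_div₀, map_pow, congrFun hG, congrFun hG, ← g_eq H'.ne]
  exact ⟨AlgEquiv.ofBijective (⟨τ, hE⟩ : Ω →ₐ[E] Ω) (AlgHom.normal_bijective E Ω Ω _), hK,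
    H.acts_of_pow hb (congrFun hG 0)⟩

variable (T j) in
/-- `σ` generates the Galois group of `X_1(p)` over `X_0(p)`. -/
structure Gn (p : k[X]) (c : Ω) (σ : Ω ≃ₐ[E] Ω) (b : k[X]) : Prop where
  fix : ∀ y ∈ Fsep F Ω, σ y = y
  nd : ¬ p ∣ b
  acts : Acts T j c σ b
  gen : ∀ a, ¬ p ∣ a → ∃ i : ℕ, p ∣ b ^ i - a
  one : p ∣ b ^ (Fintype.card k ^ p.natDegree - 1) - C 1
  ord : ∀ θ : Ω, aeval θ p = 0 → ∀ m : ℤ, aeval θ b ^ m = 1 →
    ((Fintype.card k ^ p.natDegree - 1 : ℕ) : ℤ) ∣ m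

theorem Hy.exists_gn (H : Hy T j p c) : ∃ σ b, Gn T j p c σ b := by
  classical
  have := Fact.mk H.irr
  have := fin_root H.irr
  have := Fintype.ofFinite (AdjoinRoot p)
  obtain ⟨γ, hγ⟩ := IsCyclic.exists_monoid_generator (α := (AdjoinRoot p)ˣ)
  have ho := orderOf_eq_card_of_forall_mem_powers hγ
  rw [Nat.card_eq_fintype_card, Fintype.card_units, card_root H.irr] at ho
  obtain ⟨b, hb⟩ := AdjoinRoot.mk_surjective (g := p) γ
  have h1 : ¬ p ∣ b := fun h => γ.ne_zero (hb ▸ AdjoinRoot.mk_eq_zero.2 h)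
  obtain ⟨σ, h2, h3⟩ := H.exists_acts h1 AlgEquiv.refl
  refine ⟨σ, b, fun y hy => h2 ⟨y, hy⟩, h1, h3, fun a ha => ?_, ?_, fun θ hθ m hm => ?_⟩
  · obtain ⟨i, hi⟩ := hγ (Units.mk0 _ (AdjoinRoot.mk_eq_zero.not.2 ha))
    exact ⟨i, AdjoinRoot.mk_eq_mk.1 (by simpa [hb] using congrArg Units.val hi)⟩
  · refine AdjoinRoot.mk_eq_mk.1 ?_
    simpa [hb, ho] using congrArg Units.val (pow_orderOf_eq_one γ)
  · let ψ := AdjoinRoot.liftAlgHom p (Algebra.ofId k Ω) θ hθ
    have e : aeval θ b = ψ γ := by rw [← hb]; rfl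
    rw [← ho, orderOf_dvd_iff_zpow_eq_one]
    refine Units.ext (ψ.toRingHom.injective ?_)
    rw [e, ← map_zpow₀] at hm
    simpa using hm

theorem fix_pow (i : ℕ) {y : Ω} (hy : σ y = y) : (σ ^ i) y = y := by
  induction i with
  | zero => rfl
  | succ i ih => rw [pow_succ, AlgEquiv.mul_apply, hy, ih]

theorem Hy.inv (H : Hy T j p c) (h : Gn T j p c σ b) {z : Ω} (hz : z ∈ L1 T j p c)
    (e : σ z = z) : z ∈ funField k T j c := by
  refine mem_funField.2 fun τ hτ hK => ?_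
  obtain ⟨b', hb', h'⟩ := H.gal_acts hτ
  obtain ⟨i, hi⟩ := h.gen b' hb'
  rw [H.acts_ext h' (H.acts_congr (h.acts.pow i) hi)
    (fun y hy => by rw [hK y hy, fix_pow i (h.fix y hy)]) hz, fix_pow i e]

theorem Hy.triv (H : Hy T j p c) (h : Gn T j p c σ b) {i : ℕ} {β : k} (hβ : β ≠ 0)
    (hi : p ∣ b ^ i - C β) {z : Ω} (hz : z ∈ L1 T j p c) : (σ ^ i) z = z :=
  H.acts_ext (H.acts_congr (h.acts.pow i) hi) (acts_one hβ)
    (fun y hy => fix_pow i (h.fix y hy)) hz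

theorem Hy.fix_L (H : Hy T j p c) (h : Gn T j p c σ b) {z : Ω} (hz : z ∈ funField k T j c) :
    σ z = z := mem_funField.1 hz σ (H.acts_gal h.acts h.nd) h.fix

end Pool.Agent.P.MP_7c5a52_nt.X
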