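import Pool.Agent.P.MP_7c5a52_nt.X.Coh

/-! Prime divisors of `X_0^r(p)` and prime divisors of the ring of `Y_1(p)`. -/

open Polynomial

set_option linter.unusedSectionVars false

namespace Pool.Agent.P.MP_7c5a52_nt.X

open G

variable {k F E Ω : Type} [Field k] [Fintype k] [Field F] [Field E] [Field Ω] [Algebra k Ω]
  [Algebra F Ω] [Algebra E Ω] {T : F} {s : ℕ} {j : Fin s → E} [Algebra k F] [Algebra F E]
  [IsScalarTower F E Ω] [IsScalarTower k F Ω] [GenJ F j] [GenT k T] {p : k[X]} {c : Ω}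
  [IsSepClosure E Ω] {i : Fin (s + 1)} {V W U : Subring Ω}

theorem mono_pow {a : Fin (s + 1) → ℕ} {m : ℕ} (h : ∑ l, a l * wt k l = m * wt k i) :
    ((∏ l, g Ω j l ^ a l) / g Ω j i ^ m) ^ wt k i = ∏ l, YY k Ω j i l ^ a l := by
  simp only [YY, div_pow, Finset.prod_div_distrib, ← pow_mul, ← Finset.prod_pow,
    Finset.prod_pow_eq_pow_sum, mul_comm (wt k _)]
  rw [h]

theorem Hy.chart (H : Hy T j p c) (i : Fin (s + 1)) :
    Nrm (chart k T j c i) (funField k T j c).toSubfield ∧ ∀ P : Ideal (chart k T j c i), P.IsPrime →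
      P.height = 1 → ∀ (a b : Fin s) (x y : chart k T j c i), a ≠ b →
      (x : Ω) = YY k Ω j i (i.succAbove a) →
      (y : Ω) = YY k Ω j i (i.succAbove b) → x ∈ P → y ∈ P → False := by
  let v : Fin s → Ω := fun l => YY k Ω j i (i.succAbove l)
  let A := Algebra.adjoin (Fsep F Ω) (Set.range v)
  let N := IntermediateField.adjoin (Fsep F Ω) (Set.range v)
  have hY : ∀ l, YY k Ω j i l ∈ A := fun l => by
    rcases eq_or_ne l i with rfl | h
    · rw [YY_self F]; exact one_mem _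
    · obtain ⟨l, rfl⟩ := Fin.exists_succAbove_eq h
      exact Algebra.subset_adjoin ⟨l, rfl⟩
  have hYN : ∀ l, YY k Ω j i l ∈ N := fun l => IntermediateField.algebra_adjoin_le_adjoin _ _ (hY l)
  have hsep : Algebra.IsSeparable N Ω := sep_of_gen (E := E) (jj Ω j) E_mem' _ fun l => by
    refine sep_of_pow_mem (n := wt k i * wt k (0 : Fin (s + 1)))
      (by rw [Nat.cast_mul]; exact mul_ne_zero (wt_cast i) (wt_cast 0)) (g_ne F _) ?_
    have : jj Ω j l ^ (wt k i * wt k (0 : Fin (s + 1))) =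
        YY k Ω j i l.succ ^ wt k (0 : Fin (s + 1)) / YY k Ω j i 0 ^ wt k l.succ := by
      have := g_ne F (Ω := Ω) (j := j) i
      simp only [YY, g_zero, jj, div_pow, one_pow, ← pow_mul, mul_comm (wt k (0 : Fin (s + 1)))]
      field_simp
    rw [this]
    exact div_mem (pow_mem (hYN _) _) (pow_mem (hYN _) _)
  refine chart_nrm v (indep_of_sep (jj_indep (j := j)) hsep) hsep _ (fun a => K_fun a.2)
    (fun l => (base_le i (YY_mem i _)).2) (ww T j p c) (fun z hz => H.le hz) _ fun z => ?_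
  rw [mem_chart, integral_iff (A := A)]
  · rfl
  · let B : Subalgebra (Fsep F Ω) Ω :=
      { chartBase k F Ω j i with algebraMap_mem' := fun a => K_mem i a.2 }
    exact Algebra.adjoin_le (S := B) (by rintro _ ⟨l, rfl⟩; exact YY_mem i _)
  · refine (Subring.closure_le (t := (integralClosure A Ω).toSubring)).2 ?_
    rintro _ (h | ⟨a, m, h, rfl⟩)
    · exact isIntegral_algebraMap (x := (⟨_, A.algebraMap_mem ⟨_, h⟩⟩ : A))
    · refine IsIntegral.of_pow (Nat.pos_of_ne_zero (wt_ne (k := k) i)) ?_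
      rw [mono_pow h]
      have hm : ∏ l, YY k Ω j i l ^ a l ∈ A := prod_mem fun l _ => pow_mem (hY l) _
      exact isIntegral_algebraMap (x := (⟨_, hm⟩ : A))

theorem Hy.dvr (H : Hy T j p c) (hV : V ∈ primeDiv k T j c) : IsDiscreteValuationRing V := by
  obtain ⟨i, P, hP, h1, hV⟩ := hV
  exact (H.chart i).1.dvr hP h1 hV

theorem Hy.ord (H : Hy T j p c) (hV : V ∈ primeDiv k T j c) {u : Ω} (hu : u ∈ funField k T j c)
    (h0 : u ≠ 0) : ∃ n, IsOrd V u n := by
  obtain ⟨i, P, hP, h1, hV⟩ := hV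
  exact (H.chart i).1.exists_ord hP h1 hV hu h0

theorem Hy.icl (H : Hy T j p c) (hV : V ∈ primeDiv k T j c) :
    ICl V (funField k T j c).toSubfield ∧ V ≤ (funField k T j c).toSubring ∧
      ∀ y ∈ Fsep F Ω, y ∈ V := by
  obtain ⟨i, P, hP, h1, hV⟩ := hV
  exact ⟨loc_icl (H.chart i).1 hP hV, loc_le (H.chart i).1 hV,
    fun y hy => IsLoc.le hP hV (base_le i (K_mem i hy))⟩

theorem chart_le {L : Subfield Ω} (h : ICl U L) (hL : ∀ z ∈ funField k T j c, z ∈ L)
    (hK : ∀ y ∈ Fsep F Ω, y ∈ U) (hY : ∀ l, YY k Ω j i l ∈ U) : chart k T j c i ≤ U := by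
  refine fun z hz => h.of_int (Subring.closure_le.2 ?_) (hL z hz.2) hz.1
  rintro _ (h1 | ⟨a, m, h1, rfl⟩)
  · exact hK _ h1
  · refine h.of_pow (hL _ (base_le (T := T) (c := c) i
      (Subring.subset_closure (.inr ⟨a, m, h1, rfl⟩))).2) (wt_ne (k := k) i) ?_
    rw [mono_pow h1]
    exact prod_mem fun l _ => pow_mem (hY l) _

theorem YY_resc {x : Ω} (hx : x ≠ 0) (i l : Fin (s + 1)) :
    YY k Ω j i l = resc k j x l ^ wt k i / resc k j x i ^ wt k l := by
  rw [YY, ← prod_single (g Ω j), mono_resc hx _ _ _ (YY_sum i l), prod_single]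

theorem Hy.exists_big (H : Hy T j p c) {W : ValuationSubring Ω} (hK : ∀ y ∈ Fsep F Ω, y ∈ W) :
    ∃ l : Fin (s + 1), 1 ≤ W.valuation (resc k j c l) := by
  by_contra! hn
  have hT : ∀ a : k[X], aeval (TT Ω T) a ∈ Fsep F Ω := fun a => by
    rw [TT, aeval_algebraMap_apply]; exact IntermediateField.algebraMap_mem _ _
  have le1 := fun y hy => (W.valuation_le_one_iff y).2 (hK y hy)
  have key : ∀ a : k[X], W.valuation (psi k T j c a - aeval (TT Ω T) a) < 1 := fun a => by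
    induction a using Polynomial.induction_on with
    | C a => simp [H.psi_C]
    | add a b ha hb =>
      rw [map_add, map_add, add_sub_add_comm]
      exact W.valuation.map_add_lt ha hb
    | monomial n a ih =>
      rw [pow_succ', mul_left_comm]
      generalize C a * X ^ n = a at *
      have h1 : W.valuation (psi k T j c a) ≤ 1 := by
        rw [← sub_add_cancel (psi k T j c a) (aeval (TT Ω T) a)]
        exact W.valuation.map_add_le ih.le (le1 _ (hT a))
      rw [sub_eq_iff_eq_add.1 (H.sol.eq a).symm, map_mul, aeval_X, add_sub_assoc, ← mul_sub]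
      refine W.valuation.map_add_lt (W.valuation.map_sum_lt one_ne_zero fun l _ => ?_) ?_
      · rw [map_mul, map_pow]
        exact mul_lt_one_of_lt_of_le (hn l) (pow_le_one₀ zero_le h1)
      · rw [map_mul, mul_comm]
        exact mul_lt_one_of_lt_of_le ih (le1 _ T_K)
  have := key p
  rw [(H.sol.ker p).2 dvd_rfl, zero_sub, Valuation.map_neg,
    val_un le_rfl (un_K (U := W.toSubring) hK (hT p) (aeval_TT H.irr.ne_zero))] at this
  exact lt_irrefl _ this

variable (F) in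
include F in
theorem val_YY {W : ValuationSubring Ω} {x : Ω} (hx : x ≠ 0) {l : Fin (s + 1)}
    (hY : YY k Ω j i l ∈ W) :
    W.valuation (resc k j x l) ^ wt k i ≤ W.valuation (resc k j x i) ^ wt k l := by
  have := (W.valuation_le_one_iff _).2 hY
  rwa [YY_resc hx, map_div₀, map_pow, map_pow, div_le_one₀ (pow_pos (zero_lt_iff.2
    ((_root_.map_ne_zero _).2 (resc_ne F hx i))) _)] at this

theorem Hy.big (H : Hy T j p c) {W : ValuationSubring Ω} (hK : ∀ y ∈ Fsep F Ω, y ∈ W)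
    (hY : ∀ l, YY k Ω j i l ∈ W) : 1 ≤ W.valuation (resc k j c i) := by
  obtain ⟨l, hl⟩ := H.exists_big hK
  exact (one_le_pow_iff (wt_ne l)).1 ((one_le_pow₀ hl).trans (val_YY F H.ne (hY l)))

variable [DecidableEq Ω] {Cs : Finset Ω}

variable (T j) in
/-- `Cs` is the cyclic submodule. -/
structure Hz (p : k[X]) (c : Ω) (Cs : Finset Ω) : Prop extends Hy T j p c where
  card : Cs.card = Fintype.card k ^ p.natDegree
  mem : ∀ y, y ∈ Cs ↔ ∃ a, orb k T j c a = y

variable (k j) in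
/-- The function whose poles are where the cyclic submodule degenerates. -/
noncomputable def eta (Cs : Finset Ω) (i : Fin (s + 1)) : Ω := ∏ y ∈ Cs.erase 0, resc k j y i

theorem Hz.mem' (H : Hz T j p c Cs) {y : Ω} :
    y ∈ Cs.erase 0 ↔ ∃ a, ¬ p ∣ a ∧ orb k T j c a = y := by
  rw [Finset.mem_erase, H.mem]
  exact ⟨fun ⟨h, a, e⟩ => ⟨a, (lev_iff H.lev a).not.1 (e ▸ h :), e⟩,
    fun ⟨a, h, e⟩ => ⟨e ▸ (lev_iff H.lev a).not.2 h, a, e⟩⟩

theorem Hz.card' (H : Hz T j p c Cs) : (Cs.erase 0).card = Fintype.card k ^ p.natDegree - 1 := by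
  rw [Finset.card_erase_of_mem ((H.mem 0).2 ⟨0, map_zero _⟩), H.card]

theorem Hz.eta_eq (H : Hz T j p c Cs) (i : Fin (s + 1)) : eta k j Cs i =
    g Ω j i ^ (Fintype.card k ^ p.natDegree - 1) * (∏ y ∈ Cs.erase 0, y) ^ wt k i := by
  simp only [eta, resc, Finset.prod_mul_distrib, Finset.prod_const, Finset.prod_pow, H.card']

theorem Hz.eta_fun (H : Hz T j p c Cs) : eta k j Cs i ∈ funField k T j c :=
  H.eta_eq i ▸ mul_mem (pow_mem (g_fun i) _) (pow_mem (h_mem H.mem) _)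

theorem Hz.eta_ne (H : Hz T j p c Cs) : eta k j Cs i ≠ 0 :=
  H.eta_eq i ▸ mul_ne_zero (pow_ne_zero _ (g_ne F i)) (pow_ne_zero _ h_ne)

theorem Hy.resc_orb (H : Hy T j p c) (a : k[X]) (l : Fin (s + 1)) :
    resc k j (orb k T j c a) l = resc k j c l * psi k T j c a ^ wt k l := by
  rw [resc, resc, H.orb_eq]; ring

theorem Hz.eta_un (H : Hz T j p c Cs) :
    Un (R1 T j p c) (eta k j Cs i / resc k j c i ^ (Fintype.card k ^ p.natDegree - 1)) := by
  rw [eta, ← H.card', ← Finset.prod_const, ← Finset.prod_div_distrib]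
  refine un_prod fun y hy => ?_
  obtain ⟨a, ha, rfl⟩ := H.mem'.1 hy
  rw [H.resc_orb, mul_div_cancel_left₀ _ (resc_ne F H.ne i)]
  exact (H.psi_un ha).pow _

theorem Hz.eta_R (H : Hz T j p c Cs) : eta k j Cs i ∈ R1 T j p c := by
  have := mul_mem (H.eta_un (i := i)).1
    (pow_mem (H.resc_R i) (Fintype.card k ^ p.natDegree - 1))
  rwa [div_mul_cancel₀ _ (pow_ne_zero _ (resc_ne F H.ne i))] at this

theorem Hz.big' (H : Hz T j p c Cs) {W : ValuationSubring Ω} (hK : ∀ y ∈ Fsep F Ω, y ∈ W)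
    (hY : ∀ l, YY k Ω j i l ∈ W) {y : Ω} (hy : y ∈ Cs.erase 0) :
    1 ≤ W.valuation (resc k j y i) := by
  obtain ⟨a, ha, rfl⟩ := H.mem'.1 hy
  exact (H.mul ha).big hK hY

theorem Hz.eta_inv (H : Hz T j p c Cs) : (eta k j Cs i)⁻¹ ∈ chart k T j c i := by
  refine ⟨int_of_val fun W hW => (W.valuation_le_one_iff _).1 ?_,
    (funField k T j c).inv_mem H.eta_fun⟩
  rw [map_inv₀, eta, map_prod]
  exact inv_le_one_of_one_le₀ (Finset.one_le_prod' fun y hy =>
    H.big' (fun y hy => hW (K_mem i hy)) (fun l => hW (YY_mem i l)) hy)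

theorem Hz.R_val (H : Hz T j p c Cs) {W : ValuationSubring Ω} (hK : ∀ y ∈ Fsep F Ω, y ∈ W)
    (hY : ∀ l, YY k Ω j i l ∈ W) (he : eta k j Cs i ∈ W) :
    R1 T j p c ≤ W.toSubring ∧ W.valuation (resc k j c i) = 1 := by
  have h1 : ∀ y ∈ Cs.erase 0, W.valuation (resc k j y i) = 1 := fun y hy => by
    refine le_antisymm (le_trans ?_ ((W.valuation_le_one_iff _).2 he)) (H.big' hK hY hy)
    rw [eta, map_prod]
    exact Finset.single_le_prod' (f := fun y => W.valuation (resc k j y i))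
      (fun y hy => H.big' hK hY hy) hy
  have h2 := h1 c (H.mem'.2 ⟨1, H.irr.not_dvd_one, by simp [orb_apply]⟩)
  refine ⟨H.R_le hK (fun a ha => ?_) fun l => (W.valuation_le_one_iff _).1 ?_, h2⟩
  · have h3 := h1 _ (H.mem'.2 ⟨a, ha, rfl⟩)
    rw [H.resc_orb, map_mul, h2, one_mul, map_pow] at h3
    have h4 : W.valuation (psi k T j c a) = 1 := le_antisymm
      ((pow_le_one_iff (wt_ne i)).1 h3.le) ((one_le_pow_iff (wt_ne i)).1 h3.ge)
    exact ⟨(W.valuation_le_one_iff _).1 h4.le, (W.valuation_le_one_iff _).1 (by simp [h4]),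
      H.psi_ne ha⟩
  · have := val_YY F H.ne (hY l)
    rwa [h2, one_pow, pow_le_one_iff (wt_ne i)] at this

theorem Hy.chart_W (H : Hy T j p c) (hU : ICl U (L1 T j p c).toSubfield) (hR : R1 T j p c ≤ U)
    (h : Un U (resc k j c i)) : MP_7c5a52_nt.chart k T j c i ≤ U :=
  chart_le hU (fun _ => H.le) (fun _ hy => hR (K_R hy)) fun l => by
    rw [YY_resc H.ne, div_eq_mul_inv]
    exact mul_mem (pow_mem (hR (H.resc_R l)) _) (h.pow _).2.1

/-- Prime divisors along which the cyclic submodule stays finite come from `Y_1(p)`. -/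
theorem Hz.up (H : Hz T j p c Cs) (hV : V ∈ htOneLocs (chart k T j c i)) (he : eta k j Cs i ∈ V) :
    ∃ W ∈ htOneLocs (R1 T j p c), W ⊓ (funField k T j c).toSubring = V := by
  obtain ⟨P, hP, h1, hV⟩ := hV
  obtain ⟨W, hW, hc⟩ := exists_center P hP
  have hW' : chart k T j c i ≤ W.toSubring := fun z hz => hW ⟨z, hz⟩
  obtain ⟨h2, h3⟩ := H.R_val (W := W) (fun y hy => hW' (base_le i (K_mem i hy)))
    (fun l => hW' (base_le i (YY_mem i l))) ((loc_val hP hV hW' hc).1 he)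
  exact transfer (H.chart i).1 H.nrm hP h1 hV hW' hc h2 fun U a b d =>
    H.chart_W a b (d _ (b (H.resc_R i)) h3)

theorem Hy.map_W (H : Hy T j p c) {σ : Ω ≃ₐ[E] Ω} (hσ : σ ∈ gal k T j c)
    (hW : W ∈ htOneLocs (R1 T j p c)) : W.map (σ : Ω →+* Ω) ∈ htOneLocs (R1 T j p c) :=
  map_ht σ (fun _ => H.map_R hσ) (fun _ => H.map_R (inv_mem hσ)) hW

theorem map_inf {σ : Ω ≃ₐ[E] Ω} (hσ : σ ∈ gal k T j c) (W : Subring Ω) :
    (W ⊓ (funField k T j c).toSubring).map (σ : Ω →+* Ω) =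
      W.map (σ : Ω →+* Ω) ⊓ (funField k T j c).toSubring := by
  ext z
  rw [Subring.mem_inf, mem_map, mem_map, Subring.mem_inf]
  exact and_congr_right fun _ => ⟨fun h => by simpa using map_funField hσ h,
    map_funField (inv_mem hσ)⟩

theorem map_self {σ : Ω ≃ₐ[E] Ω} (hσ : σ ∈ gal k T j c) (hK : ∀ y ∈ Fsep F Ω, σ y = y)
    (hV : V ≤ (funField k T j c).toSubring) : V.map (σ : Ω →+* Ω) = V := by
  have := fun z hz => mem_funField.1 (hV hz : z ∈ _) σ hσ hK
  exact le_antisymm (by rintro _ ⟨z, hz, rfl⟩; exact (this z hz).symm ▸ hz)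
    fun z hz => ⟨z, hz, this z hz⟩

theorem Hy.W_icl (H : Hy T j p c) (hW : W ∈ htOneLocs (R1 T j p c)) :
    ICl W (L1 T j p c).toSubfield := by
  obtain ⟨P, hP, _, hW⟩ := hW
  exact loc_icl H.nrm hP hW

theorem Hy.exists_un (H : Hy T j p c) (hW : W ∈ htOneLocs (R1 T j p c)) :
    ∃ l : Fin (s + 1), Un W (resc k j c l) := by
  obtain ⟨P, hP, _, hW⟩ := hW
  obtain ⟨W', hW', hc⟩ := exists_center P hP
  obtain ⟨l, hl⟩ := H.exists_big (W := W') fun y hy => hW' ⟨y, K_R hy⟩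
  exact ⟨l, IsLoc.un hP hW (y := ⟨_, H.resc_R l⟩) ((hc _).not.1 (not_lt.2 hl))⟩

/-- Prime divisors of `Y_1(p)` lie above prime divisors. -/
theorem Hz.down (H : Hz T j p c Cs) (hW : W ∈ htOneLocs (R1 T j p c))
    (h : Un W (resc k j c i)) : W ⊓ (funField k T j c).toSubring ∈ htOneLocs (chart k T j c i) := by
  have := H.ufd
  obtain ⟨π, hπ, hπW⟩ := ht_gen hW
  obtain ⟨σ, b, hσ⟩ := H.exists_gn
  have hg := H.acts_gal hσ.acts hσ.nd
  obtain ⟨P, hP, _, hW1⟩ := id hW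
  obtain ⟨W', hW', hc⟩ := exists_center P hP
  obtain ⟨w1, w2⟩ := loc_val hP hW1 (fun z hz => hW' ⟨z, hz⟩) hc
  have hB := (H.chart_W (H.W_icl hW) (ht_le hW) h).trans w1
  obtain ⟨Q, hQ, hcQ⟩ := exists_ctr W' hB
  obtain ⟨U, hU⟩ := exists_isLoc Q hQ
  obtain ⟨u1, u2⟩ := loc_val hQ hU hB hcQ
  have he : eta k j Cs i ∈ U := by
    have h1 := (un_mono (H.eta_un (i := i)) (ht_le hW)).mul (h.pow (Fintype.card k ^ p.natDegree - 1))
    rw [div_mul_cancel₀ _ (pow_ne_zero _ h.2.2)] at h1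
    simpa using (u2 _ (hU.le hQ H.eta_inv) (val_un w1 h1.inv)).2.1
  obtain ⟨M, hM⟩ : ∃ M, Fintype.card k ^ p.natDegree - 1 = M + 1 := Nat.exists_eq_succ_of_ne_zero
    (Nat.sub_ne_zero_of_lt (Nat.one_lt_pow H.irr.natDegree_pos.ne' Fintype.one_lt_card))
  have hπ0 := irr_ne_zero hπ.irreducible
  have hn : ∀ n, (σ ^ n) π ∈ R1 T j p c := fun n => H.map_R (pow_mem hg n) π.2
  have hnR : ∏ n ∈ Finset.range (M + 1), (σ ^ n) π ∈ R1 T j p c := prod_mem fun n _ => hn n
  have hnL : ∏ n ∈ Finset.range (M + 1), (σ ^ n) π ∈ funField k T j c := by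
    refine H.inv hσ (H.R_L hnR) ?_
    rw [map_prod, Finset.prod_range_succ, Finset.prod_range_succ']
    simp only [← AlgEquiv.mul_apply, ← pow_succ']
    rw [H.triv hσ (i := M + 1) one_ne_zero (hM ▸ hσ.one) (H.R_L π.2)]
    rfl
  obtain ⟨V, hV, h2, h3⟩ := exists_ht (H.chart i).1.noeth hQ hU
    (loc_icl (H.chart i).1 hQ hU _ hnL (int_of_val fun W hW =>
      (H.R_val (fun y hy => hW (hU.le hQ (base_le i (K_mem i hy))))
        (fun l => hW (hU.le hQ (base_le i (YY_mem i l)))) (hW he)).1 hnR))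
    (Finset.prod_ne_zero_iff.2 fun n _ => (_root_.map_ne_zero _).2 hπ0) fun hu => hπW (by
      have := w2 _ (ht_le hW hnR) (val_un u1 hu)
      rw [Finset.prod_range_succ', mul_comm] at this
      exact un_of_mul (ht_le hW π.2) (ht_le hW (prod_mem fun n _ => hn _)) this)
  obtain ⟨W2, hW2, rfl⟩ := H.up hV (h2 he)
  obtain ⟨n, h4⟩ : ∃ n, ¬ Un W2 ((σ ^ n) π) := by
    by_contra! h4
    have := un_prod (t := Finset.range (M + 1)) fun n _ => h4 n
    exact h3 ⟨⟨this.1, hnL⟩, ⟨this.2.1, (funField k T j c).inv_mem hnL⟩, this.2.2⟩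
  have hg' := inv_mem (pow_mem hg n)
  rw [ht_uniq hπ hW (H.map_W hg' hW2) hπW fun h5 => h4 ?_, ← map_inf hg', map_self hg' (fun y hy =>
    (σ ^ n).symm_apply_eq.2 (fix_pow n (hσ.fix y hy)).symm) inf_le_right]
  · exact hV
  · exact ⟨(mem_map _).1 h5.1, by simpa using (mem_map _).1 h5.2.1, (_root_.map_ne_zero _).2 hπ0⟩

theorem Hz.down' (H : Hz T j p c Cs) (hW : W ∈ htOneLocs (R1 T j p c)) :
    W ⊓ (funField k T j c).toSubring ∈ primeDiv k T j c :=
  (H.exists_un hW).imp fun _ => H.down hW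

/-- Functions that are regular everywhere are constant. -/
theorem Hy.const (H : Hy T j p c) {f : Ω} (hf : f ∈ funField k T j c)
    (h : ∀ V ∈ primeDiv k T j c, f ∈ V) : IsAlgebraic (Fsep F Ω) f := by
  have := IsSepClosure.sep_closed E (K := Ω)
  refine IsIntegral.isAlgebraic (int_of_val (U := (Fsep F Ω).toSubring) fun W hW => ?_ :)
  choose x hx using fun l : Fin (s + 1) =>
    have := NeZero.mk (wt_cast (k := k) (Ω := Ω) l)
    IsSepClosed.exists_pow_nat_eq (g Ω j l) (wt k l)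
  obtain ⟨i, hi⟩ := Finite.exists_max fun l => W.valuation (x l)
  refine chart_le (T := T) (c := c) (i := i) (val_icl W ⊤) (fun _ _ => trivial) hW (fun l => ?_)
    ((H.chart i).1.hartogs hf fun P V a b d => h V ⟨i, P, a, b, d⟩)
  refine (W.valuation_le_one_iff _).1 ?_
  rw [YY, map_div₀, ← hx, ← hx, ← pow_mul, ← pow_mul, mul_comm, map_pow, map_pow]
  exact div_le_one_of_le₀ (pow_le_pow_left₀ zero_le (hi l) _) zero_le

theorem Hy.const_un (H : Hy T j p c) {f : Ω} (hf : f ∈ funField k T j c) (h0 : f ≠ 0)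
    (h : ∀ V ∈ primeDiv k T j c, f ∈ V) (hV : V ∈ primeDiv k T j c) : Un V f :=
  ⟨h V hV, (H.icl hV).1.of_int (S := (Fsep F Ω).toSubring) (H.icl hV).2.2 (inv_mem hf)
    ((H.const hf h).inv.isIntegral :), h0⟩

end Pool.Agent.P.MP_7c5a52_nt.X
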