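import Pool.Agent.P.MP_7c5a52_nt.X.B

/-! Functions on `X_1(p)` whose divisor comes from a rational class on `X_0(p)`. -/

open Polynomial

set_option linter.unusedSectionVars false

namespace Pool.Agent.P.MP_7c5a52_nt.X

open G

section
variable {K Ω : Type} [Field K] [Field Ω] [Algebra K Ω] {s : ℕ} {v P : Fin s → Ω}

theorem val_zpow {z t : Ω} (h : Val K v P z t) (hz : z ≠ 0) (ht : t ≠ 0) (n : ℤ) :
    Val K v P (z ^ n) (t ^ n) := by
  obtain ⟨m, rfl | rfl⟩ := n.eq_nat_or_neg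
  · simpa using h.pow m
  · simpa using (h.inv hz ht).pow m

theorem val_sum {ι : Type} (t : Finset ι) {f g : ι → Ω} (h : ∀ i, Val K v P (f i) (g i)) :
    Val K v P (∑ i ∈ t, f i) (∑ i ∈ t, g i) := by
  classical
  induction t using Finset.induction_on with
  | empty => simpa using Val.const (v := v) (P := P) (0 : K)
  | insert i t hi ih => rw [Finset.sum_insert hi, Finset.sum_insert hi]; exact (h i).add ih

end

theorem root_unity {k F : Type} [Field k] [Field F] [Algebra k F] {T : F}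
    (hT : Transcendental k T) (hF : IntermediateField.adjoin k {T} = ⊤) {x : F} {n : ℕ}
    (hn : n ≠ 0) (h : x ^ n = 1) : ∃ β : k, algebraMap k F β = x := by
  obtain ⟨a, b, rfl⟩ := (IntermediateField.mem_adjoin_simple_iff k x).1
    (hF ▸ IntermediateField.mem_top)
  have hb : aeval T b ≠ 0 := fun e => by simp [e, hn] at h
  rw [div_pow, div_eq_one_iff_eq (pow_ne_zero _ hb), ← map_pow, ← map_pow] at h
  have e := (transcendental_iff_injective.1 hT) h
  obtain ⟨u, rfl⟩ := associated_of_dvd_dvd ((IsIntegrallyClosed.pow_dvd_pow_iff hn).1 e.symm.dvd)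
    ((IsIntegrallyClosed.pow_dvd_pow_iff hn).1 e.dvd)
  obtain ⟨β, _, hβ⟩ := Polynomial.isUnit_iff.1 u.isUnit
  exact ⟨β, by rw [map_mul, ← hβ, aeval_C, mul_div_cancel_left₀ _ hb]⟩

variable {k F E Ω : Type} [Field k] [Fintype k] [Field F] [Field E] [Field Ω] [Algebra k Ω]
  [Algebra F Ω] [Algebra E Ω] {T : F} {s : ℕ} {j : Fin s → E} [Algebra k F] [Algebra F E]
  [IsScalarTower F E Ω] [IsScalarTower k F Ω] [GenJ F j] [GenT k T] {p : k[X]} {c θ : Ω}
  [IsSepClosure E Ω] {σ τ : Ω ≃ₐ[E] Ω} {b b' : k[X]} {z : Fin (s + 1) → Ω}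

attribute [local instance] tower

/-- The points above which the group action has fixed points. -/
noncomputable abbrev pt (p : k[X]) (θ : Ω) (z : Fin (s + 1) → Ω) : Fin s → Ω :=
  cw p.natDegree (aeval (R := k) θ).toLinearMap z

theorem Hy.exists_root (H : Hy T j p c) : ∃ θ : Ω, aeval θ p = 0 :=
  have := IsSepClosure.sep_closed E (K := Ω)
  IsSepClosed.exists_aeval_eq_zero (K := Ω) p (degree_ne_of_natDegree_ne (n := 0)
    H.irr.natDegree_pos.ne') (PerfectField.separable_of_irreducible H.irr)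

theorem Hy.val_psi (H : Hy T j p c) (hθ : aeval θ p = 0) (a : k[X]) :
    Val (Fsep F Ω) (ww T j p c) (pt p θ z) (psi k T j c a) (aeval θ a) := by
  have := Val.poly (v := ww T j p c) (P := pt p θ z) (G.lin s p (Fsep F Ω) a)
  rwa [H.lin, aeval_lin H.irr H.deg (map_one (aeval θ)) fun a => (root_iff H.irr hθ a).2] at this

theorem Hy.R_O (H : Hy T j p c) (hθ : aeval θ p = 0) :
    R1 T j p c ≤ locO (Fsep F Ω) (ww T j p c) (pt p θ z) :=
  locM_le (fun a => ⟨_, Val.const a⟩)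
    (fun i => by simpa using aeval_mem_locO (K := Fsep F Ω) (MvPolynomial.X i)) (by
      rintro _ ⟨a, ha, rfl⟩
      rw [H.lin]
      exact (H.val_psi hθ a).un (H.psi_ne ha) ((root_iff H.irr hθ a).not.2 ha))

theorem Hy.eigen (H : Hy T j p c) (hθ : aeval θ p = 0) (hK : ∀ y ∈ Fsep F Ω, σ y = y)
    (h : Acts T j c σ b) (hb : ¬ p ∣ b)
    (hz : ∀ l, p.natDegree ≤ l.1 → z l * aeval θ b ^ wt k l = z l) {w B β : Ω}
    (hw : Un (locO (Fsep F Ω) (ww T j p c) (pt p θ z)) w)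
    (hB : Val (Fsep F Ω) (ww T j p c) (pt p θ z) B β) (e : σ w = B * w) : β = 1 := by
  refine locO_eigen H.indep (σ : Ω →+* Ω) (fun a => hK _ a.2) (fun i => ?_) hw hB e
  have h0 := (root_iff H.irr hθ b).not.2 hb
  have h1 := Val.poly (v := ww T j p c) (P := pt p θ z) (MvPolynomial.X (R := Fsep F Ω) i)
  simp only [MvPolynomial.aeval_X, cw, RingHom.coe_coe] at h1 ⊢
  split_ifs at h1 ⊢ with hi
  · have := (H.val_psi (z := z) hθ (X ^ (i.1 + 1) * b)).mul
      ((H.val_psi hθ b).inv (H.psi_ne hb) h0)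
    rwa [map_mul (aeval θ), mul_inv_cancel_right₀ h0, ← div_eq_mul_inv, ← H.acts_psi h] at this
  · have := h1.mul ((H.val_psi hθ b).pow (wt k i.succ))
    rwa [hz _ (not_lt.1 hi), ← H.acts_resc h] at this

theorem Hy.nd_pow (H : Hy T j p c) (hb : ¬ p ∣ b) (i : ℕ) : ¬ p ∣ b ^ i := fun h =>
  hb (H.irr.prime.dvd_of_dvd_pow h)

theorem Hy.eig (H : Hy T j p c) (hθ : aeval θ p = 0) {i : ℕ}
    (hz : ∀ l, z l ≠ 0 → Fintype.card k ^ p.natDegree - 1 ∣ i * wt k l) {m : ℤ} {u : Ω}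
    (hu : u ∈ funField k T j c) (hw : Un (locO (Fsep F Ω) (ww T j p c) (pt p θ z))
      (resc k j c (0 : Fin (s + 1)) ^ m * u)) :
    ((Fintype.card k ^ p.natDegree - 1 : ℕ) : ℤ) ∣ i * wt k (0 : Fin (s + 1)) * m := by
  obtain ⟨σ, b, h⟩ := H.exists_gn
  have hb := H.nd_pow h.nd i
  have h1 : aeval θ b ^ (Fintype.card k ^ p.natDegree - 1) = 1 := by
    simpa [sub_eq_zero] using (root_iff H.irr hθ _).2 h.one
  have := H.eigen hθ (fun y hy => fix_pow i (h.fix y hy)) (h.acts.pow i) hb (fun l _ => by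
      by_cases h0 : z l = 0
      · rw [h0, zero_mul]
      · obtain ⟨n, hn⟩ := hz l h0
        rw [map_pow, ← pow_mul, hn, pow_mul, h1, one_pow, mul_one]) hw
    (val_zpow ((H.val_psi hθ (b ^ i)).pow (wt k (0 : Fin (s + 1))))
      (pow_ne_zero _ (H.psi_ne hb)) (pow_ne_zero _ ((root_iff H.irr hθ _).not.2 hb)) m) (by
      rw [map_mul, map_zpow₀, H.acts_resc (h.acts.pow i), fix_pow i (H.fix_L h hu), mul_zpow]
      ring)
  refine h.ord θ hθ _ ?_
  rwa [map_pow, ← pow_mul, ← zpow_natCast, ← zpow_mul, Nat.cast_mul] at this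

theorem Hy.un_last (H : Hy T j p c) (hθ : aeval θ p = 0) :
    Un (locO (Fsep F Ω) (ww T j p c) (pt p θ (Pi.single (Fin.last s) 1)))
      (resc k j c (Fin.last s)) := by
  rcases H.deg.lt_or_eq with hd | hd
  · obtain ⟨i, _, h⟩ := cw_high (ψ := psi k T j c) (l := Fin.last s) H.irr (Nat.le_of_lt_succ hd)
    obtain ⟨i', e, h'⟩ := cw_high (ψ := (aeval θ).toLinearMap) (l := Fin.last s) H.irr
      (Nat.le_of_lt_succ hd)
    obtain rfl : i = i' := Fin.succ_injective _ (by simp [*])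
    have := Val.poly (v := ww T j p c) (P := pt p θ (Pi.single (Fin.last s) 1))
      (MvPolynomial.X (R := Fsep F Ω) i)
    simp only [MvPolynomial.aeval_X, h, h', Pi.single_eq_same] at this
    exact this.un (resc_ne F H.ne _) one_ne_zero
  · choose G hG using fun l => H.R_O (z := Pi.single (Fin.last s) 1) hθ (H.resc_R l)
    have S := sol_ell H.irr hd hθ (TT Ω T)
    have e := sol_uniq H.irr (G := G) ⟨S.one, S.ker, fun a => by
      have h1 := val_sum Finset.univ fun l => (hG l).mul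
        ((H.val_psi hθ a).pow (Fintype.card k ^ (l.1 + 1)))
      have h2 := (H.val_psi (z := Pi.single (Fin.last s) 1) hθ (X * a)).add
        ((Val.const (-⟨_, T_K (T := T)⟩ : Fsep F Ω)).mul (H.val_psi hθ a))
      rw [H.sol.eq, sub_eq_add_neg, ← neg_mul] at h1
      exact (h1.unique H.indep h2).trans (by simp [sub_eq_add_neg])⟩ S
      fun l hl => absurd l.2 (by omega)
    refine (hG _).un (resc_ne F H.ne _) ?_
    rw [e, Pi.single_eq_same]
    exact fun e => aeval_TT H.irr.ne_zero (sub_eq_zero.1 e ▸ hθ)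

theorem Hy.cob_psi (H : Hy T j p c) (h : Gn T j p c σ b) (i : ℕ) :
    ∃ U, Un (R1 T j p c) U ∧ psi k T j c (b ^ i) = psi k T j c b ^ i * (σ U / U) := by
  induction i with
  | zero => exact ⟨1, un_one, by simp [H.sol.one]⟩
  | succ i ih =>
    obtain ⟨U, hU, e⟩ := ih
    have h1 := H.psi_un (H.nd_pow h.nd i)
    refine ⟨U * psi k T j c (b ^ i), hU.mul h1, ?_⟩
    have := H.psi_ne h.nd
    have := h1.2.2
    rw [map_mul, H.acts_psi h.acts, mul_div_mul_comm, ← mul_assoc, pow_succ' (psi k T j c b),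
      mul_assoc (psi k T j c b), ← e, pow_succ]
    field_simp

theorem Hy.cob (H : Hy T j p c) (h : Gn T j p c σ b) {w : Ω} (hw : Un (R1 T j p c) w) :
    ∃ κ ∈ Fsep F Ω, κ ≠ 0 ∧ ∃ (n : ℤ) (U : Ω), Un (R1 T j p c) U ∧
      w = κ * psi k T j c b ^ n * (σ U / U) := by
  have h0 := H.psi_ne h.nd
  refine locM_un (H := fun w => ∃ κ ∈ Fsep F Ω, κ ≠ 0 ∧ ∃ (n : ℤ) (U : Ω), Un (R1 T j p c) U ∧
    w = κ * psi k T j c b ^ n * (σ U / U)) H.indep H.lin_ne ?_ ?_ ?_ ?_ ?_ hw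
  · rintro _ _ ⟨κ, h1, h2, n, U, h3, rfl⟩ ⟨κ', h1', h2', n', U', h3', rfl⟩
    exact ⟨_, mul_mem h1 h1', mul_ne_zero h2 h2', n + n', _, h3.mul h3', by
      rw [zpow_add₀ h0, map_mul]; ring⟩
  · rintro _ ⟨κ, h1, h2, n, U, h3, rfl⟩
    exact ⟨_, inv_mem h1, inv_ne_zero h2, -n, _, h3.inv, by
      rw [zpow_neg, map_inv₀, inv_div_inv, mul_inv, mul_inv, inv_div]⟩
  · exact fun a ha => ⟨a, a.2, fun e => ha (Subtype.ext e), 0, 1, un_one, by simp⟩
  · rintro _ ⟨κ, _, h2, n, U, h3, rfl⟩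
    exact mul_ne_zero (mul_ne_zero h2 (zpow_ne_zero _ h0))
      (div_ne_zero ((_root_.map_ne_zero σ).2 h3.2.2) h3.2.2)
  · rintro _ ⟨a, ha, rfl⟩
    obtain ⟨i, hi⟩ := h.gen a ha
    obtain ⟨U, hU, e⟩ := H.cob_psi h i
    exact ⟨1, one_mem _, one_ne_zero, i, U, hU, by
      rw [H.lin, ← H.psi_congr hi, e, one_mul, zpow_natCast]⟩

theorem Hy.iter (H : Hy T j p c) (h : Gn T j p c σ b) {κ f : Ω} {n : ℤ} (hκ : σ κ = κ)
    (hf : f ∈ L1 T j p c) (h0 : f ≠ 0) (e : σ f = κ * psi k T j c b ^ n * f) {i : ℕ} {β : k}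
    (hβ : β ≠ 0) (hi : p ∣ b ^ i - C β) : κ ^ i * algebraMap k Ω β ^ n = 1 := by
  have key : ∀ i : ℕ, (σ ^ i) f = κ ^ i * psi k T j c (b ^ i) ^ n * f := fun i => by
    induction i with
    | zero => simp [H.sol.one]
    | succ i ih =>
      have := zpow_ne_zero n (H.psi_ne h.nd)
      rw [pow_succ' σ, AlgEquiv.mul_apply, ih, map_mul, map_mul, map_pow, map_zpow₀, hκ, e,
        H.acts_psi h.acts, div_zpow, pow_succ b, pow_succ κ]
      field_simp
  have := key i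
  rw [H.triv h hβ hi hf, H.psi_congr hi, H.psi_C] at this
  exact mul_right_cancel₀ h0 (this.symm.trans (one_mul f).symm)

/-- The cohomological computation. -/
theorem Hy.coh (H : Hy T j p c) (hF : IntermediateField.adjoin k {T} = ⊤) {f : Ω}
    (hf : f ∈ L1 T j p c) (h0 : f ≠ 0)
    (h1 : ∀ σ ∈ gal k T j c, (∀ y ∈ Fsep F Ω, σ y = y) → Un (R1 T j p c) (σ f / f))
    (h2 : ∀ ρ : Fsep F Ω ≃ₐ[F] Fsep F Ω, ∃ τ ∈ gal k T j c, (∀ y : Fsep F Ω, τ y = ρ y) ∧
      ∃ u ∈ funField k T j c, u ≠ 0 ∧ Un (R1 T j p c) (τ f / (f * u))) :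
    ∃ (m : ℤ) (u : Ω), u ∈ funField k T j c ∧ u ≠ 0 ∧
      Un (R1 T j p c) (f / (resc k j c (0 : Fin (s + 1)) ^ m * u)) := by
  have := IsSepClosure.sep_closed E (K := Ω)
  obtain ⟨σ, b, h⟩ := H.exists_gn
  obtain ⟨θ, hθ⟩ := H.exists_root
  have hw := H.psi_ne h.nd
  have hσ := H.acts_gal h.acts h.nd
  have red : ∀ {f U B : Ω}, f ≠ 0 → Un (R1 T j p c) U → σ f / f = B * (σ U / U) →
      σ (f / U) = B * (f / U) := fun {f U B} h0 hU e => by
    have := (_root_.map_ne_zero σ).2 hU.2.2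
    rw [map_div₀, (div_eq_iff h0).1 e]
    field_simp
  obtain ⟨κ, hκ, hκ0, n, U, hU, e⟩ := H.cob h (h1 σ hσ h.fix)
  have e1 := red h0 hU e
  have hf1 : f / U ∈ L1 T j p c := div_mem hf (H.R_L hU.1)
  have h01 : f / U ≠ 0 := div_ne_zero h0 hU.2.2
  obtain ⟨κ', hκ'⟩ := (InfiniteGalois.mem_range_algebraMap_iff_fixed (k := F)
      (⟨κ, hκ⟩ : Fsep F Ω)).2 fun ρ => by
    obtain ⟨τ, hτ, hK, u, hu, hu0, hV⟩ := h2 ρ
    obtain ⟨b', hb', h'⟩ := H.gal_acts hτ
    have hV' : Un (R1 T j p c) (τ (f / U) / (f / U * u)) := by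
      convert hV.mul (un_div hU (H.map_un hτ hU)) using 1
      rw [map_div₀]
      field_simp
    have e2 := H.acts_ext (h.acts.mul h') (H.acts_congr (h'.mul h.acts) (by
      rw [mul_comm, sub_self]; exact dvd_zero _)) (fun y hy => by
      rw [AlgEquiv.mul_apply, AlgEquiv.mul_apply, h.fix y hy, h.fix _ (map_Fsep τ hy)]) hf1
    generalize f / U = f1 at *
    obtain ⟨V, e3⟩ : ∃ V, V = τ f1 / (f1 * u) := ⟨_, rfl⟩
    rw [← e3] at hV'
    rw [eq_div_iff (mul_ne_zero h01 hu0)] at e3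
    simp only [AlgEquiv.mul_apply, e1, ← e3, map_mul, map_zpow₀, H.fix_L h hu,
      H.acts_psi h'] at e2
    have a1 := zpow_ne_zero n hw
    have a2 := zpow_ne_zero n (H.psi_ne hb')
    have a3 := zpow_ne_zero n (H.psi_ne fun h3 => (H.irr.prime.dvd_or_dvd h3).elim h.nd hb')
    have := H.eigen (z := 0) hθ h.fix h.acts h.nd (fun _ _ => zero_mul _)
      (un_mono (un_div hV' ((H.psi_un hb').zpow n)) (H.R_O hθ))
      (Val.const (⟨τ κ / κ, div_mem (map_Fsep τ hκ) hκ⟩ : Fsep F Ω)) (by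
        rw [map_div₀, map_zpow₀, H.acts_psi h.acts, mul_comm b', div_zpow]
        rw [div_zpow] at e2
        change _ = τ κ / κ * _
        field_simp at e2 ⊢
        exact e2)
    exact Subtype.ext ((hK _).symm.trans ((div_eq_one_iff_eq hκ0).1 this))
  obtain rfl : algebraMap F Ω κ' = κ := congrArg Subtype.val hκ'
  have e4 := H.iter h (h.fix _ hκ) hf1 h01 e1 one_ne_zero h.one
  rw [map_one, one_zpow, mul_one, ← map_pow, ← map_one (algebraMap F Ω)] at e4
  obtain ⟨β, rfl⟩ := root_unity GenT.tr hF (Nat.sub_ne_zero_of_lt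
    (Nat.one_lt_pow H.irr.natDegree_pos.ne' Fintype.one_lt_card)) ((algebraMap F Ω).injective e4)
  rw [← IsScalarTower.algebraMap_apply] at e1 hκ0
  obtain ⟨i, hi⟩ := h.gen _ (not_dvd_C H.irr ((_root_.map_ne_zero _).1 hκ0))
  obtain ⟨U', hU', e5⟩ := H.cob_psi h i
  have e6 := red (B := 1 * psi k T j c b ^ (n + i)) h01 hU' (by
    rw [e1, mul_div_cancel_right₀ _ h01, ← H.psi_C, ← H.psi_congr hi, e5, zpow_add₀ hw,
      zpow_natCast]
    ring)
  have hf2 : f / U / U' ∈ L1 T j p c := div_mem hf1 (H.R_L hU'.1)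
  have h02 := div_ne_zero h01 hU'.2.2
  obtain ⟨m, hm⟩ : (wt k (0 : Fin (s + 1)) : ℤ) ∣ n + i := by
    classical
    obtain ⟨γ, hγ⟩ := IsCyclic.exists_ofOrder_eq_natCard (α := kˣ)
    obtain ⟨i', hi'⟩ := h.gen _ (not_dvd_C H.irr γ.ne_zero)
    have := H.iter h (map_one σ) hf2 h02 e6 γ.ne_zero hi'
    rw [wt, Fin.val_zero, zero_add, pow_one, ← Fintype.card_units, ← Nat.card_eq_fintype_card,
      ← hγ, orderOf_dvd_iff_zpow_eq_one]
    exact Units.ext ((algebraMap k Ω).injective (by simpa using this))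
  have hG := zpow_ne_zero m (resc_ne F (k := k) (j := j) H.ne 0)
  refine ⟨m, f / U / U' / resc k j c (0 : Fin (s + 1)) ^ m, H.inv h
    (div_mem hf2 (zpow_mem (H.R_L (H.resc_R 0)) m)) ?_, div_ne_zero h02 hG, ?_⟩
  · have := zpow_ne_zero (n + i) hw
    rw [map_div₀, e6, map_zpow₀, H.acts_resc h.acts, mul_zpow, ← zpow_natCast, ← zpow_mul, ← hm]
    field_simp
  · convert hU.mul hU' using 1
    field_simp

end Pool.Agent.P.MP_7c5a52_nt.X
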