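import Pool.Agent.P.MP_7c5a52_nt.X.Inf

/-! Divisors on `X_0^r(p)` and functions on `X_1^r(p)`. -/

open Polynomial

set_option linter.unusedSectionVars false

namespace Pool.Agent.P.MP_7c5a52_nt.X

open G

variable {k F E Ω : Type} [Field k] [Fintype k] [Field F] [Field E] [Field Ω] [Algebra k Ω]
  [Algebra F Ω] [Algebra E Ω] {T : F} {s : ℕ} {j : Fin s → E} [Algebra k F] [Algebra F E]
  [IsScalarTower F E Ω] [IsScalarTower k F Ω] [GenJ F j] [GenT k T] {p : k[X]} {c : Ω}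
  [IsSepClosure E Ω] {V W : Subring Ω} [DecidableEq Ω] {Cs : Finset Ω} {u f f' : Ω}
  {n n' : Subring Ω → ℤ} {D D' : WDiv (primeDiv k T j c)} {σ : Ω ≃ₐ[E] Ω}

variable (T j c) in
/-- The class map. -/
noncomputable abbrev cl : WDiv (primeDiv k T j c) →ₗ[ℤ] Cl k T j c :=
  (prin (funField k T j c).toSubfield (primeDiv k T j c)).mkQ

theorem div_ext (h : ∀ V ∈ primeDiv k T j c, D.1 V = D'.1 V) : D = D' :=
  Subtype.ext (Finsupp.ext fun V => by
    by_cases hV : V ∈ primeDiv k T j c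
    · exact h V hV
    · rw [(Finsupp.mem_supported' _ _).1 D.2 V hV, (Finsupp.mem_supported' _ _).1 D'.2 V hV])

theorem Hy.mk_div (H : Hy T j p c) (hu : u ∈ funField k T j c) (h0 : u ≠ 0)
    (h : ∀ V ∈ primeDiv k T j c, Un V u → n V = 0) :
    ∃ D : WDiv (primeDiv k T j c), ∀ V ∈ primeDiv k T j c, D.1 V = n V := by
  classical
  let n' : Subring Ω → ℤ := fun V => if V ∈ primeDiv k T j c then n V else 0
  have hfin : n'.support.Finite := by
    refine (Set.finite_iUnion fun i => (H.chart i).1.finite hu h0).subset fun V hV => ?_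
    have hV1 : V ∈ primeDiv k T j c := by_contra fun h => hV (if_neg h)
    obtain ⟨i, hi⟩ := id hV1
    exact Set.mem_iUnion.2 ⟨i, hi, fun hu => hV ((if_pos hV1).trans (h V hV1 hu))⟩
  exact ⟨⟨Finsupp.ofSupportFinite n' hfin, (Finsupp.mem_supported' _ _).2 fun V hV => if_neg hV⟩,
    fun V hV => if_pos hV⟩

theorem Hy.exists_div (H : Hy T j p c) (hu : u ∈ funField k T j c) (h0 : u ≠ 0) :
    ∃ D : WDiv (primeDiv k T j c), ∀ V ∈ primeDiv k T j c, IsOrd V u (D.1 V) := by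
  choose! o ho using fun V hV => H.ord (V := V) hV hu h0
  obtain ⟨D, hD⟩ := H.mk_div (n := o) hu h0 fun V hV h =>
    have := H.dvr hV
    (ho V hV).unique (isOrd_zero_iff.2 h)
  exact ⟨D, fun V hV => hD V hV ▸ ho V hV⟩

theorem cl_zero (hu : u ∈ funField k T j c) (h0 : u ≠ 0)
    (h : ∀ V ∈ primeDiv k T j c, IsOrd V u (D.1 V)) : cl T j c D = 0 :=
  (Submodule.Quotient.mk_eq_zero _).2 (Submodule.subset_span ⟨u, hu, h0, h⟩)

theorem Hy.of_cl (H : Hy T j p c) (hD : cl T j c D = 0) :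
    ∃ u ∈ funField k T j c, u ≠ 0 ∧ ∀ V ∈ primeDiv k T j c, IsOrd V u (D.1 V) := by
  replace hD := (Submodule.Quotient.mk_eq_zero _).1 hD
  induction hD using Submodule.span_induction with
  | mem D h => exact h
  | zero =>
    refine ⟨1, one_mem _, one_ne_zero, fun V hV => ?_⟩
    have := H.dvr hV
    exact isOrd_zero_iff.2 un_one
  | add D D' _ _ h h' =>
    obtain ⟨u, h1, h2, h3⟩ := h
    obtain ⟨u', h1', h2', h3'⟩ := h'
    refine ⟨u * u', mul_mem h1 h1', mul_ne_zero h2 h2', fun V hV => ?_⟩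
    have := H.dvr hV
    exact (h3 V hV).mul (h3' V hV)
  | smul a D _ h =>
    obtain ⟨u, h1, h2, h3⟩ := h
    refine ⟨u ^ a, zpow_mem h1 a, zpow_ne_zero a h2, fun V hV => ?_⟩
    have := H.dvr hV
    exact (h3 V hV).zpow a

theorem map_inj (σ : Ω ≃ₐ[E] Ω) : Function.Injective (Subring.map (σ : Ω →+* Ω)) := fun _ _ e =>
  SetLike.coe_injective (σ.injective.image_injective (congrArg SetLike.coe e))

theorem map_map_inv (σ : Ω ≃ₐ[E] Ω) (V : Subring Ω) :
    (V.map ((σ⁻¹ : Ω ≃ₐ[E] Ω) : Ω →+* Ω)).map (σ : Ω →+* Ω) = V :=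
  Subring.ext fun z => by simp

theorem Hy.rational (H : Hy T j p c) {h : Ω} (hh : ∀ σ ∈ gal k T j c, σ h = h) {m : ℤ}
    (hm : m ≠ 0) (hD : ∀ V ∈ primeDiv k T j c, IsOrd V h (m * D.1 V)) :
    IsRational k T j (cl T j c D) := by
  intro ρ
  obtain ⟨σ, hK, ha⟩ := H.exists_acts H.irr.not_dvd_one ρ
  have hσ := H.acts_gal ha H.irr.not_dvd_one
  refine ⟨σ, hσ, hK, D, D, rfl, rfl, Finsupp.ext fun V => ?_⟩
  have hVe := map_map_inv σ V
  have h4 : D.1.mapDomain (Subring.map (σ : Ω →+* Ω)) V =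
      D.1 (V.map ((σ⁻¹ : Ω ≃ₐ[E] Ω) : Ω →+* Ω)) := by
    conv_lhs => rw [← hVe]
    exact Finsupp.mapDomain_apply (map_inj σ) _ _
  rw [h4]
  by_cases hV : V ∈ primeDiv k T j c
  · have := H.dvr hV
    have h1 := (hD _ (map_primeDiv (inv_mem hσ) hV)).map (σ : Ω →+* Ω)
    rw [hVe, RingHom.coe_coe, hh σ hσ] at h1
    exact mul_left_cancel₀ hm ((hD V hV).unique h1)
  · rw [(Finsupp.mem_supported' _ _).1 D.2 V hV, (Finsupp.mem_supported' _ _).1 D.2 _
      fun h => hV (hVe ▸ map_primeDiv hσ h)]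

theorem mem_span_iff {x : Cl k T j c} : x ∈ AddSubgroup.closure (cuspClasses k T j c) ↔
    ∃ D : WDiv (primeDiv k T j c), cl T j c D = x ∧ ∀ V, V ∉ cusps k T j c → D.1 V = 0 := by
  classical
  constructor
  · intro h
    induction h using AddSubgroup.closure_induction with
    | mem x h =>
      obtain ⟨V, hV, D, e, rfl⟩ := h
      exact ⟨D, rfl, fun V' hV' => e ▸ Finsupp.single_eq_of_ne fun e => hV' (e ▸ hV)⟩
    | zero => exact ⟨0, rfl, fun _ _ => rfl⟩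
    | add x y _ _ h h' =>
      obtain ⟨D, rfl, h⟩ := h
      obtain ⟨D', rfl, h'⟩ := h'
      exact ⟨D + D', rfl, fun V hV => by simp [h V hV, h' V hV]⟩
    | neg x _ h =>
      obtain ⟨D, rfl, h⟩ := h
      exact ⟨-D, rfl, fun V hV => by simp [h V hV]⟩
  · rintro ⟨D, rfl, h⟩
    have hc : ∀ V : D.1.support, V.1 ∈ cusps k T j c := fun V =>
      by_contra fun hV => Finsupp.mem_support_iff.1 V.2 (h V hV)
    let sg : D.1.support → WDiv (primeDiv k T j c) := fun V =>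
      ⟨Finsupp.single V 1, Finsupp.single_mem_supported ℤ 1 (hc V).1⟩
    have e : D = ∑ V, D.1 V.1 • sg V := Subtype.ext (by
      simp only [sg, Submodule.coe_sum, Submodule.coe_smul, Finsupp.smul_single, smul_eq_mul,
        mul_one]
      rw [Finset.sum_coe_sort D.1.support fun V => Finsupp.single V (D.1 V)]
      exact (Finsupp.sum_single D.1).symm)
    rw [e, map_sum]
    refine sum_mem fun V _ => ?_
    rw [map_zsmul]
    refine zsmul_mem (AddSubgroup.subset_closure ?_) _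
    exact ⟨V, hc V, sg V, rfl, rfl⟩

variable (T j) in
/-- The divisor of `f` on `Y_1(p)` is the pull-back of `n`. -/
def Rel (p : k[X]) (c f : Ω) (n : Subring Ω → ℤ) : Prop :=
  f ∈ L1 T j p c ∧ f ≠ 0 ∧ ∀ W ∈ htOneLocs (R1 T j p c), ∃ u ∈ funField k T j c,
    IsOrd (W ⊓ (funField k T j c).toSubring) u (n (W ⊓ (funField k T j c).toSubring)) ∧
      Un W (f / u)

theorem un_inf (hu : u ∈ funField k T j c) (h : Un W u) :
    Un (W ⊓ (funField k T j c).toSubring) u :=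
  ⟨⟨h.1, hu⟩, ⟨h.2.1, (funField k T j c).inv_mem hu⟩, h.2.2⟩

theorem Hz.rel_mul (H : Hz T j p c Cs) (h : Rel T j p c f n) (h' : Rel T j p c f' n') :
    Rel T j p c (f * f') (n + n') := by
  refine ⟨mul_mem h.1 h'.1, mul_ne_zero h.2.1 h'.2.1, fun W hW => ?_⟩
  obtain ⟨u, a, b, d⟩ := h.2.2 W hW
  obtain ⟨u', a', b', d'⟩ := h'.2.2 W hW
  have := H.dvr (H.down' hW)
  exact ⟨u * u', mul_mem a a', b.mul b', mul_div_mul_comm f f' u u' ▸ d.mul d'⟩

theorem Hz.rel_zpow (H : Hz T j p c Cs) (h : Rel T j p c f n) (m : ℤ) :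
    Rel T j p c (f ^ m) (m • n) := by
  refine ⟨zpow_mem h.1 m, zpow_ne_zero m h.2.1, fun W hW => ?_⟩
  obtain ⟨u, a, b, d⟩ := h.2.2 W hW
  have := H.dvr (H.down' hW)
  exact ⟨u ^ m, zpow_mem a m, b.zpow m, div_zpow f u m ▸ d.zpow m⟩

theorem Hz.rel_div (H : Hz T j p c Cs) (hu : u ∈ funField k T j c) (h0 : u ≠ 0)
    (h : ∀ V ∈ primeDiv k T j c, IsOrd V u (n V)) : Rel T j p c u n :=
  ⟨H.le hu, h0, fun _ hW => ⟨u, hu, h _ (H.down' hW), by rw [div_self h0]; exact un_one⟩⟩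

theorem Rel.congr (h : Rel T j p c f n) (e : ∀ W ∈ htOneLocs (R1 T j p c),
    n (W ⊓ (funField k T j c).toSubring) = n' (W ⊓ (funField k T j c).toSubring)) :
    Rel T j p c f n' := ⟨h.1, h.2.1, fun W hW => e W hW ▸ h.2.2 W hW⟩

theorem Hz.rel_un (H : Hz T j p c Cs) (h : Rel T j p c f n) (h' : Rel T j p c f' n) :
    Un (R1 T j p c) (f / f') := by
  refine ht_un H.nrm (div_mem h.1 h'.1) (div_ne_zero h.2.1 h'.2.1) fun W hW => ?_
  obtain ⟨u, a, b, d⟩ := h.2.2 W hW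
  obtain ⟨u', a', b', d'⟩ := h'.2.2 W hW
  have := H.dvr (H.down' hW)
  have := ord_ne b
  have := ord_ne b'
  convert un_div (d.mul (un_mono (un_ord b' b) inf_le_left)) d' using 1
  field_simp

theorem Hz.rel_of_un (H : Hz T j p c Cs) (h : Rel T j p c f n) (h' : Un (R1 T j p c) (f / f')) :
    Rel T j p c f' n := by
  have h0 : f' ≠ 0 := fun e => h'.2.2 (by rw [e, div_zero])
  have := h.2.1
  refine ⟨by simpa [this] using div_mem h.1 (H.R_L h'.1), h0, fun W hW => ?_⟩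
  obtain ⟨u, a, b, d⟩ := h.2.2 W hW
  refine ⟨u, a, b, ?_⟩
  convert un_div d (un_mono h' (ht_le hW)) using 1
  field_simp

theorem Hz.rel_ord (H : Hz T j p c Cs) (h : Rel T j p c f n) (hf : f ∈ funField k T j c)
    (hW : W ∈ htOneLocs (R1 T j p c)) :
    IsOrd (W ⊓ (funField k T j c).toSubring) f (n (W ⊓ (funField k T j c).toSubring)) := by
  obtain ⟨u, a, b, d⟩ := h.2.2 W hW
  have := H.dvr (H.down' hW)
  exact ord_un b (un_inf (div_mem hf a) d)

theorem Hz.rel_zero (H : Hz T j p c Cs) (h : Rel T j p c f n) (hW : W ∈ htOneLocs (R1 T j p c)) :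
    Un W f ↔ n (W ⊓ (funField k T j c).toSubring) = 0 := by
  obtain ⟨u, a, b, d⟩ := h.2.2 W hW
  have := H.dvr (H.down' hW)
  refine ⟨fun h1 => b.unique (isOrd_zero_iff.2 (un_inf a ?_)), fun e => ?_⟩
  · simpa [h.2.1] using un_div h1 d
  · have := d.mul (un_mono (isOrd_zero_iff.1 (e ▸ b)) inf_le_left)
    rwa [div_mul_cancel₀ _ (ord_ne b)] at this

theorem Hz.rel_map (H : Hz T j p c Cs) (hσ : σ ∈ gal k T j c) (h : Rel T j p c f n)
    (e : ∀ V ∈ primeDiv k T j c, n' (V.map (σ : Ω →+* Ω)) = n V) : Rel T j p c (σ f) n' := by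
  refine ⟨H.map_L hσ h.1, (_root_.map_ne_zero σ).2 h.2.1, fun W hW => ?_⟩
  have hW' := H.map_W (inv_mem hσ) hW
  obtain ⟨u, a, b, d⟩ := h.2.2 _ hW'
  have b' := b.map (σ : Ω →+* Ω)
  have d' := un_map d (σ : Ω →+* Ω)
  rw [← e _ (H.down' hW'), map_inf hσ, map_map_inv] at b'
  rw [map_map_inv, map_div₀] at d'
  exact ⟨σ u, map_funField hσ a, b', d'⟩

theorem Hz.exists_rel (H : Hz T j p c Cs) (D : Subring Ω →₀ ℤ) : ∃ f, Rel T j p c f D := by
  have h1 : Rel T j p c 1 0 := H.rel_div (one_mem _) one_ne_zero fun V hV =>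
    have := H.dvr hV
    isOrd_zero_iff.2 un_one
  induction D using Finsupp.induction_linear with
  | zero => exact ⟨1, h1⟩
  | add D D' h h' =>
    obtain ⟨f, h⟩ := h
    obtain ⟨f', h'⟩ := h'
    exact ⟨_, H.rel_mul h h'⟩
  | single V m =>
    by_cases hV : V ∈ primeDiv k T j c
    swap
    · exact ⟨1, h1.congr fun W hW =>
        (Finsupp.single_eq_of_ne fun e => hV (by rw [← e]; exact H.down' hW)).symm⟩
    have := H.dvr hV
    have := H.ufd
    obtain ⟨π, hπ⟩ := IsDiscreteValuationRing.exists_irreducible V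
    have hL : (π : Ω) ^ m ∈ funField k T j c := zpow_mem (S := IntermediateField E Ω)
      ((H.icl hV).2.1 π.2) m
    obtain ⟨f, a, b, d⟩ := ht_split H.nrm (· ⊓ (funField k T j c).toSubring = V) (H.le hL)
      (zpow_ne_zero m (irr_ne_zero hπ))
    refine ⟨f, a, b, fun W hW => ?_⟩
    by_cases e : W ⊓ (funField k T j c).toSubring = V
    · exact ⟨_, hL, by simpa [e] using (ord_irr hπ).zpow m, (d W hW).1 e⟩
    · have := H.dvr (H.down' hW)
      exact ⟨1, one_mem _, by rw [Finsupp.single_eq_of_ne e]; exact isOrd_zero_iff.2 un_one,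
        by simpa using (d W hW).2 e⟩

theorem Hz.rel_of_cl (H : Hz T j p c Cs) (h : Rel T j p c f D.1) (e : cl T j c D' = cl T j c D) :
    ∃ u ∈ funField k T j c, u ≠ 0 ∧ Rel T j p c (f * u) D'.1 := by
  obtain ⟨u, a, b, d⟩ := H.of_cl ((map_sub _ D' D).trans (sub_eq_zero.2 e))
  exact ⟨u, a, b, (H.rel_mul h (H.rel_div a b d)).congr fun W _ => by simp⟩

theorem Hz.rel_rat (H : Hz T j p c Cs) (hF : IntermediateField.adjoin k {T} = ⊤)
    (h : Rel T j p c f D.1) (hD : IsRational k T j (cl T j c D)) :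
    ∃ (m : ℤ) (u : Ω), u ∈ funField k T j c ∧
      Rel T j p c (resc k j c (0 : Fin (s + 1)) ^ m * u) D.1 := by
  obtain ⟨m, u, a, _, d⟩ := H.coh hF h.1 h.2.1 (fun σ hσ hK => H.rel_un
    (H.rel_map hσ h fun V hV => by rw [map_self hσ hK (H.icl hV).2.1]) h) fun ρ => by
      obtain ⟨τ, hτ, hK, D1, D2, e1, e2, e⟩ := hD ρ
      obtain ⟨u1, a1, b1, d1⟩ := H.rel_of_cl h e1
      obtain ⟨u2, a2, b2, d2⟩ := H.rel_of_cl h e2
      have := (_root_.map_ne_zero τ).2 b1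
      refine ⟨τ, hτ, hK, u2 / τ u1, div_mem a2 (map_funField hτ a1), div_ne_zero b2 this, ?_⟩
      convert H.rel_un (H.rel_map hτ d1 fun V _ =>
        e ▸ Finsupp.mapDomain_apply (map_inj τ) _ _) d2 using 1
      rw [map_mul]
      field_simp
  exact ⟨m, u, a, H.rel_of_un h d⟩

theorem Hz.h_un (H : Hz T j p c Cs) : Un (R1 T j p c)
    (resc k j c (0 : Fin (s + 1)) ^ gs (Fintype.card k) p.natDegree / ∏ y ∈ Cs.erase 0, y) := by
  rw [resc, g_zero, one_mul, ← pow_mul, wt, Fin.val_zero, zero_add, pow_one, mul_comm,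
    gs_mul Fintype.one_lt_card, ← H.card', ← Finset.prod_const, ← Finset.prod_div_distrib]
  refine un_prod fun y hy => ?_
  obtain ⟨a, ha, rfl⟩ := H.mem'.1 hy
  rw [H.orb_eq, div_mul_cancel_right₀ H.ne]
  exact (H.psi_un ha).inv

theorem Hz.last_iff (H : Hz T j p c Cs) (hW : W ∈ htOneLocs (R1 T j p c)) :
    Un W (resc k j c (Fin.last s)) ↔ W ⊓ (funField k T j c).toSubring ∉ cusps k T j c := by
  refine ⟨fun h h' => h'.2 (ht_le (H.down hW h)), fun h => ?_⟩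
  obtain ⟨l, hl⟩ := H.exists_un hW
  have h1 := (by_contra fun h1 => h ⟨H.down' hW, h1⟩ : _ ≤ _) (base_le _ (YY_mem _ l))
  have h2 := ht_le hW (H.resc_R (Fin.last s))
  refine un_of_pow h2 (wt_ne (k := k) l) ⟨pow_mem h2 _, ?_, pow_ne_zero _ (resc_ne F H.ne _)⟩
  have := mul_mem h1.1 (hl.pow (wt k (Fin.last s))).2.1
  rwa [YY_resc H.ne, div_mul_eq_mul_div, mul_inv_cancel₀ (pow_ne_zero _ hl.2.2), one_div] at this

theorem Hz.rel_cusp (H : Hz T j p c Cs) {m : ℤ} (hu : u ∈ funField k T j c)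
    (h : Rel T j p c (resc k j c (0 : Fin (s + 1)) ^ m * u) n)
    (hn : ∀ V, V ∉ cusps k T j c → n V = 0) :
    (gs (Fintype.card k) ((s + 1).gcd p.natDegree) : ℤ) ∣ m := by
  obtain ⟨θ, hθ⟩ := H.exists_root
  have hq : 1 < Fintype.card k := Fintype.one_lt_card
  have h1 := H.un_last hθ
  have key : ∀ f ∈ L1 T j p c, f ≠ 0 → (∀ W ∈ htOneLocs (R1 T j p c),
      Un W (resc k j c (Fin.last s)) → f ∈ W) →
      f ∈ locO (Fsep F Ω) (ww T j p c) (pt p θ (Pi.single (Fin.last s) 1)) := fun f a b d => by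
    obtain ⟨n, hn⟩ := exists_pow_mul H.nrm (H.resc_R (Fin.last s)) h1.2.2 a b d
    simpa [h1.2.2] using mul_mem (H.R_O hθ hn) (h1.pow n).2.1
  have h2 := fun W hW h3 => (H.rel_zero h hW).2 (hn _ ((H.last_iff (W := W) hW).1 h3))
  have h3 := (numerics hq (Nat.succ_ne_zero s) H.irr.natDegree_pos.ne').1
  have h4 := gs_mul hq p.natDegree
  generalize (Fintype.card k ^ p.natDegree - 1) /
    (Fintype.card k ^ (s + 1).gcd p.natDegree - 1) = A at h3
  rw [h3] at h4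
  have h5 := H.eig hθ (i := A) (fun l hl => by
    obtain rfl : l = Fin.last s := by_contra fun e => hl (Pi.single_eq_of_ne e 1)
    rw [← h4, mul_assoc, gs_mul hq]
    exact Nat.mul_dvd_mul_left _ (Nat.pow_sub_one_dvd_pow_sub_one _ (Nat.gcd_dvd_left _ _))) hu
    ⟨key _ h.1 h.2.1 fun W a b => (h2 W a b).1,
      key _ (inv_mem h.1) (inv_ne_zero h.2.1) fun W a b => (h2 W a b).2.1, h.2.1⟩
  have h6 : ((A * (Fintype.card k - 1) : ℕ) : ℤ) ≠ 0 := Int.natCast_ne_zero.2 fun e =>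
    Nat.sub_ne_zero_of_lt (Nat.one_lt_pow H.irr.natDegree_pos.ne' hq) (by
      rw [← h4, mul_right_comm, e, zero_mul])
  rw [← h4, wt, Fin.val_zero, zero_add, pow_one, mul_right_comm, Nat.cast_mul, ← Nat.cast_mul A]
    at h5
  exact (mul_dvd_mul_iff_left h6).1 h5

theorem Hz.rel_lat (H : Hz T j p c Cs) {m : ℤ} (hu : u ∈ funField k T j c)
    (h : Un (R1 T j p c) (resc k j c (0 : Fin (s + 1)) ^ m / u)) :
    (gs (Fintype.card k) p.natDegree : ℤ) ∣ m := by
  obtain ⟨θ, hθ⟩ := H.exists_root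
  have hq : 1 < Fintype.card k := Fintype.one_lt_card
  have h5 := H.eig hθ (i := 1) (z := 0) (fun l hl => absurd rfl hl) (inv_mem hu)
    (un_mono (div_eq_mul_inv _ u ▸ h) (H.R_O hθ))
  rw [← gs_mul hq, wt, Fin.val_zero, zero_add, pow_one, Nat.cast_one, one_mul, Nat.cast_mul,
    mul_comm] at h5
  exact (mul_dvd_mul_iff_left (Int.natCast_ne_zero.2 (Nat.sub_ne_zero_of_lt hq))).1 h5

end Pool.Agent.P.MP_7c5a52_nt.X
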