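import Pool.Agent.P.MP_7c5a52_nt.X.C

/-! The cusp along which the cyclic submodule degenerates. -/

open Polynomial

set_option linter.unusedSectionVars false

namespace Pool.Agent.P.MP_7c5a52_nt.X

open G

variable {k F E Ω : Type} [Field k] [Fintype k] [Field F] [Field E] [Field Ω] [Algebra k Ω]
  [Algebra F Ω] [Algebra E Ω] {T : F} {s : ℕ} [Algebra k F] [Algebra F E]
  [IsScalarTower F E Ω] [IsScalarTower k F Ω] [GenT k T] {p : k[X]} {c : Ω}
  [IsSepClosure E Ω] {V V' : Subring Ω} [DecidableEq Ω] {Cs : Finset Ω}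

section
variable {j : Fin s → E} [GenJ F j]

theorem exists_tors (hp : Irreducible p) : ∃ Λ : Finset Ω,
    Λ.card = (Fintype.card k ^ (s + 1)) ^ p.natDegree ∧
      ∀ x, x ∈ Λ ↔ aeval (phiT k Ω T j) p x = 0 := by
  have := IsSepClosure.sep_closed E (K := Ω)
  have hq1 : 1 < Fintype.card k := Fintype.one_lt_card
  obtain ⟨d1, _⟩ := deg_PhiG hq1 (TT Ω T) (g_ne F (Ω := Ω) (j := j) (Fin.last s))
    fun l hl => absurd hl (not_lt.2 (Fin.le_last l))
  have h1 := d1 ▸ Nat.one_lt_pow (Nat.succ_ne_zero _) hq1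
  obtain ⟨d2, _⟩ := deg_pa (d := p.natDegree) (a := fun n => algebraMap k Ω (p.coeff n)) h1
    ((_root_.map_ne_zero _).2 (leadingCoeff_ne_zero.2 hp.ne_zero))
  obtain ⟨Λ, hΛ, hΛ', _⟩ := exists_roots (aeval_TT (Ω := Ω) (T := T) hp.ne_zero)
    ((der_pa (der_PhiG (q_cast k) (TT Ω T) (g Ω j)) (fun n => algebraMap k Ω (p.coeff n))
      p.natDegree).trans (by rw [aeval_eq_sum_range]; simp only [Algebra.smul_def]))
  exact ⟨Λ, by rw [hΛ, d2, d1, Fin.val_last], fun x => by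
    rw [hΛ', eval_pa fun z => (eval_PhiG _ _ _ z).trans (phiT_apply z).symm]⟩

variable (F Ω j) in
/-- The function field of `X(1)` over `F^sep`. -/
noncomputable def L0 : IntermediateField E Ω :=
  (IntermediateField.adjoin (Fsep F Ω) (Set.range (jj Ω j))).toSubfield.toIntermediateField E_mem'

theorem Hz.deg_bound (H : Hz T j p c Cs) {f : Ω} (hf : f ∈ funField k T j c) :
    ∃ μ : (L0 F Ω j)[X], μ ≠ 0 ∧ aeval f μ = 0 ∧
      μ.natDegree < 2 * (Fintype.card k ^ s) ^ p.natDegree := by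
  have hi : IsIntegral (L0 F Ω j) f := Algebra.IsIntegral.isIntegral f
  refine ⟨minpoly _ f, minpoly.ne_zero hi, minpoly.aeval _ f, ?_⟩
  obtain ⟨Λ, hΛ, hΛ'⟩ := exists_tors (T := T) (j := j) (Ω := Ω) H.irr
  choose τ hτ using fun x : (minpoly (L0 F Ω j) f).rootSet Ω =>
    minpoly.exists_algEquiv_of_root' hi.isAlgebraic (aeval_eq_zero_of_mem_rootSet x.2)
  have h1 := Finset.card_le_card_of_injOn (s := Finset.univ ×ˢ Cs.erase 0) (t := Λ.erase 0)
    (fun z => τ z.1 z.2) (fun z hz => by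
      obtain ⟨a, ha, e⟩ := H.mem'.1 (Finset.mem_product.1 hz).2
      refine Finset.mem_erase.2 ⟨(_root_.map_ne_zero _).2 (e ▸ (H.mul ha).ne), (hΛ' _).2 ?_⟩
      refine (comm_phi ((τ z.1).restrictScalars E) p z.2).symm.trans ?_
      rw [← e, ← orb_apply, orb_orb, orb_apply, (lev_iff H.lev _).2 (dvd_mul_right _ _),
        map_zero]) (by
      rintro ⟨x, y⟩ hz ⟨x', y'⟩ hz' (e : τ x y = τ x' y')
      obtain ⟨a, ha, rfl⟩ := H.mem'.1 (Finset.mem_product.1 hz).2
      obtain ⟨a', ha', rfl⟩ := H.mem'.1 (Finset.mem_product.1 hz').2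
      obtain ⟨u, w, huw⟩ := H.irr.coprime_iff_not_dvd.2 ha
      let σ := ((τ x')⁻¹ * τ x).restrictScalars E
      have e1 : σ (orb k T j c a) = orb k T j c a' := (τ x').symm_apply_eq.2 e
      have e2 : orb k T j (orb k T j c a) w = c := by
        rw [orb_orb, H.orb_eq, H.psi_congr (b := 1) ⟨-u, by linear_combination huw⟩, H.sol.one,
          one_mul]
      have hσ : σ ∈ gal k T j c := H.acts_gal (b := w * a') ⟨1, one_ne_zero, by
        rw [map_one, one_mul, ← orb_orb, ← e1, ← map_orb, e2]⟩ fun h =>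
        (H.irr.prime.dvd_or_dvd h).elim (fun h => H.irr.not_dvd_one
          (huw ▸ dvd_add (dvd_mul_left _ _) (h.mul_right _))) ha'
      have e3 : σ f = f := mem_funField.1 hf σ hσ fun y hy => ((τ x')⁻¹ * τ x).commutes
        ⟨y, (IntermediateField.adjoin (Fsep F Ω) (Set.range (jj Ω j))).algebraMap_mem ⟨y, hy⟩⟩
      obtain rfl : x = x' := Subtype.ext (by
        rw [← hτ x, ← hτ x']; exact (τ x').symm_apply_eq.1 e3)
      exact Prod.ext rfl ((τ x).injective e))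
  rw [Finset.card_product, Finset.card_univ, card_rootSet_eq_natDegree
    (Algebra.IsSeparable.isSeparable _ f) (IsGalois.splits _ f), H.card',
    Finset.card_erase_of_mem ((hΛ' 0).2 (map_zero _)), hΛ, pow_succ, mul_pow] at h1
  have h2 : 1 < Fintype.card k ^ p.natDegree :=
    Nat.one_lt_pow H.irr.natDegree_pos.ne' Fintype.one_lt_card
  have h3 : 0 < (Fintype.card k ^ s) ^ p.natDegree := pow_pos (pow_pos Fintype.card_pos _) _
  generalize Fintype.card k ^ p.natDegree = P at *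
  generalize (Fintype.card k ^ s) ^ p.natDegree = Q at *
  obtain ⟨P, rfl⟩ : ∃ n, P = n + 2 := ⟨P - 2, by omega⟩
  by_contra! h4
  have h5 := (Nat.mul_le_mul_right _ h4).trans h1
  rw [Nat.le_sub_one_iff_lt (by positivity), show P + 2 - 1 = P + 1 from rfl] at h5
  nlinarith

theorem g_base (l : Fin (s + 1)) : g Ω j l ∈ chartBase k F Ω j 0 :=
  Subring.subset_closure (.inr ⟨Pi.single l 1, _, by
    rw [Finset.sum_eq_single l (fun b _ hb => by simp [hb]) (by simp), Pi.single_eq_same, one_mul]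
    exact (wt_eq l).trans (mul_comm _ _), by rw [prod_single, g_zero, one_pow, pow_one, div_one]⟩)

theorem Hy.codim (H : Hy T j p c) {i : Fin (s + 1)} {P : Ideal (MP_7c5a52_nt.chart k T j c i)}
    (hP : P.IsPrime) (h1 : P.height = 1) {l l' : Fin (s + 1)} (hl : l ≠ l') :
    ⟨_, base_le i (YY_mem i l)⟩ ∉ P ∨ ⟨_, base_le i (YY_mem i l')⟩ ∉ P := by
  by_contra! hn
  have key : ∀ l, ⟨_, base_le i (YY_mem i l)⟩ ∈ P → ∃ a, i.succAbove a = l := fun l h =>
    Fin.exists_succAbove_eq fun e => (Ideal.ne_top_iff_one P).1 hP.ne_top (by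
      rwa [show (1 : MP_7c5a52_nt.chart k T j c i) = ⟨_, base_le i (YY_mem i l)⟩ from
        Subtype.ext (e ▸ (YY_self F l).symm)])
  obtain ⟨a, rfl⟩ := key l hn.1
  obtain ⟨b, rfl⟩ := key l' hn.2
  exact (H.chart i).2 P hP h1 a b _ _ (fun e => hl (e ▸ rfl)) rfl rfl hn.1 hn.2

end

variable {j : Fin (s + 2) → E} [GenJ F j]

theorem Hz.dich (H : Hz T j p c Cs) {i : Fin (s + 3)} {W : ValuationSubring Ω}
    (hK : ∀ y ∈ Fsep F Ω, y ∈ W) (hY : ∀ l, YY k Ω j i l ∈ W)
    (h2 : W.valuation (YY k Ω j i (Fin.last _)) = 1 ∨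
      W.valuation (YY k Ω j i (Fin.last _).castSucc) = 1) :
    W.valuation (eta k j Cs i) = 1 ∨ W.valuation (YY k Ω j i (Fin.last _) ^
      gs (Fintype.card k ^ (s + 3)) p.natDegree *
        eta k j Cs i ^ (Fintype.card k ^ (s + 2)) ^ p.natDegree) = 1 := by
  have := IsSepClosure.sep_closed E (K := Ω)
  have := NeZero.mk (wt_cast (k := k) (Ω := Ω) i)
  obtain ⟨x, hx⟩ := IsSepClosed.exists_pow_nat_eq (g Ω j i) (wt k i)
  have hx0 : x ≠ 0 := fun e => g_ne F (j := j) i (by rw [← hx, e, zero_pow (wt_ne i)])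
  let G := resc k j x⁻¹
  have hGY : ∀ l, W.valuation (G l) ^ wt k i = W.valuation (YY k Ω j i l) := fun l => by
    rw [YY, ← hx, div_eq_mul_inv, ← inv_pow, ← inv_pow, pow_right_comm, ← mul_pow, map_pow]
    rfl
  have h1 : ∀ l, W.valuation (YY k Ω j i l) = 1 → W.valuation (G l) = 1 := fun l h =>
    (pow_eq_one_iff_of_nonneg zero_le (wt_ne i)).1 ((hGY l).trans h)
  let φ' : Module.End k Ω := LinearMap.mulLeft k x * phiT k Ω T j * LinearMap.mulLeft k x⁻¹
  have hφ : ∀ (a : k[X]) z, aeval φ' a (x * z) = x * aeval (phiT k Ω T j) a z := fun a z =>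
    (aeval_comm (LinearMap.mulLeft k x) (fun z => by simp [φ', hx0]) a z).symm
  have hinj : Function.Injective (x * ·) := mul_right_injective₀ hx0
  have hd := val_dich W (fun a => hK _ (k_K a)) (hK _ T_K) H.irr
    (val_un le_rfl (un_K (U := W.toSubring) hK (by
      rw [TT, aeval_algebraMap_apply]; exact IntermediateField.algebraMap_mem _ _)
      (aeval_TT (T := T) H.irr.ne_zero))) (G := G)
    (fun l => (W.valuation_le_one_iff _).1 ((pow_le_one_iff (wt_ne i)).1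
      ((hGY l).trans_le ((W.valuation_le_one_iff _).2 (hY l))))) (resc_ne F (inv_ne_zero hx0) _)
    (h2.imp (h1 _) (h1 _)) (φ := φ') (fun z => by
      simp only [φ', Module.End.mul_apply, LinearMap.mulLeft_apply, phiT_apply, mul_add,
        Finset.mul_sum, G, resc, mul_pow, ← wt_succ, pow_succ x⁻¹]
      congr 1
      · field_simp
      · exact Finset.sum_congr rfl fun l _ => by field_simp) (c := x * c)
    (fun a => by rw [hφ, mul_eq_zero, or_iff_right hx0, lev_iff H.lev]) (Cs := Cs.image (x * ·))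
    (by rw [Finset.card_image_of_injective _ hinj, H.card]) fun y => by
      simp only [Finset.mem_image, H.mem, hφ, orb_apply]
      exact ⟨fun ⟨_, ⟨a, e⟩, e'⟩ => ⟨a, e ▸ e'⟩, fun ⟨a, e⟩ => ⟨_, ⟨a, rfl⟩, e⟩⟩
  have hz : (∏ y ∈ (Cs.image (x * ·)).erase 0, W.valuation y) ^ wt k i =
      W.valuation (eta k j Cs i) := by
    have := Finset.image_erase hinj Cs 0
    simp only [mul_zero] at this
    rw [← this, Finset.prod_image hinj.injOn, eta, map_prod, ← Finset.prod_pow]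
    simp only [← map_pow, mul_pow, hx, resc]
  refine hd.imp (fun h => by rw [← hz, h, one_pow]) fun h => ?_
  rw [map_mul, map_pow, map_pow, ← hz, ← hGY, pow_right_comm, pow_right_comm _ (wt k i), ← mul_pow]
  exact (congrArg (· ^ wt k i) h).trans (one_pow _)

variable (T j) in
/-- Prime divisors that do not come from `Y_1(p)`. -/
def IsInf (p : k[X]) (c : Ω) (V : Subring Ω) : Prop :=
  V ∈ primeDiv k T j c ∧ ∀ W ∈ htOneLocs (R1 T j p c), W ⊓ (funField k T j c).toSubring ≠ V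

theorem Hz.inf_chart (H : Hz T j p c Cs) (hV : IsInf T j p c V) :
    V ∈ htOneLocs (chart k T j c 0) ∧ ¬ Un V (g Ω j (Fin.last _)) ∧
      Un V (g Ω j (Fin.last _) ^ gs (Fintype.card k ^ (s + 3)) p.natDegree *
        (∏ y ∈ Cs.erase 0, y) ^ (Fintype.card k ^ (s + 2)) ^ p.natDegree) := by
  obtain ⟨i, P, hP, h1, hV'⟩ := hV.1
  obtain ⟨W, hW, hc⟩ := exists_center P hP
  have hW' : chart k T j c i ≤ W.toSubring := fun z hz => hW ⟨z, hz⟩
  obtain ⟨v1, v2⟩ := loc_val hP hV' hW' hc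
  have hK : ∀ y ∈ Fsep F Ω, y ∈ W := fun y hy => hW' (base_le i (K_mem i hy))
  have hY : ∀ l, YY k Ω j i l ∈ W := fun l => hW' (base_le i (YY_mem i l))
  have un := fun f => (H.chart i).1.un_of_val hP h1 hV' hW hc (f := f)
  have h2 : ∀ l l', l ≠ l' → W.valuation (YY k Ω j i l) = 1 ∨ W.valuation (YY k Ω j i l') = 1 :=
    fun l l' h => (H.codim hP h1 h).imp (fun h => val_un v1 (IsLoc.un hP hV' h))
      fun h => val_un v1 (IsLoc.un hP hV' h)
  have h3 : W.valuation (eta k j Cs i) ≠ 1 := fun h => by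
    obtain ⟨W', a, b⟩ := H.up ⟨P, hP, h1, hV'⟩ (un _ H.eta_fun h).1
    exact hV.2 W' a b
  have h4 := (H.dich hK hY (h2 _ _ (Fin.castSucc_lt_last _).ne')).resolve_left h3
  have h5 : W.valuation (YY k Ω j i (Fin.last _)) ≠ 1 := fun h => h3 (by
    rwa [map_mul, map_pow, h, one_pow, one_mul, map_pow, pow_eq_one_iff_of_nonneg zero_le
      (pow_ne_zero _ (pow_ne_zero _ q_ne))] at h4)
  have h6 : W.valuation (g Ω j i) = 1 := by
    have := (h2 _ 0 (Fin.last_pos).ne').resolve_left h5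
    rwa [YY, g_zero, one_pow, map_div₀, map_one, one_div, inv_eq_one, map_pow,
      pow_eq_one_iff_of_nonneg zero_le (wt_ne _)] at this
  have h7 : ∀ l, W.valuation (YY k Ω j i l) = W.valuation (g Ω j l) ^ wt k i := fun l => by
    rw [YY, map_div₀, map_pow, map_pow, h6, one_pow, div_one]
  have h8 : chart k T j c 0 ≤ W.toSubring := chart_le (val_icl W ⊤) (fun _ _ => trivial) hK
    fun l => by
      rw [YY, g_zero, one_pow, div_one]
      exact pow_mem ((W.valuation_le_one_iff _).1 ((pow_le_one_iff (wt_ne i)).1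
        ((h7 l).ge.trans ((W.valuation_le_one_iff _).2 (hY l))))) _
  obtain ⟨V', h9, e⟩ := transfer (H.chart i).1 (H.chart 0).1 hP h1 hV' hW' hc h8 fun U a b d =>
    chart_le a (fun _ h => h) (fun y hy => b (base_le 0 (K_mem 0 hy))) fun l => by
      rw [YY, div_eq_mul_inv]
      exact mul_mem (pow_mem (b (base_le 0 (g_base l))) _)
        ((d _ (b (base_le 0 (g_base i))) h6).pow _).2.1
  refine ⟨by rwa [← e, inf_eq_left.2 (H.icl ⟨0, h9⟩).2.1], fun h => h5 (by
    rw [h7, val_un v1 h, one_pow]), un _ (mul_mem (pow_mem (g_fun _) _)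
      (pow_mem (h_mem H.mem) _)) ?_⟩
  simp only [H.eta_eq, map_mul, map_pow, h6, h7, one_pow, one_mul] at h4 ⊢
  rwa [pow_right_comm, pow_right_comm _ (wt k i), ← mul_pow,
    pow_eq_one_iff_of_nonneg zero_le (wt_ne _)] at h4

theorem Hz.inf_cusp (H : Hz T j p c Cs) (hV : IsInf T j p c V) : V ∈ cusps k T j c := by
  obtain ⟨h1, h2, _⟩ := H.inf_chart hV
  refine ⟨hV.1, fun h => h2 (un_of_pow (ht_le h1 (base_le 0 (g_base _)))
    (wt_ne (k := k) (0 : Fin (s + 3))) ⟨pow_mem (ht_le h1 (base_le 0 (g_base _))) _, ?_,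
      pow_ne_zero _ (g_ne F _)⟩)⟩
  simpa [YY, g_zero] using h (base_le _ (YY_mem _ 0))

theorem Hz.inf_poly (H : Hz T j p c Cs) (hV : IsInf T j p c V)
    (n : MvPolynomial (Fin (s + 2)) (Fsep F Ω)) (hn : ¬ MvPolynomial.X (Fin.last _) ∣ n) :
    Un V (MvPolynomial.aeval (jj Ω j) n) := by
  obtain ⟨⟨P, hP, h1, hV'⟩, h2, _⟩ := H.inf_chart hV
  let B : Subalgebra (Fsep F Ω) Ω :=
    { chart k T j c 0 with algebraMap_mem' := fun a => base_le 0 (K_mem 0 a.2) }
  have hA : Algebra.adjoin (Fsep F Ω) (Set.range (jj Ω j)) ≤ B :=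
    Algebra.adjoin_le (by rintro _ ⟨l, rfl⟩; exact base_le 0 (g_base _))
  have hB : chartBase k F Ω j 0 ≤ (Algebra.adjoin (Fsep F Ω) (Set.range (jj Ω j))).toSubring := by
    refine Subring.closure_le.2 ?_
    rintro _ (h | ⟨a, m, h, rfl⟩)
    · exact Subalgebra.algebraMap_mem _ (⟨_, h⟩ : Fsep F Ω)
    · rw [g_zero, one_pow, div_one]
      refine prod_mem fun l _ => pow_mem ?_ _
      exact Fin.cases (one_mem _) (fun i => Algebra.subset_adjoin ⟨i, rfl⟩) l
  refine IsLoc.un hP hV' (y := ⟨_, aeval_mem_sub (fun a => base_le 0 (K_mem 0 a.2))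
    (fun _ => base_le 0 (g_base _)) n⟩) fun h => hn (chart_dvd jj_indep hA
      (fun z hz => (hz.1.map_of_comp_eq (Subring.inclusion hB) (RingHom.id Ω) rfl :)) hP h1
      (x := ⟨_, base_le 0 (g_base (Fin.last _))⟩) rfl rfl
      (by_contra fun h => h2 (IsLoc.un hP hV' h)) h)

theorem cop_SQ (hp : Irreducible p) : IsCoprime (((Fintype.card k ^ (s + 2)) ^ p.natDegree : ℕ) : ℤ)
    (gs (Fintype.card k ^ (s + 3)) p.natDegree : ℕ) := by
  obtain ⟨d, hd⟩ := Nat.exists_eq_succ_of_ne_zero hp.natDegree_pos.ne'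
  refine Nat.isCoprime_iff_coprime.2 (Nat.Coprime.pow_left _ (Nat.Coprime.pow_left _ ?_))
  rw [hd, gs, geom_sum_succ, pow_succ', mul_assoc]
  simp

theorem Hz.inf_wt (H : Hz T j p c Cs) : ∃ w : Ω → ℤ, ∀ V, IsInf T j p c V → ∀ e : ℤ,
    IsOrd V (g Ω j (Fin.last _)) e → ∀ a ∈ L0 F Ω j, a ≠ 0 → IsOrd V a (w a * e) := by
  obtain ⟨w, hw⟩ := exists_wt (K := Fsep F Ω) (jj Ω j) (Fin.last _)
  refine ⟨w, fun V hV e he a ha h0 => ?_⟩
  have := H.dvr hV.1
  exact ord_un (he.zpow (w a)) (hw a ha h0 V (g_ne F _) (H.inf_poly hV))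

theorem Hz.inf_ord (H : Hz T j p c Cs) (hV : IsInf T j p c V) :
    IsOrd V (g Ω j (Fin.last _)) ((Fintype.card k ^ (s + 2)) ^ p.natDegree : ℕ) ∧
      IsOrd V (∏ y ∈ Cs.erase 0, y) (-(gs (Fintype.card k ^ (s + 3)) p.natDegree : ℕ)) := by
  obtain ⟨h1, h2, h3⟩ := H.inf_chart hV
  have := H.dvr hV.1
  obtain ⟨a, ha⟩ := H.ord hV.1 (g_fun (Fin.last _)) (g_ne F _)
  obtain ⟨o, ho⟩ := H.ord hV.1 (h_mem H.mem) h_ne
  have e := ((ord_pow ha _).mul (ord_pow ho _)).unique (isOrd_zero_iff.2 h3)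
  have a0 := (ord_mem_iff ha).1 (ht_le h1 (base_le 0 (g_base _)))
  have a1 : a ≠ 0 := fun e => h2 (isOrd_zero_iff.1 (e ▸ ha))
  obtain ⟨ε, rfl⟩ := (cop_SQ (s := s) H.irr).dvd_of_dvd_mul_left (z := a)
    ⟨-o, by linear_combination e⟩
  obtain ⟨π, hπ⟩ := IsDiscreteValuationRing.exists_irreducible V
  obtain ⟨μ, m0, m1, m2⟩ := H.deg_bound ((H.icl hV.1).2.1 π.2)
  obtain ⟨w, hw⟩ := H.inf_wt
  obtain ⟨n, _, n', hn', h4, _⟩ := slope m0 m1 (hw V hV _ ha) (ord_irr hπ) isCoprime_one_right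
  have h5 := le_natDegree_of_mem_supp n' hn'
  have h6 : 0 < (Fintype.card k ^ (s + 2)) ^ p.natDegree := pow_pos (pow_pos Fintype.card_pos _) _
  generalize (Fintype.card k ^ (s + 2)) ^ p.natDegree = Q at *
  obtain rfl : ε = 1 := by
    have : 0 ≤ ε := nonneg_of_mul_nonneg_right a0 (by omega)
    have : ε ≠ 0 := right_ne_zero_of_mul a1
    have : ε < 2 := lt_of_mul_lt_mul_left (a := (Q : ℤ)) (by omega) (by omega)
    omega
  rw [mul_one] at ha
  obtain rfl : o = -(gs (Fintype.card k ^ (s + 3)) p.natDegree : ℕ) :=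
    mul_left_cancel₀ (a := (Q : ℤ)) (by omega) (by linear_combination e)
  exact ⟨ha, ho⟩

theorem Hz.inf_uniq (H : Hz T j p c Cs) (hV : IsInf T j p c V) (hV' : IsInf T j p c V') :
    V = V' := by
  have key : ∀ V V', IsInf T j p c V → IsInf T j p c V' → V ≤ V' := fun V V' hV hV' z hz => by
    by_contra hn
    have := H.dvr hV.1
    have := H.dvr hV'.1
    have hzL := (H.icl hV.1).2.1 hz
    have h0 : z ≠ 0 := fun e => hn (e ▸ zero_mem _)
    obtain ⟨n, ho⟩ := H.ord hV.1 hzL h0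
    obtain ⟨n', ho'⟩ := H.ord hV'.1 hzL h0
    have h1 := (ord_mem_iff ho).1 hz
    have h2 := (ord_mem_iff ho').not.1 hn
    obtain ⟨μ, m0, m1, m2⟩ := H.deg_bound (mul_mem (h_mem H.mem)
      (pow_mem hzL ((Fintype.card k ^ (s + 2)) ^ p.natDegree)))
    obtain ⟨w, hw⟩ := H.inf_wt
    have h6 : 0 < (Fintype.card k ^ (s + 2)) ^ p.natDegree :=
      pow_pos (pow_pos Fintype.card_pos _) _
    have := two_slopes m0 m1 (hw V' hV' _ (H.inf_ord hV').1) (hw V hV _ (H.inf_ord hV).1)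
      ((H.inf_ord hV').2.mul (ord_pow ho' _)) ((H.inf_ord hV).2.mul (ord_pow ho _))
      ((cop_SQ H.irr).neg_right.add_mul_left_right _) ((cop_SQ H.irr).neg_right.add_mul_left_right _)
      (add_lt_add_right (mul_lt_mul_of_pos_left (by omega) (by omega)) _)
    omega
  exact le_antisymm (key _ _ hV hV') (key _ _ hV' hV)

theorem Hz.exists_inf (H : Hz T j p c Cs) : ∃ V, IsInf T j p c V := by
  by_contra! hn
  have key : ∀ i, IsAlgebraic (Fsep F Ω) (eta k j Cs i) := fun i =>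
    H.const H.eta_fun fun V hV => by
      obtain ⟨W, hW, rfl⟩ : ∃ W ∈ htOneLocs (R1 T j p c), _ = V := by
        simpa [IsInf, hV] using hn V
      exact ⟨ht_le hW H.eta_R, H.eta_fun⟩
  have h1 := ((key (Fin.last _)).pow (wt k (0 : Fin (s + 3)))).mul
    ((key 0).pow (wt k (Fin.last (s + 2)))).inv
  rw [H.eta_eq, H.eta_eq, g_zero, one_pow, one_mul, mul_pow, pow_right_comm _ (wt k (Fin.last _)),
    mul_inv_cancel_right₀ (pow_ne_zero _ (pow_ne_zero _ h_ne)), ← pow_mul] at h1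
  exact (jj_indep (j := j)).transcendental (Fin.last _) (h1.of_pow (Nat.pos_of_ne_zero
    (mul_ne_zero (Nat.sub_ne_zero_of_lt (Nat.one_lt_pow H.irr.natDegree_pos.ne'
      Fintype.one_lt_card)) (wt_ne _))))

/-- The class of `g_1` is locally that of a function on `X_0(p)`. -/
theorem Hz.exists_loc (H : Hz T j p c Cs) {W : Subring Ω} (hW : W ∈ htOneLocs (R1 T j p c)) :
    ∃ f ∈ funField k T j c, f ≠ 0 ∧ Un W (resc k j c (0 : Fin (s + 3)) / f) := by
  by_cases h0 : Un W (resc k j c (0 : Fin (s + 3)))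
  · exact ⟨1, one_mem _, one_ne_zero, by rwa [div_one]⟩
  obtain ⟨i, hi⟩ := H.exists_un hW
  obtain ⟨P, hP, h1, hV⟩ := H.down hW hi
  have key : ∀ l, ⟨_, base_le i (YY_mem i l)⟩ ∉ P → Un W (resc k j c l) := fun l h => by
    have := (un_mono (a := YY k Ω j i l) (IsLoc.un hP hV h) inf_le_left).mul (hi.pow (wt k l))
    rw [YY_resc H.ne, div_mul_cancel₀ _ (pow_ne_zero _ hi.2.2)] at this
    exact un_of_pow (ht_le hW (H.resc_R l)) (wt_ne i) this
  have e1 := key _ ((H.codim hP h1 (l := 0) (l' := 1) (by simp)).resolve_left fun h => h0 (key _ h))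
  have e2 := key _ ((H.codim hP h1 (l := 0) (l' := 2)
    (Fin.ne_of_val_ne (by rw [Fin.val_two]; simp))).resolve_left fun h => h0 (key _ h))
  refine ⟨_, div_mem (pow_mem (g_fun 1) (Fintype.card k)) (g_fun 2),
    div_ne_zero (pow_ne_zero _ (g_ne F 1)) (g_ne F 2), ?_⟩
  have w0 := wt_succ (k := k) (0 : Fin (s + 3))
  have w1 := wt_succ (k := k) (1 : Fin (s + 3))
  have w2 := wt_succ (k := k) (2 : Fin (s + 3))
  simp only [Fin.val_zero, Fin.val_one, Fin.val_two] at w0 w1 w2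
  have w3 : wt k (2 : Fin (s + 3)) =
      wt k (0 : Fin (s + 3)) + wt k (1 : Fin (s + 3)) * Fintype.card k := by
    have : (wt k (1 : Fin (s + 3)) + 1) * Fintype.card k = wt k (2 : Fin (s + 3)) + 1 := by
      rw [w1, w2]; ring
    rw [zero_add, pow_one] at w0
    rw [add_mul, one_mul] at this
    omega
  convert un_div e2 (e1.pow (Fintype.card k)) using 1
  have := H.ne
  simp only [resc, g_zero, w3, mul_pow, pow_add, pow_mul]
  field_simp

end Pool.Agent.P.MP_7c5a52_nt.X
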