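import Pool.Agent.P.MP_7c5a52_nt.X.A

/-! Localised polynomial rings, slopes, interpolation and numerical facts. -/

namespace Pool.Agent.P.MP_7c5a52_nt.X

open G
open scoped IntermediateField.algebraAdjoinAdjoin

section Mv
open MvPolynomial

variable {K Ω : Type} [Field K] [Field Ω] [Algebra K Ω] {s : ℕ} {v v' : Fin s → Ω}
  {S : Set (MvPolynomial (Fin s) K)}

variable (v S) in
/-- The polynomial ring in `v` with the elements of `S` inverted. -/
def locM : Subring Ω where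
  carrier := {z | ∃ n : MvPolynomial (Fin s) K, ∃ m ∈ Submonoid.closure S,
    z * aeval v m = aeval v n}
  mul_mem' := by
    rintro z z' ⟨n, m, h, e⟩ ⟨n', m', h', e'⟩
    exact ⟨n * n', m * m', mul_mem h h', by rw [map_mul, map_mul, ← e, ← e']; ring⟩
  one_mem' := ⟨1, 1, one_mem _, one_mul _⟩
  add_mem' := by
    rintro z z' ⟨n, m, h, e⟩ ⟨n', m', h', e'⟩
    exact ⟨n * m' + n' * m, m * m', mul_mem h h', by
      rw [map_add, map_mul, map_mul, map_mul, ← e, ← e']; ring⟩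
  zero_mem' := ⟨0, 1, one_mem _, by simp⟩
  neg_mem' := by
    rintro z ⟨n, m, h, e⟩
    exact ⟨-n, m, h, by rw [map_neg, ← e, neg_mul]⟩

theorem aeval_mem_locM (a : MvPolynomial (Fin s) K) : aeval v a ∈ locM v S :=
  ⟨a, 1, one_mem _, by simp⟩

theorem inv_mem_locM {a : MvPolynomial (Fin s) K} (ha : a ∈ S) (h0 : aeval v a ≠ 0) :
    (aeval v a)⁻¹ ∈ locM v S := ⟨1, a, Submonoid.subset_closure ha, by simp [h0]⟩

theorem aeval_mem_sub {U : Subring Ω} (hK : ∀ a : K, algebraMap K Ω a ∈ U) (hv : ∀ i, v i ∈ U)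
    (a : MvPolynomial (Fin s) K) : aeval v a ∈ U := by
  induction a using MvPolynomial.induction_on with
  | C a => simpa using hK a
  | add a b ha hb => simpa using add_mem ha hb
  | mul_X a i ha => simpa using mul_mem ha (hv i)

theorem locM_le {U : Subring Ω} (hK : ∀ a : K, algebraMap K Ω a ∈ U) (hv : ∀ i, v i ∈ U)
    (hS : ∀ a ∈ S, Un U (aeval v a)) : locM v S ≤ U := by
  rintro z ⟨n, m, h, e⟩
  have : Un U (aeval v m) := by
    clear e
    induction h using Submonoid.closure_induction with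
    | mem x hx => exact hS x hx
    | one => simpa using un_one
    | mul x y _ _ hx hy => simpa using hx.mul hy
  rw [eq_div_of_mul_eq this.2.2 e, div_eq_mul_inv]
  exact mul_mem (aeval_mem_sub hK hv n) this.2.1

theorem locM_nrm (hv : AlgebraicIndependent K v) (hS : ∀ a ∈ S, a ≠ 0) :
    Nrm (locM v S) (IntermediateField.adjoin K (Set.range v)).toSubfield ∧
      UniqueFactorizationMonoid (locM v S) := by
  let A0 := MvPolynomial (Fin s) K
  let N := IntermediateField.adjoin K (Set.range v)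
  let R := locM v S
  have h0 : ∀ m ∈ Submonoid.closure S, aeval v m ≠ 0 := fun m hm e =>
    mem_nonZeroDivisors_iff_ne_zero.1 ((Submonoid.closure_le (S := nonZeroDivisors A0)).2
      (fun a ha => mem_nonZeroDivisors_iff_ne_zero.2 (hS a ha)) hm)
      (hv.eq_zero_of_aeval_eq_zero m e)
  let : Algebra A0 R := ((aeval v).toRingHom.codRestrict R aeval_mem_locM).toAlgebra
  have : IsLocalization (Submonoid.closure S) R :=
    { map_units := fun y => by
        obtain ⟨u, hu⟩ := Un.exists_unit (V := R) ⟨aeval_mem_locM y.1,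
          ⟨1, y.1, y.2, by simp [h0 _ y.2]⟩, h0 _ y.2⟩
        exact (Subtype.ext hu : (u : R) = algebraMap A0 _ y) ▸ u.isUnit
      surj := fun z => by
        obtain ⟨n, m, hm, e⟩ := z.2
        exact ⟨(n, ⟨m, hm⟩), Subtype.ext e⟩
      exists_of_eq := fun {x y} e => ⟨1, by
        rw [(hv (congrArg (fun z : R => (z : Ω)) e) : x = y)]⟩ }
  have hU : UniqueFactorizationMonoid R := .of_isLocalization (Submonoid.closure S) R
  have hle : ∀ z ∈ R, z ∈ N := by
    rintro z ⟨n, m, hm, e⟩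
    rw [eq_div_of_mul_eq (h0 m hm) e]
    exact div_mem (aeval_mem_adjoin _) (aeval_mem_adjoin _)
  have hfr : ∀ z ∈ N, ∃ a b : R, b ≠ 0 ∧ z = (a : Ω) / b := fun z hz => by
    obtain ⟨a, b, rfl⟩ := (IntermediateField.mem_adjoin_range_iff K v z).1 hz
    by_cases hb : aeval v b = 0
    · exact ⟨0, 1, one_ne_zero, by simp [hb]⟩
    · exact ⟨⟨_, aeval_mem_locM a⟩, ⟨_, aeval_mem_locM b⟩, fun e => hb (congrArg Subtype.val e),
        rfl⟩
  refine ⟨⟨IsLocalization.isNoetherianRing (Submonoid.closure S) R inferInstance, hle, hfr,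
    fun z hz hi => ?_⟩, hU⟩
  let : Algebra R N := (R.subtype.codRestrict N.toSubring fun z => hle z z.2).toAlgebra
  have : FaithfulSMul R N := (faithfulSMul_iff_algebraMap_injective R N).2 fun a b e =>
    Subtype.ext (congrArg (fun z : N => (z : Ω)) e)
  have : IsFractionRing R N := IsFractionRing.of_field R N fun z => by
    obtain ⟨a, b, _, e⟩ := hfr z z.2
    exact ⟨a, b, Subtype.ext e⟩
  have : IsScalarTower R N Ω := .of_algebraMap_eq fun _ => rfl
  obtain ⟨a, ha⟩ := IsIntegrallyClosed.algebraMap_eq_of_integral (R := R) (x := (⟨z, hz⟩ : N))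
    ((isIntegral_algHom_iff (IsScalarTower.toAlgHom R N Ω) Subtype.val_injective).1 hi)
  have e : (a : Ω) = z := congrArg (fun z : N => (z : Ω)) ha
  exact e ▸ a.2

/-- Units after inverting linear polynomials. -/
theorem locM_un (hv : AlgebraicIndependent K v) (hS : ∀ a ∈ S, a ≠ 0 ∧ a.totalDegree ≤ 1)
    {H : Ω → Prop} (hmul : ∀ a b, H a → H b → H (a * b)) (hinv : ∀ a, H a → H a⁻¹)
    (hK : ∀ a : K, a ≠ 0 → H (algebraMap K Ω a)) (h0 : ∀ a, H a → a ≠ 0)
    (hH : ∀ a ∈ S, H (aeval v a)) {z : Ω} (hz : Un (locM v S) z) : H z := by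
  have hu : ∀ n : MvPolynomial (Fin s) K, IsUnit n → H (aeval v n) := fun n hn => by
    obtain ⟨r, hr, rfl⟩ := isUnit_iff_eq_C_of_isReduced.1 hn
    simpa using hK r hr.ne_zero
  have key : ∀ m ∈ Submonoid.closure S, ∀ n, n ∣ m → H (aeval v n) := fun m hm => by
    induction hm using Submonoid.closure_induction with
    | mem x hx =>
      intro n hn
      obtain ⟨h1, h2⟩ := hS x hx
      rcases Nat.le_one_iff_eq_zero_or_eq_one.1 h2 with h | h
      · refine hu n (isUnit_of_dvd_unit hn ?_)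
        rw [totalDegree_eq_zero_iff_eq_C] at h
        rw [h] at h1 ⊢
        exact (IsUnit.mk0 _ fun e => h1 (by rw [e, map_zero])).map C
      rcases (irreducible_of_totalDegree_eq_one h fun y hy => IsUnit.mk0 y fun e => h1
        (MvPolynomial.ext _ _ fun i => by simpa [e] using hy i)).dvd_iff.1 hn with h3 | ⟨u, rfl⟩
      · exact hu n h3
      · rw [map_mul]
        exact hmul _ _ (hH x hx) (hu _ u.isUnit)
    | one => exact fun n hn => hu n (isUnit_of_dvd_one hn)
    | mul x y _ _ hx hy =>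
      intro n hn
      obtain ⟨a, b, ha, hb, rfl⟩ := exists_dvd_and_dvd_of_dvd_mul hn
      rw [map_mul]
      exact hmul _ _ (hx a ha) (hy b hb)
  obtain ⟨⟨n, m, hm, e⟩, ⟨n', m', hm', e'⟩, hz0⟩ := hz
  have h1 := key m hm m dvd_rfl
  rw [eq_div_of_mul_eq (h0 _ h1) e, div_eq_mul_inv]
  refine hmul _ _ (key _ (mul_mem hm hm') n ⟨n', hv ?_⟩) (hinv _ h1)
  simp only [map_mul, ← e, ← e']
  field_simp

theorem chart_dvd (hv : AlgebraicIndependent K v) {R : Subring Ω}
    (hAR : ∀ z ∈ Algebra.adjoin K (Set.range v), z ∈ R)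
    (hi : ∀ z ∈ R, IsIntegral (Algebra.adjoin K (Set.range v)) z) {P : Ideal R} (hP : P.IsPrime)
    (h1 : P.height = 1) {a : Fin s} {n : MvPolynomial (Fin s) K} {x y : R} (hx : (x : Ω) = v a)
    (hy : (y : Ω) = aeval v n) (hxP : x ∈ P) (hyP : y ∈ P) : X a ∣ n := by
  set A := Algebra.adjoin K (Set.range v) with hA
  let e := hv.aevalEquiv
  have : IsIntegrallyClosed A := IsIntegrallyClosed.of_equiv e.toRingEquiv
  let : Algebra A R := (A.val.toRingHom.codRestrict R fun z => hAR z z.2).toAlgebra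
  have : IsScalarTower A R Ω := .of_algebraMap_eq fun _ => rfl
  have : Algebra.IsIntegral A R := ⟨fun b =>
    (isIntegral_algHom_iff (IsScalarTower.toAlgHom A R Ω) Subtype.val_injective).1 (hi b b.2)⟩
  have : FaithfulSMul A R := (faithfulSMul_iff_algebraMap_injective A R).2 fun a b e =>
    Subtype.ext (congrArg (fun z : R => (z : Ω)) e)
  have hex : algebraMap A R (e (X a)) = x := Subtype.ext (by rw [hx]; exact aeval_X v a)
  have hey : algebraMap A R (e n) = y := Subtype.ext (by rw [hy]; rfl)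
  have hpr : Prime (e (X a)) := (MulEquiv.prime_iff e).2 X_prime
  have := (Ideal.span_singleton_prime hpr.ne_zero).2 hpr
  by_contra hab
  have hlt : Ideal.span {e (X a)} < P.under A := by
    refine lt_of_le_of_ne ((Ideal.span_singleton_le_iff_mem _).2 ?_) fun h => ?_
    · rw [Ideal.mem_under, hex]; exact hxP
    · have : e n ∈ Ideal.span {e (X a)} := by
        rw [h, Ideal.mem_under, hey]; exact hyP
      rw [Ideal.mem_span_singleton, map_dvd_iff e] at this
      exact hab this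
  obtain ⟨P1, hP1, _, hov⟩ := Ideal.exists_ideal_lt_liesOver_of_lt P hlt
  have hx1 : x ∈ P1 := by
    rw [← hex, ← Ideal.mem_under, ← hov.over]
    exact Ideal.mem_span_singleton_self _
  have h2 := Ideal.height_add_one_le_of_lt_of_isPrime hP1
  have h3 : P1.height = 0 := by
    rw [h1] at h2
    by_contra h0
    have := Order.one_le_iff_ne_zero.2 h0
    exact absurd ((add_le_add_left this 1).trans h2) (by decide)
  rw [Ideal.height_eq_zero_iff_eq_bot.1 h3, Ideal.mem_bot, ← hex,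
    map_eq_zero_iff _ (FaithfulSMul.algebraMap_injective A R)] at hx1
  exact hpr.ne_zero hx1

/-- The order along the hyperplane `v a = 0`. -/
theorem exists_wt (v : Fin s → Ω) (a : Fin s) : ∃ w : Ω → ℤ,
    ∀ z ∈ IntermediateField.adjoin K (Set.range v), z ≠ 0 → ∀ V : Subring Ω, v a ≠ 0 →
      (∀ n : MvPolynomial (Fin s) K, ¬ X a ∣ n → Un V (aeval v n)) → Un V (z / v a ^ w z) := by
  have key : ∀ z ∈ IntermediateField.adjoin K (Set.range v), z ≠ 0 → ∃ w : ℤ, ∀ V : Subring Ω,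
      v a ≠ 0 → (∀ n : MvPolynomial (Fin s) K, ¬ X a ∣ n → Un V (aeval v n)) →
      Un V (z / v a ^ w) := fun z hz h0 => by
    obtain ⟨x, y, rfl⟩ := (IntermediateField.mem_adjoin_range_iff K v z).1 hz
    obtain ⟨m, x', hx, rfl⟩ := WfDvdMonoid.max_power_factor (a₀ := x)
      (fun e => h0 (by simp [e])) (X_prime (R := K) (i := a)).irreducible
    obtain ⟨n, y', hy, rfl⟩ := WfDvdMonoid.max_power_factor (a₀ := y)
      (fun e => h0 (by simp [e])) (X_prime (R := K) (i := a)).irreducible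
    refine ⟨m - n, fun V ha h => ?_⟩
    convert un_div (h _ hx) (h _ hy) using 1
    simp only [map_mul, map_pow, aeval_X, zpow_sub₀ ha, zpow_natCast]
    field_simp
  choose! w hw using key
  exact ⟨w, hw⟩

theorem exists_tau [IsSepClosed Ω] (hv : AlgebraicIndependent K v)
    (hv' : AlgebraicIndependent K v') (ρ : K →+* K)
    (hsep : Algebra.IsSeparable (IntermediateField.adjoin K (Set.range v)) Ω) :
    ∃ τ : Ω →+* Ω, ∀ a : MvPolynomial (Fin s) K, τ (aeval v a) = aeval v' (map ρ a) := by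
  let N := IntermediateField.adjoin K (Set.range v)
  let ι : MvPolynomial (Fin s) K →+* Ω := (aeval v').toRingHom.comp (map ρ)
  have hι : Function.Injective ι := fun _ _ e => map_injective ρ ρ.injective (hv' e)
  let τ : N →+* Ω := (IsFractionRing.lift (K := FractionRing (MvPolynomial (Fin s) K)) hι).comp
    hv.aevalEquivField.symm.toRingEquiv.toRingHom
  have hτ : ∀ a, τ ⟨aeval v a, aeval_mem_adjoin a⟩ = ι a := fun a => by
    have : (⟨aeval v a, aeval_mem_adjoin a⟩ : N) = hv.aevalEquivField (algebraMap _ _ a) :=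
      Subtype.ext (hv.aevalEquivField_algebraMap_apply_coe a).symm
    rw [this]
    simp [τ]
  let σ := @IsSepClosed.lift N Ω Ω _ _ _ _ τ.toAlgebra _ hsep
  exact ⟨@AlgHom.toRingHom _ _ _ _ _ _ _ τ.toAlgebra σ, fun a =>
    (@AlgHom.commutes _ _ _ _ _ _ _ τ.toAlgebra σ ⟨aeval v a, aeval_mem_adjoin a⟩).trans (hτ a)⟩

end Mv

open Polynomial

section Slope

variable {K Ω : Type} [Field K] [Field Ω] [Algebra K Ω] {N : IntermediateField K Ω} {μ : N[X]}
  {f : Ω} {w : Ω → ℤ}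

theorem slope (h0 : μ ≠ 0) (hf : aeval f μ = 0) {V : Subring Ω} [IsDiscreteValuationRing V]
    {e α : ℤ} (hw : ∀ a ∈ N, a ≠ 0 → IsOrd V a (w a * e)) (hα : IsOrd V f α)
    (hc : IsCoprime e α) : ∃ n ∈ μ.support, ∃ n' ∈ μ.support, (n : ℤ) + e ≤ n' ∧
      w (μ.coeff n) * e + n * α = w (μ.coeff n') * e + n' * α ∧
      ∀ m ∈ μ.support, w (μ.coeff n) * e + n * α ≤ w (μ.coeff m) * e + m * α := by
  classical
  obtain ⟨n, hn, n', hn', h1, h2, h3⟩ := min_twice (V := V) (support_nonempty.2 h0)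
    (f := fun n => (μ.coeff n : Ω) * f ^ n) (o := fun n => w (μ.coeff n) * e + n * α)
    (fun n hn => (hw _ (μ.coeff n).2 fun e => mem_support_iff.1 hn (Subtype.ext e)).mul
      (ord_pow hα n)) (by rw [← hf, aeval_def, eval₂_eq_sum]; rfl)
  refine ⟨n, hn, n', hn', ?_, h2, h3⟩
  have := Int.le_of_dvd (b := n' - n) (by omega) (hc.dvd_of_dvd_mul_right (y := (n' - n : ℤ))
    ⟨w (μ.coeff n) - w (μ.coeff n'), by linear_combination -h2⟩)
  omega

theorem two_slopes (h0 : μ ≠ 0) (hf : aeval f μ = 0) {V V' : Subring Ω}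
    [IsDiscreteValuationRing V] [IsDiscreteValuationRing V'] {e α α' : ℤ}
    (hw : ∀ a ∈ N, a ≠ 0 → IsOrd V a (w a * e)) (hw' : ∀ a ∈ N, a ≠ 0 → IsOrd V' a (w a * e))
    (hα : IsOrd V f α) (hα' : IsOrd V' f α') (hc : IsCoprime e α) (hc' : IsCoprime e α')
    (hlt : α < α') : 2 * e ≤ μ.natDegree := by
  obtain ⟨n, hn, m, hm, h1, -, h3⟩ := slope h0 hf hw hα hc
  obtain ⟨n', hn', m', hm', h1', h2', h3'⟩ := slope h0 hf hw' hα' hc'
  have a1 := h3 m' hm'
  have a2 := h3' n hn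
  have a3 := le_natDegree_of_mem_supp m hm
  have a4 : (m' : ℤ) ≤ n := by
    by_contra! hc
    nlinarith [mul_pos (sub_pos.2 hc) (sub_pos.2 hlt)]
  omega

end Slope

section Sol

variable {k Ω : Type} [Field k] [Fintype k] [Field Ω] [Algebra k Ω] {s : ℕ} {p : k[X]} {t : Ω}
  {ψ : k[X] →ₗ[k] Ω} {G G' : Fin (s + 1) → Ω}

omit [Algebra k Ω] in
theorem qpoly (u : Fin (s + 1) → Ω) {d : ℕ} (hu : ∀ l, d ≤ l.1 → u l = 0) :
    (∑ l : Fin (s + 1), C (u l) * X ^ Fintype.card k ^ l.1).natDegree < Fintype.card k ^ d ∧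
    (∀ l : Fin (s + 1), (∑ l : Fin (s + 1), C (u l) * X ^ Fintype.card k ^ l.1).coeff
      (Fintype.card k ^ l.1) = u l) ∧
    ∀ y, (∑ l : Fin (s + 1), C (u l) * X ^ Fintype.card k ^ l.1).eval (y ^ Fintype.card k) =
      ∑ l, u l * y ^ Fintype.card k ^ (l.1 + 1) := by
  have hq1 : 1 < Fintype.card k := Fintype.one_lt_card
  have h0 : 0 < Fintype.card k ^ d := pow_pos (by omega) d
  refine ⟨lt_of_le_of_lt (natDegree_sum_le_of_forall_le (n := Fintype.card k ^ d - 1) _ _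
    fun l _ => ?_) (Nat.sub_lt h0 Nat.one_pos), fun l => ?_, fun y => ?_⟩
  · rcases lt_or_ge l.1 d with h | h
    · exact (natDegree_C_mul_X_pow_le _ _).trans
        (Nat.le_sub_one_of_lt (Nat.pow_lt_pow_right hq1 h))
    · simp [hu l h]
  · simp only [finsetSum_coeff, coeff_C_mul_X_pow]
    rw [Finset.sum_eq_single l (fun b _ hb => if_neg fun e => hb
      (Fin.ext (Nat.pow_right_injective hq1 e)).symm) (by simp), if_pos rfl]
  · simp only [eval_finsetSum, eval_mul, eval_C, eval_pow, eval_X, ← pow_mul, pow_succ']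

theorem sol_uniq (hp : Irreducible p) (h : Sol p t ψ G) (h' : Sol p t ψ G')
    (hG : ∀ l, p.natDegree ≤ l.1 → G l = G' l) : G = G' := by
  classical
  obtain ⟨Cs, hC, hC'⟩ := exists_finset hp ψ h.ker
  obtain ⟨h1, h2, h3⟩ := qpoly (k := k) (G - G') fun l hl => sub_eq_zero.2 (hG l hl)
  rw [← hC, ← Finset.card_image_of_injective _ fun _ _ => inj_q (k := k)] at h1
  have h4 := eq_zero_of_natDegree_lt_card_of_eval_eq_zero' _ _ (fun z hz => ?_) h1
  · rw [h4] at h2
    exact funext fun l => sub_eq_zero.1 (h2 l).symm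
  · obtain ⟨y, hy, rfl⟩ := Finset.mem_image.1 hz
    obtain ⟨a, rfl⟩ := (hC' y).1 hy
    rw [h3]
    simp only [Pi.sub_apply, sub_mul, Finset.sum_sub_distrib, h.eq, h'.eq, sub_self]

theorem sol_mem (hp : Irreducible p) (h : Sol p t ψ G) {U : Subring Ω} (ht : t ∈ U)
    (hψ : ∀ a, ψ a ∈ U ∧ (ψ a)⁻¹ ∈ U) (hG : ∀ l, p.natDegree ≤ l.1 → G l ∈ U) (l : Fin (s + 1)) :
    G l ∈ U := by
  classical
  obtain ⟨Cs, hC, hC'⟩ := exists_finset hp ψ h.ker
  obtain ⟨h1, h2, h3⟩ := qpoly (k := k) (fun l => if l.1 < p.natDegree then G l else 0)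
    fun l hl => if_neg (not_lt.2 hl)
  have hm : ∀ z ∈ U, C z ∈ liftsRing U.subtype := fun z hz => C_mem_lifts U.subtype ⟨z, hz⟩
  have e := Lagrange.eq_interpolate (s := Cs) (v := (· ^ Fintype.card k))
    (fun _ _ _ _ => inj_q (k := k)) (degree_le_natDegree.trans_lt (by exact_mod_cast hC ▸ h1))
  rcases lt_or_ge l.1 p.natDegree with hl | hl
  swap
  · exact hG l hl
  have h4 := h2 l
  rw [if_pos hl] at h4
  suffices h5 : _ ∈ liftsRing U.subtype by
    obtain ⟨z, hz⟩ := (lifts_iff_coeff_lifts _).1 ((lifts_iff_liftsRing U.subtype _).2 h5)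
      (Fintype.card k ^ l.1)
    exact (hz.trans h4) ▸ z.2
  rw [e]
  refine sum_mem fun y hy => mul_mem (hm _ ?_) (prod_mem fun y' hy' => mul_mem (hm _ ?_)
    (sub_mem (X_mem_lifts _) (hm _ ?_)))
  all_goals obtain ⟨a, rfl⟩ := (hC' y).1 hy
  · have : ∀ l : Fin (s + 1), (if l.1 < p.natDegree then G l else 0) =
        G l - if l.1 < p.natDegree then 0 else G l := fun l => by split_ifs <;> simp
    beta_reduce
    rw [h3]
    simp only [this, sub_mul, Finset.sum_sub_distrib, h.eq]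
    refine sub_mem (sub_mem (hψ _).1 (mul_mem ht (hψ _).1))
      (sum_mem fun l _ => mul_mem ?_ (pow_mem (hψ _).1 _))
    split_ifs with hl
    · exact zero_mem _
    · exact hG l (not_lt.1 hl)
  all_goals obtain ⟨a', rfl⟩ := (hC' y').1 (Finset.mem_of_mem_erase hy')
  · have := map_sub (FiniteField.frobeniusAlgHom k Ω) (ψ a) (ψ a')
    simp only [FiniteField.coe_frobeniusAlgHom] at this
    rw [← this, ← map_sub, ← inv_pow]
    exact pow_mem (hψ _).2 _
  · exact pow_mem (hψ _).1 _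

end Sol

/-- The sum `1 + x + ... + x^(n-1)`. -/
abbrev gs (x n : ℕ) : ℕ := ∑ i ∈ Finset.range n, x ^ i

theorem gs_mul {x : ℕ} (hx : 1 < x) (n : ℕ) : gs x n * (x - 1) = x ^ n - 1 :=
  geom_sum_mul_of_one_le hx.le n

theorem gs_gcd {x : ℕ} (hx : 1 < x) (a b : ℕ) : (gs x a).gcd (gs x b) = gs x (a.gcd b) := by
  refine Nat.eq_of_mul_eq_mul_right (Nat.sub_pos_of_lt hx) ?_
  rw [← Nat.gcd_mul_right, gs_mul hx, gs_mul hx, gs_mul hx, Nat.pow_sub_one_gcd_pow_sub_one]

theorem gs_comp {x : ℕ} (hx : 1 < x) {e : ℕ} (he : e ≠ 0) (b : ℕ) :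
    gs x (e * b) = gs (x ^ e) b * gs x e := by
  refine Nat.eq_of_mul_eq_mul_right (Nat.sub_pos_of_lt hx) ?_
  rw [mul_assoc, gs_mul hx, gs_mul hx, gs_mul (Nat.one_lt_pow he hx), pow_mul]

theorem numerics {q r d : ℕ} (hq : 1 < q) (hr : r ≠ 0) (hd : d ≠ 0) :
    gs q d = (q ^ d - 1) / (q ^ r.gcd d - 1) * gs q (r.gcd d) ∧
    (gs q d).gcd (gs (q ^ r) d) =
      (q ^ d - 1) / (q ^ r.gcd d - 1) * (r.gcd d).gcd (gs q (r.gcd d)) := by
  obtain ⟨e, a, b, he, hab, rfl, rfl⟩ := Nat.exists_coprime' (Nat.gcd_pos_of_pos_left d hr.bot_lt)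
  rw [Nat.gcd_mul_right, hab.gcd_eq_one, one_mul, mul_comm a, mul_comm b] at *
  have hx : 1 < q ^ e := Nat.one_lt_pow he.ne' hq
  have ha : a ≠ 0 := right_ne_zero_of_mul hr
  have hb : b ≠ 0 := right_ne_zero_of_mul hd
  have hA : (q ^ (e * b) - 1) / (q ^ e - 1) = gs (q ^ e) b := by
    rw [pow_mul, ← gs_mul hx, Nat.mul_div_cancel _ (Nat.sub_pos_of_lt hx)]
  rw [hA]
  refine ⟨gs_comp hq he.ne' b, ?_⟩
  have h1 : gs (q ^ (e * a)) (e * b) * gs (q ^ e) a = gs (q ^ (e * b)) (e * a) * gs (q ^ e) b := by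
    rw [pow_mul, pow_mul, ← gs_comp hx ha, ← gs_comp hx hb]
    congr 1
    ring
  have h2 : (gs (q ^ e) b).Coprime (gs (q ^ e) a) := by
    rw [Nat.Coprime, gs_gcd hx, hab.symm.gcd_eq_one]
    simp [gs]
  obtain ⟨B, hB⟩ := h2.dvd_of_dvd_mul_right (h1.symm ▸ dvd_mul_left _ _)
  have hA0 : 0 < gs (q ^ e) b := Finset.sum_pos (fun _ _ => by positivity) (by simpa using hb)
  have h3 : B * gs (q ^ e) a = gs (q ^ (e * b)) (e * a) :=
    Nat.eq_of_mul_eq_mul_left hA0 (by rw [← mul_assoc, ← hB, h1, mul_comm])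
  rw [gs_comp hq he.ne', hB, Nat.gcd_mul_left, Nat.gcd_comm]
  congr 1
  refine Nat.ModEq.gcd_eq ((ZMod.natCast_eq_natCast_iff _ _ _).1 ?_)
  have h4 : ((q : ZMod (gs q e)) ^ e) = 1 := by
    have := congrArg (Nat.cast (R := ZMod (gs q e))) (gs_mul hq e)
    rwa [Nat.cast_mul, ZMod.natCast_self, zero_mul, Nat.cast_sub hx.le, Nat.cast_pow,
      Nat.cast_one, eq_comm, sub_eq_zero] at this
  have h5 := congrArg (Nat.cast (R := ZMod (gs q e))) hB
  have h6 := congrArg (Nat.cast (R := ZMod (gs q e))) h3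
  obtain ⟨u, w, h7⟩ := (Nat.isCoprime_iff_coprime.2 hab).intCast (R := ZMod (gs q e))
  simp [pow_mul, h4] at h5 h6 h7
  linear_combination (↑e - ↑B) * h7 + u * h6 - w * h5

end Pool.Agent.P.MP_7c5a52_nt.X
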