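import Pool.Agent.P.MP_7c5a52_nt.X.D

/-! The rational torsion subgroup of the class group of `X_0^r(p)` for `deg p ≤ r`. -/

open Polynomial

set_option linter.unusedSectionVars false

namespace Pool.Agent.P.MP_7c5a52_nt.X

open G

theorem lattice {M : Type} [AddCommGroup M] {a b : M} {G n m : ℕ} (hG : G ≠ 0)
    (hc : n.Coprime m) (h0 : ((G * n : ℕ) : ℤ) • a = ((G * m : ℕ) : ℤ) • b)
    (h : ∀ x y : ℤ, x • a + y • b = 0 → ∃ t : ℤ, x = (G * n : ℕ) * t ∧ y = -(G * m : ℕ) * t) :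
    addOrderOf ((n : ℤ) • a - (m : ℤ) • b) = G ∧ ∀ x y : ℤ, IsOfFinAddOrder (x • a + y • b) →
      x • a + y • b ∈ AddSubgroup.zmultiples ((n : ℤ) • a - (m : ℤ) • b) := by
  obtain ⟨u, w, huw⟩ := Nat.isCoprime_iff_coprime.2 hc
  constructor
  · refine (addOrderOf_eq_iff hG.bot_lt).2 ⟨?_, fun i hi h1 e => ?_⟩
    · rw [← natCast_zsmul, smul_sub, smul_smul, smul_smul, ← Nat.cast_mul, ← Nat.cast_mul, h0,
        sub_self]
    · obtain ⟨t, h2, h3⟩ := h (i * n) (-(i * m)) (by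
        rw [← e, ← natCast_zsmul, smul_sub, smul_smul, smul_smul, neg_smul, sub_eq_add_neg])
      push_cast at h2 h3
      have : (G : ℤ) ∣ i := ⟨t, by linear_combination u * h2 - w * h3 + (G * t - i) * huw⟩
      exact absurd (Nat.le_of_dvd h1 (Int.natCast_dvd_natCast.1 this)) (not_le.2 hi)
  · intro x y hx
    obtain ⟨i, hi, e⟩ := isOfFinAddOrder_iff_zsmul_eq_zero.1 hx
    obtain ⟨t, h2, h3⟩ := h (i * x) (i * y) (by rw [← e, smul_add, smul_smul, smul_smul])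
    push_cast at h2 h3
    have h4 : x * m + y * n = 0 := mul_left_cancel₀ hi (by linear_combination m * h2 + n * h3)
    refine ⟨u * x - w * y, ?_⟩
    change (u * x - w * y) • _ = _
    rw [smul_sub, smul_smul, smul_smul, sub_eq_add_neg, ← neg_smul]
    congr 2
    · linear_combination x * huw - w * h4
    · linear_combination y * huw - u * h4

variable {k F E Ω : Type} [Field k] [Fintype k] [Field F] [Field E] [Field Ω] [Algebra k Ω]
  [Algebra F Ω] [Algebra E Ω] {T : F} {s : ℕ} {j : Fin (s + 2) → E} [Algebra k F] [Algebra F E]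
  [IsScalarTower F E Ω] [IsScalarTower k F Ω] [GenJ F j] [GenT k T] {p : k[X]} {c : Ω}
  [IsSepClosure E Ω] {V W V0 : Subring Ω} [DecidableEq Ω] {Cs : Finset Ω} {u : Ω}
  {γ δ D : WDiv (primeDiv k T j c)}

variable (T j) in
/-- The two generators. -/
structure Dat (p : k[X]) (c : Ω) (V0 : Subring Ω) (γ δ : WDiv (primeDiv k T j c)) : Prop where
  inf : IsInf T j p c V0
  del : δ.1 = Finsupp.single V0 1
  rel : Rel T j p c (resc k j c (0 : Fin (s + 3))) γ.1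
  zero : γ.1 V0 = 0

theorem gs_ne {x n : ℕ} (hx : 1 < x) (hn : n ≠ 0) : gs x n ≠ 0 := fun e =>
  Nat.sub_ne_zero_of_lt (Nat.one_lt_pow hn hx) (by rw [← gs_mul hx, e, zero_mul])

theorem Hz.exists_dat (H : Hz T j p c Cs) : ∃ V0 γ δ, Dat T j p c V0 γ δ := by
  classical
  obtain ⟨V0, h0⟩ := H.exists_inf
  obtain ⟨D, hD⟩ := H.exists_div (h_mem H.mem) h_ne
  obtain ⟨γ, hγ⟩ := H.mk_div (n := fun V => if V = V0 then 0 else
    D.1 V / gs (Fintype.card k) p.natDegree) (h_mem H.mem) h_ne fun V hV h => by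
      have := H.dvr hV
      simp [(hD V hV).unique (isOrd_zero_iff.2 h)]
  refine ⟨V0, γ, ⟨_, Finsupp.single_mem_supported ℤ 1 h0.1⟩, h0, rfl, ⟨H.R_L (H.resc_R 0),
    resc_ne F H.ne 0, fun W hW => ?_⟩, (hγ V0 h0.1).trans (if_pos rfl)⟩
  obtain ⟨f, a, b, d⟩ := H.exists_loc hW
  have hV := H.down' hW
  have := H.dvr hV
  obtain ⟨o, ho⟩ := H.ord hV a b
  refine ⟨f, a, ?_, d⟩
  have h1 := un_div (d.pow (gs (Fintype.card k) p.natDegree)) (un_mono H.h_un (ht_le hW))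
  rw [div_pow, div_div_div_cancel_left' _ _ (pow_ne_zero _ (resc_ne F H.ne 0))] at h1
  rwa [hγ _ hV, if_neg (h0.2 W hW), (hD _ hV).unique (ord_un (ord_pow ho _)
    (un_inf (div_mem (h_mem H.mem) (pow_mem a _)) h1)), Int.mul_ediv_cancel_left _
    (Int.natCast_ne_zero.2 (gs_ne Fintype.one_lt_card H.irr.natDegree_pos.ne'))]

theorem Hz.cases (H : Hz T j p c Cs) (h : Dat T j p c V0 γ δ) (hV : V ∈ primeDiv k T j c) :
    V = V0 ∨ ∃ W ∈ htOneLocs (R1 T j p c), W ⊓ (funField k T j c).toSubring = V := by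
  by_contra! hn
  exact hn.1 (H.inf_uniq ⟨hV, hn.2⟩ h.inf)

theorem Dat.del_W (h : Dat T j p c V0 γ δ) (hW : W ∈ htOneLocs (R1 T j p c)) :
    δ.1 (W ⊓ (funField k T j c).toSubring) = 0 := h.del ▸ Finsupp.single_eq_of_ne (h.inf.2 W hW)

theorem Dat.del_V (h : Dat T j p c V0 γ δ) : δ.1 V0 = 1 := h.del ▸ Finsupp.single_eq_same

theorem Hz.div_h (H : Hz T j p c Cs) (h : Dat T j p c V0 γ δ) (hV : V ∈ primeDiv k T j c) :
    IsOrd V (∏ y ∈ Cs.erase 0, y) (gs (Fintype.card k) p.natDegree * γ.1 V -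
      gs (Fintype.card k ^ (s + 3)) p.natDegree * δ.1 V) := by
  rcases H.cases h hV with rfl | ⟨W, hW, rfl⟩
  · simpa only [h.zero, h.del_V, mul_zero, mul_one, zero_sub] using (H.inf_ord h.inf).2
  · have := H.rel_ord (H.rel_of_un (H.rel_zpow h.rel (gs (Fintype.card k) p.natDegree))
      (zpow_natCast (G := Ω) _ _ ▸ H.h_un)) (h_mem H.mem) hW
    simpa only [h.del_W hW, mul_zero, sub_zero, Pi.smul_apply, smul_eq_mul] using this

theorem Hz.cl_of_rel (H : Hz T j p c Cs) (h : Dat T j p c V0 γ δ) (hu : u ∈ funField k T j c)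
    (hD : Rel T j p c u D.1) : ∃ y : ℤ, cl T j c D = y • cl T j c δ := by
  obtain ⟨D', hD'⟩ := H.exists_div hu hD.2.1
  refine ⟨(D - D').1 V0, ?_⟩
  rw [← map_zsmul, ← sub_zero (cl T j c D), ← cl_zero hu hD.2.1 hD', ← map_sub]
  refine congrArg _ (div_ext fun V hV => ?_)
  rcases H.cases h hV with rfl | ⟨W, hW, rfl⟩
  · simp [h.del_V]
  · have := H.dvr hV
    simp [h.del_W hW, (H.rel_ord hD hu hW).unique (hD' _ hV)]

theorem Hz.gen (H : Hz T j p c Cs) (h : Dat T j p c V0 γ δ)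
    (hF : IntermediateField.adjoin k {T} = ⊤) {x : Cl k T j c} (hx : IsRational k T j x) :
    ∃ m y : ℤ, x = m • cl T j c γ + y • cl T j c δ := by
  obtain ⟨D, rfl⟩ := (prin (funField k T j c).toSubfield (primeDiv k T j c)).mkQ_surjective x
  obtain ⟨f, hf⟩ := H.exists_rel D.1
  obtain ⟨m, u, hu, h1⟩ := H.rel_rat hF hf hx
  have h2 := H.rel_mul h1 (H.rel_zpow h.rel (-m))
  rw [mul_right_comm, ← zpow_add₀ (resc_ne F H.ne 0), add_neg_cancel, zpow_zero, one_mul] at h2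
  obtain ⟨y, hy⟩ := H.cl_of_rel h (D := D + (-m) • γ) hu h2
  exact ⟨m, y, by rw [← hy, map_add, map_zsmul, neg_smul, add_add_neg_cancel'_right]⟩

theorem Hz.lat (H : Hz T j p c Cs) (h : Dat T j p c V0 γ δ) {x y : ℤ}
    (e : x • cl T j c γ + y • cl T j c δ = 0) : ∃ t : ℤ,
      x = gs (Fintype.card k) p.natDegree * t ∧
      y = -(gs (Fintype.card k ^ (s + 3)) p.natDegree : ℕ) * t := by
  rw [← map_zsmul, ← map_zsmul, ← map_add] at e
  obtain ⟨u, a, b, d⟩ := H.of_cl e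
  obtain ⟨t, rfl⟩ := H.rel_lat a (H.rel_un (H.rel_zpow h.rel x)
    ((H.rel_div a b d).congr fun W hW => by simp [h.del_W hW]))
  refine ⟨t, rfl, ?_⟩
  have h1 : ∀ V ∈ primeDiv k T j c, IsOrd V (u * (∏ y ∈ Cs.erase 0, y) ^ (-t))
      ((y + gs (Fintype.card k ^ (s + 3)) p.natDegree * t) * δ.1 V) := fun V hV => by
    have := H.dvr hV
    convert (d V hV).mul ((H.div_h h hV).zpow (-t)) using 1
    simp only [Submodule.coe_add, Submodule.coe_smul, Finsupp.add_apply, Finsupp.smul_apply,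
      smul_eq_mul]
    ring
  have h2 : u * (∏ y ∈ Cs.erase 0, y) ^ (-t) ∈ funField k T j c :=
    mul_mem a (zpow_mem (h_mem H.mem) _)
  have key : ∀ f ∈ funField k T j c, ∀ z : ℤ, 0 ≤ z →
      (∀ V ∈ primeDiv k T j c, IsOrd V f (z * δ.1 V)) → z = 0 := fun f hf z hz h3 => by
    have := H.dvr h.inf.1
    have h4 := h3 _ h.inf.1
    have h5 := H.const_un hf (ord_ne h4) (fun V hV => by
      have := H.dvr hV
      refine (ord_mem_iff (h3 V hV)).2 (mul_nonneg hz ?_)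
      rcases H.cases h hV with rfl | ⟨W, hW, rfl⟩
      · exact h.del_V.ge.trans' zero_le_one
      · exact (h.del_W hW).ge) h.inf.1
    simpa [h.del_V] using h4.unique (isOrd_zero_iff.2 h5)
  rcases le_total 0 (y + gs (Fintype.card k ^ (s + 3)) p.natDegree * t) with h3 | h3
  · linear_combination key _ h2 _ h3 h1
  · linear_combination -key _ (inv_mem h2) _ (neg_nonneg.2 h3) fun V hV =>
      have := H.dvr hV
      neg_mul (α := ℤ) _ _ ▸ (h1 V hV).inv

theorem Hz.del_span (H : Hz T j p c Cs) (h : Dat T j p c V0 γ δ) :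
    cl T j c δ ∈ AddSubgroup.closure (cuspClasses k T j c) :=
  AddSubgroup.subset_closure ⟨V0, H.inf_cusp h.inf, δ, h.del, rfl⟩

theorem Hz.last_span (H : Hz T j p c Cs) (h : Dat T j p c V0 γ δ) :
    (gs (Fintype.card k) (s + 3) : ℤ) • cl T j c γ ∈
      AddSubgroup.closure (cuspClasses k T j c) := by
  obtain ⟨D, hD⟩ := H.exists_div (g_fun (Fin.last _)) (g_ne F _)
  refine mem_span_iff.2 ⟨(gs (Fintype.card k) (s + 3) : ℤ) • γ + D, by
    rw [map_add, map_zsmul, cl_zero (g_fun _) (g_ne F _) hD, add_zero], fun V hV => ?_⟩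
  by_cases h1 : V ∈ primeDiv k T j c
  swap
  · exact (Finsupp.mem_supported' _ _).1 (Subtype.prop _) V h1
  rcases H.cases h h1 with rfl | ⟨W, hW, rfl⟩
  · exact absurd (H.inf_cusp h.inf) hV
  refine (H.rel_zero (H.rel_mul (H.rel_zpow h.rel _) (H.rel_div (g_fun _) (g_ne F _) hD)) hW).1 ?_
  rw [g_eq (k := k) H.ne (Fin.last _), zpow_natCast, Fin.val_last,
    mul_div_cancel₀ _ (pow_ne_zero _ (resc_ne F H.ne 0))]
  exact (H.last_iff hW).2 hV

theorem Hz.of_span (H : Hz T j p c Cs) (h : Dat T j p c V0 γ δ) {x y : ℤ}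
    (e : x • cl T j c γ + y • cl T j c δ ∈ AddSubgroup.closure (cuspClasses k T j c)) :
    (gs (Fintype.card k) ((s + 3).gcd p.natDegree) : ℤ) ∣ x := by
  obtain ⟨D, hD, h1⟩ := mem_span_iff.1 e
  rw [← map_zsmul, ← map_zsmul, ← map_add] at hD
  obtain ⟨u, a, _, d⟩ := H.rel_of_cl (D := x • γ + y • δ)
    ((H.rel_zpow h.rel x).congr fun W hW => by simp [h.del_W hW]) hD
  exact H.rel_cusp a d h1

omit [DecidableEq Ω] in
theorem main (hF : IntermediateField.adjoin k {T} = ⊤) (hp : Irreducible p)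
    (hd : p.natDegree ≤ s + 3) (hc : IsLevel k T j (Ideal.span {p}) c) {e g : ℕ}
    (he : e = (s + 3).gcd p.natDegree) (hg : g = e.gcd (gs (Fintype.card k) e)) :
    ∃ x₀ : Cl k T j c,
      addOrderOf x₀ = (Fintype.card k ^ p.natDegree - 1) / (Fintype.card k ^ e - 1) * g ∧
      (∀ x, IsOfFinAddOrder x ∧ IsRational k T j x ↔ x ∈ AddSubgroup.zmultiples x₀) ∧
      ∀ m : ℤ, m • x₀ ∈ AddSubgroup.closure (cuspClasses k T j c) ↔ (g : ℤ) ∣ m := by
  classical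
  obtain ⟨Cs, hcard, hC⟩ := exists_finset hp (orb k T j c) (lev_iff hc)
  have H : Hz T j p c Cs := ⟨⟨hp, hd, hc⟩, hcard, hC⟩
  obtain ⟨V0, γ, δ, h⟩ := H.exists_dat
  have hq : 1 < Fintype.card k := Fintype.one_lt_card
  obtain ⟨n1, n2⟩ := numerics (r := s + 3) hq (by omega) hp.natDegree_pos.ne'
  rw [← he] at n1 n2
  rw [← hg] at n2
  have n0 := gs_ne hq hp.natDegree_pos.ne'
  obtain ⟨n, hn⟩ : g ∣ gs (Fintype.card k) e := hg ▸ Nat.gcd_dvd_right _ _
  generalize (Fintype.card k ^ p.natDegree - 1) / (Fintype.card k ^ e - 1) = A at *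
  obtain ⟨m, hm⟩ := n2 ▸ Nat.gcd_dvd_right _ (gs (Fintype.card k ^ (s + 3)) p.natDegree)
  rw [hn, ← mul_assoc] at n1
  have hG : A * g ≠ 0 := left_ne_zero_of_mul (n1 ▸ n0)
  have hco : n.Coprime m := by
    rwa [n1, hm, Nat.gcd_mul_left, mul_eq_left₀ hG] at n2
  have hdiv : ∀ t : ℤ, ∀ V ∈ primeDiv k T j c, IsOrd V ((∏ y ∈ Cs.erase 0, y) ^ t)
      ((A * g : ℕ) * (t • ((n : ℤ) • γ - (m : ℤ) • δ)).1 V) := fun t V hV => by
    have := H.dvr hV
    convert (H.div_h h hV).zpow t using 1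
    simp only [n1, hm, Submodule.coe_sub, Submodule.coe_smul, Finsupp.sub_apply,
      Finsupp.smul_apply, smul_eq_mul]
    push_cast
    ring
  have h0 : (gs (Fintype.card k) p.natDegree : ℤ) • cl T j c γ =
      (gs (Fintype.card k ^ (s + 3)) p.natDegree : ℤ) • cl T j c δ := by
    rw [← sub_eq_zero, ← map_zsmul, ← map_zsmul, ← map_sub]
    exact cl_zero (h_mem hC) h_ne fun V hV => H.div_h h hV
  obtain ⟨l1, l2⟩ := lattice hG hco (n1 ▸ hm ▸ h0) fun x y e => n1 ▸ hm ▸ H.lat h e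
  have hfin := addOrderOf_pos_iff.1 (l1 ▸ hG.bot_lt)
  refine ⟨_, l1, fun x => ⟨fun ⟨h1, h2⟩ => ?_, ?_⟩, fun t => ⟨fun h1 => ?_, ?_⟩⟩
  · obtain ⟨a, b, rfl⟩ := H.gen h hF h2
    exact l2 a b h1
  · rintro ⟨t, rfl⟩
    refine ⟨hfin.zsmul, ?_⟩
    have := H.rational (fun σ hσ => by rw [map_zpow₀, h_fix hC hσ]) (Int.natCast_ne_zero.2 hG)
      (hdiv t)
    rwa [map_zsmul, map_sub, map_zsmul, map_zsmul] at this
  · rw [smul_sub, smul_smul, smul_smul, sub_eq_add_neg, ← neg_smul] at h1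
    have := H.of_span h h1
    rw [← he, hn, Nat.cast_mul] at this
    exact (mul_dvd_mul_iff_right (Int.natCast_ne_zero.2 (right_ne_zero_of_mul (n1 ▸ n0)))).1 this
  · rintro ⟨t, rfl⟩
    rw [mul_comm, mul_smul, smul_sub, smul_smul, ← Nat.cast_mul, ← hn, he, ← gs_gcd hq,
      Nat.gcd_eq_gcd_ab, add_smul, mul_comm, mul_smul, mul_comm, mul_smul, h0]
    have := H.del_span h
    exact zsmul_mem (sub_mem (add_mem (zsmul_mem (H.last_span h) _)
      (zsmul_mem (zsmul_mem this _) _)) (zsmul_mem (zsmul_mem this _) _)) _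

end Pool.Agent.P.MP_7c5a52_nt.X
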